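import Pool.Agent.MP_249f74_an.H2.Sec1
import Pool.Agent.MP_249f74_an.H65.Defs

/-!
Existence and uniqueness of generic tangent edges; double transitivity.
-/

open MvPolynomial Matrix Set

namespace Pool.Agent.MP_249f74_an.H2.Sc

open H17.Cm hiding Gen dir
open H42 (ev Gen Cur FL mp)
open H88 (cl subset_cl)

variable {C Ω ι ρ τ : Type} [Field C] [Field Ω] [Algebra C Ω] [Fintype ι] [DecidableEq ι]

section Spz

/-- A family as a family of elements of its field. -/
def inL (v : ρ → Ω) : ρ → cl C (range v) := fun i => ⟨v i, subset_cl _ ⟨i, rfl⟩⟩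

/-- Substitution of the first group of variables. -/
noncomputable def res (v : ρ → Ω) : MvPolynomial (ρ ⊕ τ) C →ₐ[C] MvPolynomial τ (cl C (range v)) :=
  aeval (Sum.elim (fun i => MvPolynomial.C (inL v i)) X)

lemma aeval_res (v : ρ → Ω) (z : τ → Ω) (G : MvPolynomial (ρ ⊕ τ) C) :
    aeval z (res v G) = aeval (Sum.elim v z) G := by
  have : ((aeval z : MvPolynomial τ (cl C (range v)) →ₐ[cl C (range v)] Ω).restrictScalars C).comp
      (res v) = aeval (Sum.elim v z) := algHom_ext fun i => by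
    rcases i with i | i <;> simp [res, inL]
  exact DFunLike.congr_fun this G

lemma res_inl (v : ρ → Ω) (G : MvPolynomial ρ C) :
    res (τ := τ) v (rename Sum.inl G) = MvPolynomial.C (aeval (inL (C := C) v) G) := by
  induction G using MvPolynomial.induction_on with
  | C a => simp [res]
  | add p q hp hq => simp only [map_add, hp, hq]
  | mul_X p i hp => simp only [map_mul, hp]; simp [res]

lemma res_inr (v : ρ → Ω) (G : MvPolynomial τ C) :
    res v (rename Sum.inr G) = map (algebraMap C (cl C (range v))) G := by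
  induction G using MvPolynomial.induction_on with
  | C a => simp [res]
  | add p q hp hq => simp only [map_add, hp, hq]
  | mul_X p i hp => simp only [map_mul, hp]; simp [res]

lemma coe_inL (v : ρ → Ω) (G : MvPolynomial ρ C) :
    ((aeval (inL (C := C) v) G : cl C (range v)) : Ω) = aeval v G :=
  (comp_aeval_apply (inL v) (cl C (range v)).val G).trans rfl

lemma map_aev {σ : Type} (g : Ω ≃ₐ[C] Ω) (v : σ → Ω) (G : MvPolynomial σ C) :
    aeval (g ∘ v) G = g (aeval v G) := (comp_aeval_apply v (g : Ω →ₐ[C] Ω) G).symm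

variable [CharZero Ω] [IsAlgClosed Ω]

/-- Specialization of a point that is generic on a hypersurface over the field of `v`. -/
lemma spz [Fintype ρ] [Fintype τ] [DecidableEq τ] {v v' : ρ → Ω} {z z' N : τ → Ω}
    {π : MvPolynomial (ρ ⊕ τ) C}
    (hv : ∀ G : MvPolynomial ρ C, aeval v' G = 0 ↔ aeval v G = 0) (hπ : Irreducible (res v π))
    (h0 : aeval (Sum.elim v z) π = 0) (h0' : aeval (Sum.elim v' z') π = 0) (hN : N ≠ 0)
    (h : ∀ w, N ⬝ᵥ w = 0 → ∃ D : Derivation C Ω Ω, dv D v = 0 ∧ dv D z = w)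
    {G : MvPolynomial (ρ ⊕ τ) C} (hG : aeval (Sum.elim v z) G = 0) :
    aeval (Sum.elim v' z') G = 0 := by
  obtain ⟨g, hg⟩ := H96A.Bt.conj_fam v' v hv
  have e : ∀ G : MvPolynomial (ρ ⊕ τ) C,
      aeval (g ∘ z') (res v G) = g (aeval (Sum.elim v' z') G) := fun G => by
    rw [aeval_res, ← map_aev]
    congr 2
    ext (i | i) <;> simp [hg]
  have h1 : H88.Gen (cl C (range v)) z := gen_of_hyp hN fun w hw => by
    obtain ⟨D, d1, d2⟩ := h w hw
    exact ⟨toL _ D (H96.Kil.cl (S := range v) (by rintro _ ⟨i, rfl⟩; exact congrFun d1 i)), d2⟩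
  obtain ⟨A, hA⟩ := H88.dvd_of_gen h1 hπ ((aeval_res _ _ _).trans h0) ((aeval_res _ _ _).trans hG)
  have := e G
  rw [hA, map_mul, e π, h0', map_zero, zero_mul, eq_comm, map_eq_zero] at this
  exact this

end Spz

variable [CharZero Ω] {l l' k : ι ⊕ ι → Ω} {F : MvPolynomial ι C} {t y : Ω} {p u : ι → Ω}

omit [CharZero Ω] [Fintype ι] [DecidableEq ι] in
lemma AP.irr (h : AP Ω F) : Irreducible F := by
  rw [← MulEquiv.irreducible_iff
    (f := mapEquiv ι (IntermediateField.botEquiv C Ω).symm.toRingEquiv)]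
  exact h ⊥

omit [CharZero Ω] [DecidableEq ι] in
lemma der_hs {D : Derivation C Ω Ω} (h : dv D p = 0) (u v : ι → Ω) :
    D (hs F p u v) = hs F p (dv D u) v + hs F p u (dv D v) := by
  classical
  simp only [hs, map_sum, Derivation.leibniz, dv_dot, dv_grad h, ← Finset.sum_add_distrib]
  exact Finset.sum_congr rfl fun _ _ => by simp [dv]; ring

/-- The second fundamental form does not vanish. -/
lemma flat (hF : AP Ω F) (hd : 2 ≤ F.totalDegree) (hp : Gp F p) {j : ι} (hj : grad F p j ≠ 0)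
    (h : ∀ i b, grad F p ⬝ᵥ b = 0 →
      hs F p (grad F p j • Pi.single i 1 - grad F p i • Pi.single j 1) b = 0) : False := by
  let L := cl C (∅ : Set Ω)
  have h1 : ∀ (D : Derivation C Ω Ω) i, D (grad F p i / grad F p j) = 0 := fun D i => by
    have := h i _ (grad_dv (θ := D) hp.zero)
    rw [← dv_grad_dot] at this
    simp only [dotProduct_sub, dotProduct_smul, dotProduct_single, dv, smul_eq_mul, mul_one] at this
    rw [Derivation.leibniz_div, smul_eq_mul, smul_eq_mul, smul_eq_mul, this, mul_zero]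
  have h2 : ∀ i, grad F p i / grad F p j ∈ L := fun i => H96.mem_cl_of_kil fun D _ => h1 D i
  have h3 : ∑ i, grad F p i / grad F p j * p i ∈ L := H96.mem_cl_of_kil fun D _ => by
    have := grad_dv (θ := D) hp.zero
    simp only [map_sum, Derivation.leibniz, h1, smul_eq_mul, mul_zero, add_zero]
    simp only [dotProduct, dv] at this
    simp only [div_mul_eq_mul_div, ← Finset.sum_div, this, zero_div]
  have h4 : H88.Gen L p := gen_of_hyp (fun e => hj (congrFun e j)) fun w hw => by
    obtain ⟨D, d⟩ := hp.der hw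
    exact ⟨toL _ D (H96.Kil.cl (S := ∅) (by simp [H96.Kil])), d⟩
  let G : MvPolynomial ι L := H65.lin (fun i => ⟨_, h2 i⟩) - MvPolynomial.C ⟨_, h3⟩
  have h5 : map (algebraMap C L) F ∣ G := H88.dvd_of_gen h4 (hF L)
    (by rw [aeval_map_algebraMap]; exact hp.zero) (by simp [G, H65.aeval_lin])
  have h6 : G ≠ 0 := fun e => by
    have := congrArg (pderiv j) e
    simp [G, H65.pderiv_lin, Subtype.ext_iff, hj] at this
  have h7 := totalDegree_le_of_dvd_of_isDomain h5 h6
  have h8 : G.totalDegree ≤ 1 :=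
    (totalDegree_sub _ _).trans (max_le (H65.lin_hom _).totalDegree_le (by simp))
  have h9 : (map (algebraMap C L) F).totalDegree = F.totalDegree := by
    simp [totalDegree, support_map_of_injective _ (algebraMap C L).injective]
  omega

/-- The direction projected to the tangent space. -/
noncomputable def prj (F : MvPolynomial ι C) (p u : ι → Ω) (j : ι) : ι → Ω :=
  u - (grad F p ⬝ᵥ u / grad F p j) • Pi.single j 1

omit [CharZero Ω] in
lemma dot_prj {j : ι} (hj : grad F p j ≠ 0) (u : ι → Ω) : grad F p ⬝ᵥ prj F p u j = 0 := by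
  simp [prj, hj]

/-- The edge through a point. -/
abbrev edg (p u : ι → Ω) (t : Ω) : ι ⊕ ι → Ω := Sum.elim (p - t • u) u

omit [CharZero Ω] [Fintype ι] [DecidableEq ι] in
lemma pt_edg (p u : ι → Ω) (t : Ω) : pt (edg p u t) t = p := by
  ext i; simp

omit [CharZero Ω] [Fintype ι] [DecidableEq ι] in
lemma edg_pt (l : ι ⊕ ι → Ω) (t : Ω) : edg (pt l t) (us l) t = l := by
  ext (i | i) <;> simp

lemma prj_free (hl : Gen C l) (hF : Irreducible F) (hy : aeval (pt l y) F = 0) {j : ι}
    (hj : grad F (pt l y) j ≠ 0) (w b : ι → Ω) (s : Ω) (hw : grad F (pt l y) ⬝ᵥ w = 0)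
    (hb : hs F (pt l y) (prj F (pt l y) (us l) j) w + grad F (pt l y) ⬝ᵥ b = 0) :
    ∃ D : Derivation C Ω Ω, dv D (pt l y) = w ∧ dv D (prj F (pt l y) (us l) j) = b ∧ D y = s := by
  obtain ⟨D, d1, d2, d3⟩ := gen_free hl hF hy w b s hw
  have h1 := dv_dot D (grad F (pt l y)) (prj F (pt l y) (us l) j)
  have h2 : dv D (prj F (pt l y) (us l) j) =
      b - D (grad F (pt l y) ⬝ᵥ us l / grad F (pt l y) j) • Pi.single j 1 := by
    rw [prj, dv_sub, dv_smul, d2]
    ext i; by_cases e : i = j <;> simp [dv, e]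
  rw [dot_prj hj, map_zero, dv_grad_dot, d1, h2, dotProduct_sub, add_sub, hb] at h1
  have h3 : D (grad F (pt l y) ⬝ᵥ us l / grad F (pt l y) j) = 0 := by simpa [hj] using h1
  exact ⟨D, d1, by simpa [h3] using h2, d3⟩

lemma prj_ne (hl : Gen C l) (hF : AP Ω F) (hd : 2 ≤ F.totalDegree) (hy : aeval (pt l y) F = 0)
    {j : ι} (hj : grad F (pt l y) j ≠ 0) :
    hs F (pt l y) (prj F (pt l y) (us l) j) (prj F (pt l y) (us l) j) ≠ 0 := fun e => by
  have k : ∀ b, grad F (pt l y) ⬝ᵥ b = 0 → ∃ D : Derivation C Ω Ω,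
      dv D (pt l y) = 0 ∧ dv D (prj F (pt l y) (us l) j) = b := fun b hb => by
    obtain ⟨D, d1, d2, -⟩ := prj_free hl hF.irr hy hj 0 b 0 (by simp) (by simp [hs, hb])
    exact ⟨D, d1, d2⟩
  refine flat hF hd (gen_pt hl hF.irr hy).1 hj fun i b hb => ?_
  obtain ⟨D, d1, d2⟩ := k (grad F (pt l y) j • Pi.single i 1 - grad F (pt l y) i • Pi.single j 1)
    (by simp [mul_comm])
  have h1 := der_hs (F := F) d1 (prj F (pt l y) (us l) j) (prj F (pt l y) (us l) j)
  rw [e, map_zero, d2, hs_symm _ _ (prj _ _ _ _), eq_comm, add_self_eq_zero] at h1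
  obtain ⟨D', d3, d4⟩ := k b hb
  have h2 := congrArg D' h1
  have h3 : dv D' (grad F (pt l y) j • Pi.single i 1 - grad F (pt l y) i • Pi.single j 1) = 0 := by
    have := fun i => congrFun (dv_grad d3 F) i
    simp only [dv, Pi.zero_apply] at this
    ext m; simp [dv, this, Pi.single_apply, apply_ite D']
  rw [der_hs d3, d4, h3, map_zero] at h2
  simpa [hs] using h2

/-- The tangent edge at a point of a generic edge. -/
lemma tg_prj (hl : Gen C l) (hF : AP Ω F) (hd : 2 ≤ F.totalDegree) (hy : aeval (pt l y) F = 0)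
    {j : ι} (hj : grad F (pt l y) j ≠ 0) : Tg F (edg (pt l y) (prj F (pt l y) (us l) j) y) y := by
  have h0 := prj_ne hl hF hd hy hj
  have h1 := dot_prj hj (us l)
  set p := pt l y with hp
  set v := prj F p (us l) j with hv
  have e : ∀ w : ι ⊕ ι → Ω, Sum.elim (grad F p) (y • grad F p) ⬝ᵥ w =
      grad F p ⬝ᵥ (xs w + y • us w) := fun w => by
    rw [dot_sum]
    change grad F p ⬝ᵥ _ + (y • grad F p) ⬝ᵥ _ = _
    simp
  refine ⟨cur_of_hyp (N := Sum.elim (grad F p) (y • grad F p))
    (fun e => hj (congrFun e (Sum.inl j))) (fun D => ?_) fun w hw => ?_,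
    by rw [pt_edg]; exact (gen_pt hl hF.irr hy).1, by rw [pt_edg]; exact h1⟩
  · have h2 := dv_pt D (edg p v y) y
    have h3 := grad_dv (θ := D) hy
    rw [pt_edg] at h2
    rw [h2, dotProduct_add, dotProduct_smul] at h3
    rw [e]
    simpa [show grad F p ⬝ᵥ us (edg p v y) = 0 from h1] using h3
  · rw [e] at hw
    let s := -(hs F p v (xs w + y • us w) + grad F p ⬝ᵥ us w) / hs F p v v
    obtain ⟨D, d1, d2, d3⟩ := prj_free hl hF.irr hy hj (xs w + y • us w + s • v) (us w) s
      (by rw [dotProduct_add, hw, dotProduct_smul, h1]; simp) (by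
        rw [hs_add, hs_smul, div_mul_cancel₀ _ h0]; ring)
    refine ⟨D, funext fun i => ?_⟩
    rcases i with i | i
    · have e1 := congrFun d1 i
      have e2 := congrFun d2 i
      simp only [dv] at e1 e2
      simp only [dv, Sum.elim_inl, Pi.sub_apply, Pi.smul_apply, smul_eq_mul, map_sub,
        Derivation.leibniz]
      rw [e1, e2, d3]
      simp only [Pi.add_apply, Pi.smul_apply, smul_eq_mul]
      ring
    · exact congrFun d2 i

variable [IsAlgClosed Ω]

lemma exists_root (hl : Gen C l) (h0 : F ≠ 0) (hd : 2 ≤ F.totalDegree) :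
    ∃ y, aeval (pt l y) F = 0 := by
  obtain ⟨y, hy⟩ := IsAlgClosed.exists_root (line F (xs l) (us l)) fun e => by
    have := Polynomial.natDegree_eq_of_degree_eq_some (n := 0) e
    rw [deg_line (gen_top hl h0)] at this
    omega
  exact ⟨y, (eval_line _ _ _ _).symm.trans hy⟩

lemma exists_tg (hl : Gen C l) (hF : AP Ω F) (hd : 2 ≤ F.totalDegree) :
    ∃ (k : ι ⊕ ι → Ω) (t : Ω), Tg F k t := by
  obtain ⟨y, hy⟩ := exists_root hl hF.irr.ne_zero hd
  obtain ⟨j, hj⟩ := Function.ne_iff.1 ((gen_pt hl hF.irr hy).1.ne hF.irr.ne_zero)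
  exact ⟨_, _, tg_prj hl hF hd hy hj⟩

/-- A point, a parameter and a direction. -/
abbrev tri (p u : ι → Ω) (t : Ω) : ι ⊕ Option ι → Ω := Sum.elim p fun o => o.elim t u

/-- All tangent configurations are specializations of a generic one. -/
lemma Tg.tid (h : Tg F k t) (hF : F ≠ 0) (hp : Gp F p) (hu : grad F p ⬝ᵥ u = 0) (y : Ω)
    {G : MvPolynomial (ι ⊕ Option ι) C} (hG : aeval (tri (pt k t) (us k) t) G = 0) :
    aeval (tri p u y) G = 0 := by
  have hn := h.gp.ne hF
  have e : ∀ (p u : ι → Ω) (t : Ω), aeval (tri p u t) (∑ o : Option ι,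
      rename Sum.inl (o.elim 0 fun i => pderiv i F) * X (Sum.inr o)) = grad F p ⬝ᵥ u :=
    fun p u t => by simp [aeval_rename, grad, dotProduct, Function.comp_def]
  refine spz (π := ∑ o : Option ι, rename Sum.inl (o.elim 0 fun i => pderiv i F) * X (Sum.inr o))
    (N := fun o => o.elim 0 (grad F (pt k t))) (fun G => (hp G).trans (h.gp G).symm) ?_
    ((e _ _ _).trans h.nu) ((e _ _ _).trans hu)
    (fun e => hn (funext fun i => congrFun e (some i))) (fun w hw => ?_) hG
  · have := H65.lin_prime (m := fun o : Option ι =>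
      aeval (inL (C := C) (pt k t)) (o.elim 0 fun i => pderiv i F)) fun e => hn (funext fun i =>
        (coe_inL _ _).symm.trans (congrArg Subtype.val (congrFun e (some i))))
    rw [map_sum, Finset.sum_congr rfl fun o _ => by
      rw [map_mul, res_inl, show res (pt k t) (X (Sum.inr o)) = X o by simp [res]]]
    exact this.irreducible
  · have h1 : grad F (pt k t) ⬝ᵥ (fun i => w (some i)) = 0 := by
      simpa [dotProduct] using hw
    obtain ⟨D, d1, d2⟩ := h.der hF (-(t • fun i => w (some i)) - w none • us k)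
      (fun i => w (some i)) (by simp [h.nu])
    have h2 : dv D (pt k t) = (D t - w none) • us k := by
      rw [dv_pt, d1, d2]; module
    have h3 := der_nu h.nu D
    rw [h2, d2, h1, add_zero, hs_smul, mul_eq_zero, or_iff_left (h.hs_ne hF)] at h3
    refine ⟨D, by simpa [h3] using h2, funext fun o => ?_⟩
    rcases o with _ | i
    · exact sub_eq_zero.1 h3
    · exact congrFun d2 i

/-- Functions of edges as functions of configurations. -/
noncomputable def pull : MvPolynomial (ι ⊕ ι) C →ₐ[C] MvPolynomial (ι ⊕ Option ι) C :=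
  aeval (Sum.elim (fun i => X (Sum.inl i) - X (Sum.inr none) * X (Sum.inr (some i)))
    fun i => X (Sum.inr (some i)))

omit [CharZero Ω] [IsAlgClosed Ω] [Fintype ι] [DecidableEq ι] in
lemma aeval_pull (p u : ι → Ω) (t : Ω) (G : MvPolynomial (ι ⊕ ι) C) :
    aeval (tri p u t) (pull G) = ev (edg p u t) G := by
  rw [pull, comp_aeval_apply, ev]
  congr 2
  ext (i | i) <;> simp

lemma Tg.tid' {k' : ι ⊕ ι → Ω} (h : Tg F k t) (hF : F ≠ 0) (h' : Tg F k' y)
    {G : MvPolynomial (ι ⊕ ι) C} (hG : ev k G = 0) : ev k' G = 0 := by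
  rw [← edg_pt k' y, ← aeval_pull]
  exact h.tid hF h'.gp h'.nu y (by rw [aeval_pull, edg_pt, hG])

/-- Two points of a generic edge and their parameters. -/
lemma pair (hl : Gen C l) (hl' : Gen C l') (hF : AP Ω F) {a b a' b' : Ω} (hab : a ≠ b)
    (ha : aeval (pt l a) F = 0) (hb : aeval (pt l b) F = 0) (ha' : aeval (pt l' a') F = 0)
    (hb' : aeval (pt l' b') F = 0) {G : MvPolynomial (ι ⊕ Fin 2 ⊕ ι) C}
    (hG : aeval (Sum.elim (pt l a) (Sum.elim ![a, b] (pt l b))) G = 0) :
    aeval (Sum.elim (pt l' a') (Sum.elim ![a', b'] (pt l' b'))) G = 0 := by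
  obtain ⟨p1, p2⟩ := gen_pt hl hF.irr hb
  refine spz (π := rename Sum.inr (rename Sum.inr F)) (N := Sum.elim 0 (grad F (pt l b)))
    (fun G => ((gen_pt hl' hF.irr ha').1 G).trans ((gen_pt hl hF.irr ha).1 G).symm) ?_
    (by rw [aeval_rename, aeval_rename]; exact hb) (by rw [aeval_rename, aeval_rename]; exact hb')
    (fun e => p1.ne hF.irr.ne_zero (funext fun i => congrFun e (Sum.inr i))) (fun w hw => ?_) hG
  · rw [res_inr, map_rename, 
      ← MulEquiv.irreducible_iff (f := sumAlgEquiv (cl C (range (pt l a))) (Fin 2) ι)]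
    have := DFunLike.congr_fun (sumAlgEquiv_comp_rename_inr (cl C (range (pt l a))) (Fin 2) ι)
      (MvPolynomial.map (algebraMap C _) F)
    exact this ▸ ((prime_C_iff (Fin 2)).2 (hF _).prime).irreducible
  · have h1 : grad F (pt l b) ⬝ᵥ (fun i => w (Sum.inr i)) = 0 := by
      simpa [dotProduct] using hw
    have h0 := sub_ne_zero.2 hab.symm
    obtain ⟨D, d1, d2, d3⟩ := gen_free hl hF.irr ha 0 ((b - a)⁻¹ • ((fun i => w (Sum.inr i)) -
      (w (Sum.inl 1) - w (Sum.inl 0)) • us l)) (w (Sum.inl 0)) (by simp)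
    have h2 : dv D (pt l b) = (fun i => w (Sum.inr i)) + (D b - w (Sum.inl 1)) • us l := by
      rw [show pt l b = pt l a + (b - a) • us l by module, dv_add, dv_smul, d1, d2, map_sub, d3,
        smul_inv_smul₀ h0]
      module
    have h3 := grad_dv (θ := D) hb
    rw [h2, dotProduct_add, h1, zero_add, dotProduct_smul, smul_eq_mul, mul_eq_zero,
      or_iff_left p2] at h3
    refine ⟨D, d1, funext fun o => ?_⟩
    rcases o with i | i
    · fin_cases i
      · exact d3
      · exact sub_eq_zero.1 h3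
    · rw [h3, zero_smul, add_zero] at h2
      exact congrFun h2 i

/-- Double transitivity. -/
lemma two (hl : Gen C l) (hF : AP Ω F) {a b a' b' : Ω} (hab : a ≠ b) (hab' : a' ≠ b')
    (ha : aeval (pt l a) F = 0) (hb : aeval (pt l b) F = 0) (ha' : aeval (pt l a') F = 0)
    (hb' : aeval (pt l b') F = 0) : ∃ g ∈ FL C l, g a = a' ∧ g b = b' := by
  obtain ⟨g, hg⟩ := H96A.Bt.conj_fam (C := C) _ _ fun G =>
    ⟨pair hl hl hF hab ha hb ha' hb', pair hl hl hF hab' ha' hb' ha hb⟩
  have e1 : g a = a' := hg (Sum.inr (Sum.inl 0))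
  have e2 : g b = b' := hg (Sum.inr (Sum.inl 1))
  have e3 : ∀ i, g (l (.inl i) + a * l (.inr i)) = l (.inl i) + a' * l (.inr i) :=
    fun i => hg (Sum.inl i)
  have e4 : ∀ i, g (l (.inl i) + b * l (.inr i)) = l (.inl i) + b' * l (.inr i) :=
    fun i => hg (Sum.inr (Sum.inr i))
  simp only [map_add, map_mul, e1, e2] at e3 e4
  have e5 : ∀ i, g (l (.inr i)) = l (.inr i) := fun i =>
    mul_left_cancel₀ (sub_ne_zero.2 hab') (by linear_combination e3 i - e4 i)
  refine ⟨g, ?_, e1, e2⟩
  rintro _ ⟨i | i, rfl⟩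
  · have := e3 i
    rw [e5] at this
    exact add_right_cancel this
  · exact e5 i

end Pool.Agent.MP_249f74_an.H2.Sc
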