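import Pool.Agent.MP_249f74_an.H74.Lin

/-!
The mirror equation in a space of covectors of dimension at least four forces confocal quadrics.
-/

open Matrix

namespace Pool.Agent.MP_249f74_an.H2.Db

open H17 (Der)
open H96 (br_apply)
open H90 (dv dv_apply dv_dot dv_br dv_smul der_two)
open H74 (par1 exists_dot symm_dot const_of_kil dv_mulVec eq_zero_of_dot)

variable {C Ω α : Type} [Field C] [Field Ω] [Algebra C Ω] [Fintype α]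

lemma dv_mv (G : Matrix α α Ω) (b : α → Ω) (D : Der C Ω) :
    dv (G *ᵥ b) D = G.map D *ᵥ b + G *ᵥ dv b D := by
  ext i
  exact dv_dot (G i) b D

lemma der_bf (G : Matrix α α Ω) (a b : α → Ω) (D : Der C Ω) :
    D (a ⬝ᵥ G *ᵥ b) = dv a D ⬝ᵥ G *ᵥ b + a ⬝ᵥ G.map D *ᵥ b + a ⬝ᵥ G *ᵥ dv b D := by
  rw [dv_dot, dv_mv, dotProduct_add, add_assoc]

omit [Fintype α] in
lemma map_br (G : Matrix α α Ω) (D φ : Der C Ω) :
    G.map ⇑(⁅D, φ⁆ : Der C Ω) = (G.map φ).map D - (G.map D).map φ := by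
  ext i j
  exact br_apply D φ _

variable (C) in
/-- A symmetric matrix which represents the differential of `ν` as a function of `T`. -/
structure Fr (T ν : α → Ω) (G : Matrix α α Ω) : Prop where
  tn : T ⬝ᵥ ν = 0
  w : ∀ D : Der C Ω, dv T D ⬝ᵥ ν = 0
  sur : ∀ η, η ⬝ᵥ ν = 0 → ∃ D : Der C Ω, dv T D = η
  symm : G.IsSymm
  gt : G *ᵥ T = ν
  gd : ∀ D : Der C Ω, G *ᵥ dv T D = dv ν D

variable {T ν H X y a b d : α → Ω} {G : Matrix α α Ω} {D : Der C Ω}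

lemma Fr.sw (h : Fr C T ν G) (D φ : Der C Ω) : G.map D *ᵥ dv T φ = G.map φ *ᵥ dv T D := by
  have h1 := dv_mv G (dv T φ) D
  have h2 := dv_mv G (dv T D) φ
  have h3 := h.gd ⁅D, φ⁆
  rw [dv_br, dv_br, mulVec_sub] at h3
  rw [h.gd] at h1 h2
  linear_combination h2 - h1 - h3

lemma Fr.mt (h : Fr C T ν G) (D : Der C Ω) : G.map D *ᵥ T = 0 := by
  have h1 := dv_mv G T D
  rw [h.gt, h.gd] at h1
  linear_combination -h1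

lemma Fr.k0 (h : Fr C T ν G) (hD : dv T D = 0) (ha : a ⬝ᵥ ν = 0) : G.map D *ᵥ a = 0 := by
  obtain ⟨φ, rfl⟩ := h.sur a ha
  rw [h.sw, hD, mulVec_zero]

lemma Fr.kw (h : Fr C T ν G) (hD : dv T D = 0) (ha : a ⬝ᵥ ν = 0) : dv a D ⬝ᵥ ν = 0 := by
  have := dv_dot a ν D
  rwa [ha, map_zero, ← h.gd, hD, mulVec_zero, dotProduct_zero, add_zero, eq_comm] at this

lemma Fr.gD (h : Fr C T ν G) (hD : dv T D = 0) (a : α → Ω) (hb : b ⬝ᵥ ν = 0) :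
    D (a ⬝ᵥ G *ᵥ b) = dv a D ⬝ᵥ G *ᵥ b + a ⬝ᵥ G *ᵥ dv b D := by
  rw [der_bf, h.k0 hD hb, dotProduct_zero, add_zero]

/-- The cubic form. -/
lemma Fr.cub (h : Fr C T ν G) : ∃ c : (α → Ω) → (α → Ω) → (α → Ω) → Ω,
    (∀ (φ : Der C Ω) b d, d ⬝ᵥ ν = 0 → c (dv T φ) b d = b ⬝ᵥ G.map φ *ᵥ d) ∧
    (∀ a b d, c a b d = c a d b) ∧
    (∀ a b d, a ⬝ᵥ ν = 0 → b ⬝ᵥ ν = 0 → c a b d = c b a d) ∧
    (∀ a b d (s : Ω), c a b (d + s • T) = c a b d) ∧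
    ∀ D : Der C Ω, dv T D = 0 → ∀ a b d, a ⬝ᵥ ν = 0 → b ⬝ᵥ ν = 0 → d ⬝ᵥ ν = 0 →
      D (c a b d) = c (dv a D) b d + c a (dv b D) d + c a b (dv d D) := by
  choose! th ht using h.sur
  have c0 : ∀ (φ : Der C Ω) d, d ⬝ᵥ ν = 0 → G.map (th (dv T φ)) *ᵥ d = G.map φ *ᵥ d :=
    fun φ d hd => by rw [← ht d hd, h.sw, ht _ (h.w φ), h.sw]
  refine ⟨fun a b d => b ⬝ᵥ G.map (th a) *ᵥ d, fun φ b d hd => congrArg _ (c0 φ d hd),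
    fun a b d => symm_dot (h.symm.map _) b d, fun a b d ha hb => ?_, fun a b d s => ?_,
    fun D hD a b d ha hb hd => ?_⟩
  · have := h.sw (th a) (th b)
    rw [ht a ha, ht b hb] at this
    beta_reduce
    rw [symm_dot (h.symm.map _), this, symm_dot (h.symm.map _)]
  · simp only [mulVec_add, mulVec_smul, h.mt, smul_zero, add_zero]
  · have e1 : dv a D = dv T ⁅D, th a⁆ := by rw [dv_br, ht a ha, hD, H90.dv_zero, sub_zero]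
    have e2 := congrArg (fun v => b ⬝ᵥ dv v (th a)) (h.k0 hD hd)
    simp only [dv_mv, H90.dv_zero, dotProduct_zero, dotProduct_add] at e2
    rw [symm_dot (h.symm.map D), h.k0 hD hb, dotProduct_zero, add_zero] at e2
    beta_reduce
    rw [der_bf, e1, c0 _ d hd, map_br, sub_mulVec, dotProduct_sub, e2]
    ring

/-- Polarisation: the cubic form vanishes. -/
lemma Fr.pol [CharZero Ω] (h : Fr C T ν G) {β : Ω} (hn : H ⬝ᵥ ν = 0) (e2 : H ⬝ᵥ G *ᵥ H ≠ 0)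
    (hX : X ⬝ᵥ ν = 0) (x1 : H ⬝ᵥ G *ᵥ X = 0) (x2 : X ⬝ᵥ G *ᵥ X ≠ 0)
    (gen : ∀ z, z ⬝ᵥ ν = 0 → ∃ (D : Der C Ω) (s : Ω), dv T D = 0 ∧ dv H D = z + s • T)
    (h1 : ∀ D : Der C Ω, H ⬝ᵥ G.map D *ᵥ H = β * H ⬝ᵥ G *ᵥ dv T D) :
    β = 0 ∧ ∀ (D : Der C Ω) a b, a ⬝ᵥ ν = 0 → b ⬝ᵥ ν = 0 → a ⬝ᵥ G.map D *ᵥ b = 0 := by
  obtain ⟨c, c0, c23, c12, cT, cD⟩ := h.cub
  have sy := symm_dot h.symm
  have s1 : ∀ a, a ⬝ᵥ ν = 0 → c a H H = β * H ⬝ᵥ G *ᵥ a := fun a ha => by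
    obtain ⟨φ, rfl⟩ := h.sur a ha
    rw [c0 φ H H hn, h1]
  have g2 : ∀ z, z ⬝ᵥ ν = 0 → ∃ D : Der C Ω, dv T D = 0 ∧ (∀ a b, c a b (dv H D) = c a b z) ∧
      (∀ a, a ⬝ᵥ ν = 0 → a ⬝ᵥ G *ᵥ dv H D = a ⬝ᵥ G *ᵥ z) ∧
      (∀ a, a ⬝ᵥ ν = 0 → dv H D ⬝ᵥ G *ᵥ a = a ⬝ᵥ G *ᵥ z) ∧
      H ⬝ᵥ G *ᵥ H * D β = β * H ⬝ᵥ G *ᵥ z ∧
      ∀ a, a ⬝ᵥ ν = 0 → 2 * c a z H = D β * H ⬝ᵥ G *ᵥ a + β * a ⬝ᵥ G *ᵥ z := fun z hz => by
    obtain ⟨D, s, hD, e⟩ := gen z hz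
    have a1 : ∀ a b, c a b (dv H D) = c a b z := fun a b => by rw [e, cT]
    have a2 : ∀ a, a ⬝ᵥ ν = 0 → a ⬝ᵥ G *ᵥ dv H D = a ⬝ᵥ G *ᵥ z := fun a ha => by
      rw [e, mulVec_add, mulVec_smul, h.gt, dotProduct_add, dotProduct_smul, ha, smul_zero,
        add_zero]
    have a3 : ∀ a, a ⬝ᵥ ν = 0 → dv H D ⬝ᵥ G *ᵥ a = a ⬝ᵥ G *ᵥ z := fun a ha => by rw [sy, a2 a ha]
    have a4 : ∀ a, a ⬝ᵥ ν = 0 → 2 * c a z H = D β * H ⬝ᵥ G *ᵥ a + β * a ⬝ᵥ G *ᵥ z := fun a ha => by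
      have := congrArg D (s1 a ha)
      rw [cD D hD a H H ha hn hn, D.leibniz, h.gD hD H ha, s1 _ (h.kw hD ha), c23 a (dv H D), a1,
        a3 a ha, c23 a H, smul_eq_mul, smul_eq_mul] at this
      linear_combination this
    refine ⟨D, hD, a1, a2, a3, ?_, a4⟩
    have := a4 H hn
    rw [c12 H z H hn hz, s1 z hz] at this
    linear_combination -this
  have s2 : ∀ a z, a ⬝ᵥ ν = 0 → z ⬝ᵥ ν = 0 → 2 * H ⬝ᵥ G *ᵥ H * c a z H =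
      β * (H ⬝ᵥ G *ᵥ a * H ⬝ᵥ G *ᵥ z + H ⬝ᵥ G *ᵥ H * a ⬝ᵥ G *ᵥ z) := fun a z ha hz => by
    obtain ⟨D, -, -, -, -, a5, a4⟩ := g2 z hz
    linear_combination H ⬝ᵥ G *ᵥ H * a4 a ha + H ⬝ᵥ G *ᵥ a * a5
  have s3 : ∀ a z w, a ⬝ᵥ ν = 0 → z ⬝ᵥ ν = 0 → w ⬝ᵥ ν = 0 →
      2 * (H ⬝ᵥ G *ᵥ H * H ⬝ᵥ G *ᵥ H * c a z w) = β * (H ⬝ᵥ G *ᵥ H * (a ⬝ᵥ G *ᵥ z * H ⬝ᵥ G *ᵥ w +
        z ⬝ᵥ G *ᵥ w * H ⬝ᵥ G *ᵥ a + a ⬝ᵥ G *ᵥ w * H ⬝ᵥ G *ᵥ z) -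
        H ⬝ᵥ G *ᵥ a * H ⬝ᵥ G *ᵥ z * H ⬝ᵥ G *ᵥ w) := fun a z w ha hz hw => by
    obtain ⟨D, hD, a1, a2, a3, a5, -⟩ := g2 w hw
    have := congrArg D (s2 a z ha hz)
    simp only [D.leibniz, map_add, smul_eq_mul, der_two, cD D hD a z H ha hz hn, h.gD hD H hn,
      h.gD hD H ha, h.gD hD H hz, h.gD hD a hz, a1, a2 H hn, a3 H hn, a3 a ha, a3 z hz] at this
    linear_combination H ⬝ᵥ G *ᵥ H * this - H ⬝ᵥ G *ᵥ H * s2 _ z (h.kw hD ha) hz -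
      H ⬝ᵥ G *ᵥ H * s2 a _ ha (h.kw hD hz) - 2 * H ⬝ᵥ G *ᵥ w * s2 a z ha hz +
      (H ⬝ᵥ G *ᵥ a * H ⬝ᵥ G *ᵥ z + H ⬝ᵥ G *ᵥ H * a ⬝ᵥ G *ᵥ z) * a5
  have b0 : β = 0 := by
    obtain ⟨D, hD, -, a2, a3, -⟩ := g2 X hX
    have hd := h.kw hD hX
    have := congrArg D (s3 X X X hX hX hX)
    simp only [D.leibniz, map_add, map_sub, smul_eq_mul, der_two, cD D hD X X X hX hX hX,
      h.gD hD H hn, h.gD hD H hX, a2 H hn, a3 H hn, a3 X hX, c23 X X (dv X D),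
      c12 X (dv X D) X hX hd] at this
    have h3 := s3 _ X X hd hX hX
    rw [x1] at h3 this
    have : β * (H ⬝ᵥ G *ᵥ H * (X ⬝ᵥ G *ᵥ X * X ⬝ᵥ G *ᵥ X)) = 0 := by
      linear_combination (-1 / 3 : Ω) * this + h3
    simpa [e2, x2] using this
  refine ⟨b0, fun D a b ha hb => ?_⟩
  have := s3 _ a b (h.w D) ha hb
  rw [b0, zero_mul, c0 D a b hb] at this
  simpa [e2] using this

/-- A matrix whose derivatives vanish on the hyperplane can be corrected to a constant one. -/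
lemma Fr.fub [CharZero Ω] (h : Fr C T ν G) (n0 : ν ≠ 0) (hn : H ⬝ᵥ ν = 0) (e2 : H ⬝ᵥ G *ᵥ H ≠ 0)
    (hX : X ⬝ᵥ ν = 0) (x1 : H ⬝ᵥ G *ᵥ X = 0) (x2 : X ⬝ᵥ G *ᵥ X ≠ 0)
    (hc : ∀ (D : Der C Ω) a b, a ⬝ᵥ ν = 0 → b ⬝ᵥ ν = 0 → a ⬝ᵥ G.map D *ᵥ b = 0) :
    ∃ μ : Ω, ∀ D : Der C Ω, (G - μ • vecMulVec ν ν).map D = 0 := by
  classical
  obtain ⟨v, hv⟩ := exists_dot n0
  rw [dotProduct_comm] at hv
  have sy := symm_dot h.symm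
  have o1 : ∀ (D : Der C Ω) b, b ⬝ᵥ ν = 0 → G.map D *ᵥ b = (v ⬝ᵥ G.map D *ᵥ b) • ν :=
    fun D b hb => by
      obtain ⟨s, hs⟩ := par1 (T := ν) (K := G.map D *ᵥ b) fun w hw => by
        rw [dotProduct_comm] at hw ⊢; exact hc D w b hw hb
      rw [hs, dotProduct_smul, hv, smul_eq_mul, mul_one]
  have dw : ∀ (D : Der C Ω) a, a ⬝ᵥ ν = 0 → dv a D ⬝ᵥ ν = -(a ⬝ᵥ G *ᵥ dv T D) := fun D a ha => by
    have := dv_dot a ν D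
    rw [ha, map_zero, ← h.gd] at this
    linear_combination -this
  have o2 : ∀ (D φ : Der C Ω) a b, a ⬝ᵥ ν = 0 → b ⬝ᵥ ν = 0 → a ⬝ᵥ (G.map φ).map D *ᵥ b =
      v ⬝ᵥ G.map φ *ᵥ b * a ⬝ᵥ G *ᵥ dv T D + v ⬝ᵥ G.map φ *ᵥ a * b ⬝ᵥ G *ᵥ dv T D :=
    fun D φ a b ha hb => by
      have := der_bf (G.map φ) a b D
      rw [hc φ a b ha hb, map_zero, symm_dot (h.symm.map φ) a, o1 φ a ha, o1 φ b hb,
        dotProduct_smul, dotProduct_smul, dw D a ha, dw D b hb, smul_eq_mul, smul_eq_mul] at this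
      linear_combination -this
  obtain ⟨θ, hθ⟩ := h.sur H hn
  have o3 : ∀ (φ : Der C Ω) b, b ⬝ᵥ ν = 0 →
      v ⬝ᵥ G.map φ *ᵥ b * H ⬝ᵥ G *ᵥ H + v ⬝ᵥ G.map θ *ᵥ dv T φ * H ⬝ᵥ G *ᵥ b =
      v ⬝ᵥ G.map θ *ᵥ b * H ⬝ᵥ G *ᵥ dv T φ + v ⬝ᵥ G.map θ *ᵥ H * b ⬝ᵥ G *ᵥ dv T φ :=
    fun φ b hb => by
      have := hc ⁅θ, φ⁆ H b hn hb
      rw [map_br, sub_mulVec, dotProduct_sub, o2 θ φ H b hn hb, o2 φ θ H b hn hb, hθ, sy b H]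
        at this
      rw [h.sw θ φ, hθ]
      linear_combination this
  set μ := v ⬝ᵥ G.map θ *ᵥ H / H ⬝ᵥ G *ᵥ H with hμ
  have m0 : v ⬝ᵥ G.map θ *ᵥ H = μ * H ⬝ᵥ G *ᵥ H := (div_mul_cancel₀ _ e2).symm
  have o4 : ∀ b, b ⬝ᵥ ν = 0 → v ⬝ᵥ G.map θ *ᵥ b = μ * H ⬝ᵥ G *ᵥ b := fun b hb => by
    obtain ⟨φ, rfl⟩ := h.sur b hb
    have := o3 φ H hn
    have e := h.sw θ φ
    rw [hθ] at e
    rw [← e, m0] at this
    exact mul_right_cancel₀ e2 (by linear_combination (1 / 2 : Ω) * this)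
  have o5 : ∀ (φ : Der C Ω) b, b ⬝ᵥ ν = 0 → v ⬝ᵥ G.map φ *ᵥ b = μ * b ⬝ᵥ G *ᵥ dv T φ :=
    fun φ b hb => mul_right_cancel₀ e2 (by
      have := o3 φ b hb
      rw [o4 b hb, o4 _ (h.w φ), m0] at this
      linear_combination this)
  refine ⟨μ, ?_⟩
  set A := G - μ • vecMulVec ν ν with hA
  have As : A.IsSymm := h.symm.sub (IsSymm.smul (by ext i j; simp [vecMulVec_apply, mul_comm]) μ)
  have A0 : ∀ b, A *ᵥ b = G *ᵥ b - (μ * b ⬝ᵥ ν) • ν := fun b => by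
    rw [hA, sub_mulVec, smul_mulVec, vecMulVec_mulVec, dotProduct_comm]
    simp [smul_smul]
  have A1 : ∀ (φ : Der C Ω) b, b ⬝ᵥ ν = 0 → A.map φ *ᵥ b = 0 := fun φ b hb => by
    have := dv_mv A b φ
    rw [A0, A0, hb, mul_zero, zero_smul, sub_zero, dv_mv, dw φ b hb, o1 φ b hb, o5 φ b hb] at this
    linear_combination (norm := module) -this
  have A2 : ∀ (φ : Der C Ω) b, A.map φ *ᵥ b = (b ⬝ᵥ ν) • A.map φ *ᵥ v := fun φ b => by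
    have := A1 φ (b - (b ⬝ᵥ ν) • v) (by simp [hv])
    rwa [mulVec_sub, mulVec_smul, sub_eq_zero] at this
  have A3 : ∀ (D φ : Der C Ω) b, b ⬝ᵥ ν = 0 →
      (A.map φ).map D *ᵥ b = (b ⬝ᵥ G *ᵥ dv T D) • A.map φ *ᵥ v := fun D φ b hb => by
    have := dv_mv (A.map φ) b D
    rw [A1 φ b hb, H90.dv_zero, A2 φ (dv b D), dw D b hb] at this
    linear_combination (norm := module) -this
  have A4 : ∀ (D φ : Der C Ω) b, b ⬝ᵥ ν = 0 →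
      (b ⬝ᵥ G *ᵥ dv T D) • A.map φ *ᵥ v = (b ⬝ᵥ G *ᵥ dv T φ) • A.map D *ᵥ v := fun D φ b hb => by
    have := A1 ⁅D, φ⁆ b hb
    rwa [map_br, sub_mulVec, A3 D φ b hb, A3 φ D b hb, sub_eq_zero] at this
  obtain ⟨ψ, hψ⟩ := h.sur X hX
  have A5 : A.map θ *ᵥ v = 0 := by
    have := A4 ψ θ X hX
    rw [hψ, hθ, sy X H, x1, zero_smul] at this
    exact (smul_eq_zero.1 this).resolve_left x2
  intro φ
  have A6 : A.map φ *ᵥ v = 0 := by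
    have := A4 θ φ H hn
    rw [hθ, A5, smul_zero] at this
    exact (smul_eq_zero.1 this).resolve_left e2
  ext i j
  have := congrFun (A2 φ (Pi.single j 1)) i
  rw [A6, smul_zero, mulVec_single_one] at this
  exact this

/-- A non isotropic covector orthogonal to `H`. -/
lemma Fr.exX [CharZero Ω] (h : Fr C T ν G) (h4 : 4 ≤ Fintype.card α) (hn : H ⬝ᵥ ν = 0)
    (e2 : H ⬝ᵥ G *ᵥ H ≠ 0) (ty : T ⬝ᵥ y ≠ 0)
    (nd : ∀ ξ, ξ ⬝ᵥ ν = 0 → (∀ D : Der C Ω, ξ ⬝ᵥ dv ν D = 0) → ∃ s : Ω, ξ = s • T) :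
    ∃ X, X ⬝ᵥ ν = 0 ∧ H ⬝ᵥ G *ᵥ X = 0 ∧ X ⬝ᵥ G *ᵥ X ≠ 0 := by
  by_contra! hc
  have sy := symm_dot h.symm
  obtain ⟨X, hX, x0⟩ := (Submodule.ne_bot_iff _).1 (LinearMap.ker_ne_bot_of_finrank_lt
    (f := (Matrix.of ![ν, G *ᵥ H, y]).mulVecLin) (by simp; omega))
  have x1 : X ⬝ᵥ ν = 0 := (dotProduct_comm _ _).trans (congrFun hX 0)
  have x2 : H ⬝ᵥ G *ᵥ X = 0 := ((sy H X).trans (dotProduct_comm _ _)).trans (congrFun hX 1)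
  have x3 : X ⬝ᵥ y = 0 := (dotProduct_comm _ _).trans (congrFun hX 2)
  obtain ⟨s, rfl⟩ := nd X x1 fun D => by
    rw [← h.gd]
    generalize hz : dv T D - (H ⬝ᵥ G *ᵥ dv T D / H ⬝ᵥ G *ᵥ H) • H = z
    have z1 : z ⬝ᵥ ν = 0 := by simp [← hz, h.w, hn]
    have z2 : H ⬝ᵥ G *ᵥ z = 0 := by simp [← hz, mulVec_sub, mulVec_smul, e2]
    have := hc (X + z) (by simp [x1, z1]) (by simp [mulVec_add, x2, z2])
    rw [mulVec_add, add_dotProduct, dotProduct_add, dotProduct_add, hc X x1 x2, hc z z1 z2,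
      sy z X] at this
    rw [eq_add_of_sub_eq hz, mulVec_add, mulVec_smul, dotProduct_add, dotProduct_smul, sy X H, x2]
    linear_combination (1 / 2 : Ω) * this
  rw [smul_dotProduct, smul_eq_mul, mul_eq_zero, or_iff_left ty] at x3
  exact x0 (by rw [x3, zero_smul])

/-- The construction of the matrix. -/
lemma exG (n0 : ν ≠ 0) (tn : T ⬝ᵥ ν = 0) (w : ∀ D : Der C Ω, dv T D ⬝ᵥ ν = 0)
    (sur : ∀ η, η ⬝ᵥ ν = 0 → ∃ D : Der C Ω, dv T D = η)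
    (sy : ∀ D φ : Der C Ω, dv T φ ⬝ᵥ dv ν D = dv T D ⬝ᵥ dv ν φ)
    (hN : ∀ (D : Der C Ω) (t : Ω), dv T D = t • T → dv ν D = t • ν) : ∃ G, Fr C T ν G := by
  classical
  obtain ⟨v, hv⟩ := exists_dot n0
  rw [dotProduct_comm] at hv
  choose th ht using fun i => sur (Pi.single i 1 - ν i • v) (by simp [hv])
  let G : Matrix α α Ω := Matrix.of fun i j => th j (ν i) + ν j * v ⬝ᵥ dv ν (th i)
  have gd : ∀ D : Der C Ω, G *ᵥ dv T D = dv ν D := fun D => by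
    have h1 := hN (D - ∑ j, D (T j) • th j) 0 (by
      rw [map_sub, map_sum, zero_smul, sub_eq_zero]
      simp only [map_smul, ht, smul_sub, Finset.sum_sub_distrib, smul_smul, ← Finset.sum_smul]
      rw [show ∑ j, D (T j) * ν j = 0 from w D, zero_smul, sub_zero]
      ext i
      simp [Pi.single_apply])
    rw [map_sub, map_sum, zero_smul, sub_eq_zero] at h1
    ext i
    have h2 : ∑ j, D (T j) * ν j * v ⬝ᵥ dv ν (th i) = 0 := by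
      rw [← Finset.sum_mul, show ∑ j, D (T j) * ν j = 0 from w D, zero_mul]
    rw [h1, Finset.sum_apply, ← add_zero (Finset.sum _ _), ← h2, ← Finset.sum_add_distrib]
    exact Finset.sum_congr rfl fun j _ => by simp [G]; ring
  refine ⟨G, tn, w, sur, IsSymm.ext fun i j => ?_, ?_, gd⟩
  · have := sy (th i) (th j)
    rw [ht, ht] at this
    simp only [sub_dotProduct, single_dotProduct, one_mul, smul_dotProduct, smul_eq_mul,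
      dv_apply] at this
    simp only [G, of_apply]
    linear_combination this
  · obtain ⟨D, hD⟩ := sur T tn
    rw [← one_smul Ω ν, ← hN D 1 (by rw [hD, one_smul]), ← gd, hD]

/-- The mirror equation in dimension at least four. -/
theorem db4 [DecidableEq α] [IsAlgClosed C] [CharZero Ω] (h4 : 4 ≤ Fintype.card α)
    (e : Matrix α α C) (he : e.IsSymm) (T H ν y : α → Ω) (nu0 : ν ≠ 0) (tn : T ⬝ᵥ ν = 0)
    (tan : ∀ D : Der C Ω, T ⬝ᵥ dv ν D = 0)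
    (nd : ∀ ξ, ξ ⬝ᵥ ν = 0 → (∀ D : Der C Ω, ξ ⬝ᵥ dv ν D = 0) → ∃ s : Ω, ξ = s • T)
    (sur : ∀ η, η ⬝ᵥ ν = 0 → ∃ D : Der C Ω, dv T D = η) (hn : H ⬝ᵥ ν = 0) (hy : H ⬝ᵥ y = 0)
    (dy : ∀ D : Der C Ω, dv H D ⬝ᵥ y = 0)
    (bi : ∀ D : Der C Ω, (H ⬝ᵥ e.map (algebraMap C Ω) *ᵥ T) * (dv T D ⬝ᵥ y) =
      (T ⬝ᵥ y) * (H ⬝ᵥ e.map (algebraMap C Ω) *ᵥ dv T D - H ⬝ᵥ dv ν D))
    (e1 : H ⬝ᵥ e.map (algebraMap C Ω) *ᵥ T ≠ 0) (e2 : H ⬝ᵥ e.map (algebraMap C Ω) *ᵥ H ≠ 0)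
    (ty : T ⬝ᵥ y ≠ 0)
    (gen : ∀ z, z ⬝ᵥ ν = 0 → z ⬝ᵥ y = 0 → ∃ D : Der C Ω, dv T D = 0 ∧ dv H D = z) :
    ∃ a : Matrix α α C, a.IsSymm ∧ a.map (algebraMap C Ω) *ᵥ T = ν ∧
      ∃ s : Ω, s ≠ 0 ∧ (a.map (algebraMap C Ω) - e.map (algebraMap C Ω)) *ᵥ H = s • y := by
  set E := e.map (algebraMap C Ω) with hE
  have se := symm_dot (show E.IsSymm from he.map _)
  have de : ∀ D : Der C Ω, D (H ⬝ᵥ E *ᵥ H) = 2 * H ⬝ᵥ E *ᵥ dv H D := fun D => by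
    rw [dv_dot, hE, dv_mulVec, ← hE, se (dv H D), two_mul]
  have w : ∀ D : Der C Ω, dv T D ⬝ᵥ ν = 0 := fun D => by
    have := dv_dot T ν D
    rwa [tn, tan, map_zero, add_zero, eq_comm] at this
  have sy : ∀ D φ : Der C Ω, dv T φ ⬝ᵥ dv ν D = dv T D ⬝ᵥ dv ν φ := fun D φ => by
    have h1 := dv_dot T (dv ν D) φ
    have h2 := dv_dot T (dv ν φ) D
    have h3 := tan ⁅D, φ⁆
    rw [dv_br, dotProduct_sub] at h3
    rw [tan, map_zero] at h1 h2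
    linear_combination h2 - h1 + h3
  have b0 : ∀ D : Der C Ω, dv T D ⬝ᵥ y = 0 → H ⬝ᵥ dv ν D = H ⬝ᵥ E *ᵥ dv T D := fun D h => by
    have := bi D
    rw [h, mul_zero, eq_comm, mul_eq_zero, or_iff_right ty, sub_eq_zero] at this
    exact this.symm
  obtain ⟨θ, hθ⟩ := sur H hn
  have b1 : H ⬝ᵥ dv ν θ = H ⬝ᵥ E *ᵥ H := by rw [b0 θ (by rw [hθ, hy]), hθ]
  have hN : ∀ (D : Der C Ω) (t : Ω), dv T D = t • T → dv ν D = t • ν := fun D t hD => by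
    obtain ⟨s, hs⟩ := par1 (T := ν) (K := dv ν D) fun z hz => by
      rw [dotProduct_comm] at hz ⊢
      obtain ⟨φ, rfl⟩ := sur z hz
      rw [sy, hD, smul_dotProduct, tan, smul_zero]
    have h1 := dv_dot H ν D
    rw [hn, map_zero, hs, dotProduct_smul, hn, smul_zero, add_zero] at h1
    obtain ⟨ψ, hψ⟩ := sur _ h1.symm
    have h2 := b0 ψ (by rw [hψ, dy])
    have h3 := sy ψ θ
    have h4 := sy ⁅D, θ⁆ θ
    have h5 := dv_dot H (dv ν θ) D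
    rw [hθ, hψ] at h3
    rw [hψ] at h2
    rw [dv_br, dv_br, hθ, hD, hs, dv_smul, dv_smul, hθ] at h4
    simp only [dotProduct_sub, dotProduct_add, sub_dotProduct, add_dotProduct, dotProduct_smul,
      smul_dotProduct, hn, tan, b1, smul_eq_mul] at h4
    rw [b1, de] at h5
    obtain rfl : s = t := mul_right_cancel₀ e2 (by linear_combination -h4 - h5 - 2 * h2 + 2 * h3)
    exact hs
  obtain ⟨G, h⟩ := exG nu0 tn w sur sy hN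
  have sg := symm_dot h.symm
  obtain ⟨β, hβ⟩ := par1 (T := ν) (K := G *ᵥ H - E *ᵥ H + (H ⬝ᵥ E *ᵥ T / T ⬝ᵥ y) • y)
    fun z hz => by
      rw [dotProduct_comm] at hz ⊢
      obtain ⟨φ, rfl⟩ := sur z hz
      have := bi φ
      rw [dotProduct_add, dotProduct_sub, sg, se, h.gd, dotProduct_smul, smul_eq_mul]
      field_simp
      linear_combination this
  have g1 : H ⬝ᵥ G *ᵥ H = H ⬝ᵥ E *ᵥ H := by
    have := h.gd θ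
    rw [hθ] at this
    rw [this, b1]
  have g2 : H ⬝ᵥ G *ᵥ H ≠ 0 := g1 ▸ e2
  obtain ⟨X, hX, x1, x2⟩ := h.exX h4 hn g2 ty nd
  obtain ⟨β0, hc⟩ := h.pol (β := 2 * β) hn g2 hX x1 x2 (fun z hz => by
    obtain ⟨D, h1, h2⟩ := gen (z + (-(z ⬝ᵥ y / T ⬝ᵥ y)) • T) (by simp [hz, tn]) (by simp [ty])
    exact ⟨D, _, h1, h2⟩) fun D => by
      have h1 := congrArg D g1
      have h2 := congrArg (dv H D ⬝ᵥ ·) hβ
      have h3 := dv_dot H ν D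
      simp only [dotProduct_add, dotProduct_sub, dotProduct_smul, dy, smul_eq_mul] at h2
      rw [der_bf, de, sg H (dv H D), se H] at h1
      rw [hn, map_zero, ← h.gd] at h3
      linear_combination h1 - 2 * h2 + 2 * β * h3
  obtain ⟨μ, hμ⟩ := h.fub nu0 hn g2 hX x1 x2 hc
  choose a ha using fun i j => const_of_kil (C := C) fun D => congrFun₂ (hμ D) i j
  have ea : (Matrix.of a).map (algebraMap C Ω) = G - μ • vecMulVec ν ν := by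
    ext i j; exact ha i j
  have A0 : ∀ b, b ⬝ᵥ ν = 0 → (G - μ • vecMulVec ν ν) *ᵥ b = G *ᵥ b := fun b hb => by
    rw [sub_mulVec, smul_mulVec, vecMulVec_mulVec, dotProduct_comm, hb]
    simp
  refine ⟨Matrix.of a, IsSymm.ext fun i j => (algebraMap C Ω).injective ?_, ?_, _,
    neg_ne_zero.2 (div_ne_zero e1 ty), ?_⟩
  · rw [of_apply, of_apply, ha, ha]
    simp [vecMulVec_apply, mul_comm, h.symm.apply]
  · rw [ea, A0 T tn, h.gt]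
  · rw [(mul_eq_zero.1 β0).resolve_left two_ne_zero, zero_smul] at hβ
    rw [ea, sub_mulVec, A0 H hn, neg_smul]
    exact eq_neg_of_add_eq_zero_left hβ

end Pool.Agent.MP_249f74_an.H2.Db
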