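import Pool.Agent.MP_249f74_an.H2.Sec3
import Pool.Agent.MP_249f74_an.H32.Bas
import Pool.Agent.MP_249f74_an.H96A.Place
import Pool.Agent.MP_249f74_an.H96A.Grp
import Pool.Agent.MP_249f74_an.H96A.Sec

/-!
The Galois group of the section of a mirror by a generic edge and its sign.
-/

open MvPolynomial Matrix Set

namespace Pool.Agent.MP_249f74_an.H2.Sc

open H17.Cm hiding Gen dir Mir
open H42 (ev Gen Cur FL mp Sp Sf)
open H96A (Pl sg Full Inv)
open H96A.Lift (SP)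
open H32 (Mir Pts Tl Dsc Δ)

variable {k C Ω ι : Type} [Field k] [Algebra k ℝ] [Field C] [Algebra k C] [Field Ω] [Algebra C Ω]
  [Fintype ι] [DecidableEq ι] [IsAlgClosed C] [CharZero Ω] [IsAlgClosed Ω]
  {m m' : Mir k C ι} {l e : ι ⊕ ι → Ω} {t y b : Ω} {P : Pl C Ω}

lemma place {κ : Type} (hS : Sf C Ω κ) {l e : κ → Ω} {Ψ : MvPolynomial κ C} (hl : Gen C l)
    (he : Cur C e) (hΨ : Squarefree Ψ) (h0 : ev e Ψ = 0) :
    ∃ P : Pl C Ω, Sp P l e ∧ ∀ r, r ^ 2 = ev l Ψ → P.σ r = -r := by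
  obtain ⟨π, hπ, hz⟩ := he
  obtain ⟨P, h1, h2⟩ := H96A.place κ l e π Ψ (algebraicIndependent_iff.2 hl) (hS l hl) hπ hz hΨ
    ((hz _).1 h0)
  exact ⟨P, ⟨fun i => (h1 i).1, by rintro _ ⟨i, rfl⟩; exact (h1 i).2⟩, h2⟩

omit [IsAlgClosed C] in
lemma sqf {κ : Type} (hS : Sf C Ω κ) {l : κ → Ω} {θ : Ω} (hl : Gen C l) (h0 : θ ≠ 0)
    (hθ : Inv (FL C l) θ) : ∃ (Ψ : MvPolynomial κ C) (u : Ω),
      Squarefree Ψ ∧ u ≠ 0 ∧ Inv (FL C l) u ∧ θ = ev l Ψ * u ^ 2 := by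
  have h1 := H96A.Bt.dcl _ θ (hS l hl) hθ
  rw [IntermediateField.mem_adjoin_range_iff] at h1
  obtain ⟨A, B, hAB⟩ := h1
  change θ = ev l A / ev l B at hAB
  have hA : ev l A ≠ 0 := fun h => h0 (by rw [hAB, h, zero_div])
  have hB : ev l B ≠ 0 := fun h => h0 (by rw [hAB, h, div_zero])
  have hA0 : A ≠ 0 := fun h => hA (by rw [h, map_zero])
  have hB0 : B ≠ 0 := fun h => hB (by rw [h, map_zero])
  obtain ⟨Ψ, U, p1, p2, p3⟩ := H96A.Bt.sqfree (A * B) (mul_ne_zero hA0 hB0)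
  have hU : ev l U ≠ 0 := fun h => p2 (hl U h)
  refine ⟨Ψ, ev l U / ev l B, p1, div_ne_zero hU hB, fun g hg => ?_, ?_⟩
  · rw [map_div₀, ← H32.ev_mp, ← H32.ev_mp, H32.mp_eq hg]
  · have h2 := congrArg (ev l) p3
    rw [map_mul, map_mul, map_pow] at h2
    rw [hAB, div_pow, ← mul_div_assoc, ← h2]
    field_simp

omit [IsAlgClosed C] [CharZero Ω] [IsAlgClosed Ω] in
lemma mem_of_top (h : aeval (us l) (homogeneousComponent m.f.totalDegree m.f) ≠ 0) :
    y ∈ Pts m l ↔ aeval (pt l y) m.f = 0 :=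
  H32.mem_pts.trans (and_iff_right (line_ne h))

omit [IsAlgClosed C] [IsAlgClosed Ω] in
lemma mem_gen (hl : Gen C l) : y ∈ Pts m l ↔ aeval (pt l y) m.f = 0 :=
  mem_of_top (gen_top hl m.prime.ne_zero)

omit [IsAlgClosed C] [CharZero Ω] [IsAlgClosed Ω] [Fintype ι] [DecidableEq ι] in
lemma sp_sec (hP : Sp P l e) (F : MvPolynomial ι C) :
    SP P (line F (xs l) (us l)) (line F (xs e) (us e)) :=
  sp_line (fun _ => hP.sp _) (fun _ => hP.sp _) F

omit [IsAlgClosed C] [IsAlgClosed Ω] in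
lemma val (hl : Gen C l) (h : Tg m'.f e t) (hP : Sp P l e) (hy : y ∈ Pts m l) :
    ∃ b, aeval (pt e b) m.f = 0 ∧ P.sp y b := by
  have h1 := h.top m'.prime.ne_zero m.prime.ne_zero
  obtain ⟨b, p1, p2⟩ := H96A.Lift.fin (sp_sec hP m.f) (line_ne h1)
    (by rw [deg_line h1, deg_line (gen_top hl m.prime.ne_zero)])
    ((eval_line _ _ _ _).trans ((mem_gen hl).1 hy))
  exact ⟨b, (eval_line _ _ _ _).symm.trans p1, p2⟩

omit [IsAlgClosed C] [IsAlgClosed Ω] in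
lemma fib (h : Tg m'.f e t) (hP : Sp P l e) (T : Finset Ω) (hT : ∀ y ∈ T, y ∈ Pts m l ∧ P.sp y b) :
    T.card ≤ (line m.f (xs e) (us e)).rootMultiplicity b :=
  H96A.Lift.mult T (sp_sec hP m.f) (line_ne (h.top m'.prime.ne_zero m.prime.ne_zero))
    fun y hy => ⟨(eval_line _ _ _ _).trans (H32.mem_pts.1 (hT y hy).1).2, (hT y hy).2⟩

omit [IsAlgClosed C] [IsAlgClosed Ω] in
lemma fix (h : Tg m'.f e t) (hP : Sp P l e) (hy : y ∈ Pts m l) (hb : aeval (pt e b) m.f = 0)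
    (hs : P.sp y b) (hn : b ≠ t) : P.σ y = y := by
  classical
  by_contra ne
  have := fib (m := m) h hP (b := b) {P.σ y, y} (by
    simp only [Finset.mem_insert, Finset.mem_singleton, forall_eq_or_imp, forall_eq]
    exact ⟨⟨H32.pts_stb hP.fx hy, P.ine hs⟩, hy, hs⟩)
  have h2 := h.simple m'.prime.ne_zero m.prime.irreducible hb hn
  rw [Finset.card_pair ne] at this
  omega

/-- The inertia element at the tangent complex is a transposition. -/
lemma sw (hS : Sf C Ω (ι ⊕ ι)) (hl : Gen C l) (h : Tg m.f e t) : ∃ P : Pl C Ω, Sp P l e ∧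
    ∃ a ∈ Pts m l, ∃ b ∈ Pts m l,
      a ≠ b ∧ P.σ a = b ∧ P.σ b = a ∧ ∀ c ∈ Pts m l, c ≠ a → c ≠ b → P.σ c = c := by
  classical
  have f0 := m.prime.ne_zero
  obtain ⟨π, hπ, p1⟩ := h.cur
  obtain ⟨P, hP, hr⟩ := place hS hl h.cur hπ.squarefree ((p1 π).2 dvd_rfl)
  obtain ⟨a, a1, a2⟩ := H96A.Lift.root _ rfl (sp_sec hP m.f) (line_ne (h.top f0 f0))
    ((eval_line _ _ _ _).trans h.gp.zero)
  have a0 := (eval_line _ _ _ _).symm.trans a1
  have a3 : a ∈ Pts m l := (mem_gen hl).2 a0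
  have b1 := H32.pts_stb hP.fx a3
  have ne := (move hl m.prime.irreducible h hP hπ.ne_zero p1 hr a0 a2).symm
  have key : ∀ c ∈ Pts m l, P.sp c t → c = a ∨ c = P.σ a := fun c hc hs => by
    by_contra hn
    push Not at hn
    have := fib (m := m) h hP (b := t) {c, a, P.σ a} (by
      simp only [Finset.mem_insert, Finset.mem_singleton, forall_eq_or_imp, forall_eq]
      exact ⟨⟨hc, hs⟩, ⟨a3, a2⟩, b1, P.ine a2⟩)
    rw [h.own f0, Finset.card_insert_of_notMem (by simp [hn.1, hn.2]),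
      Finset.card_pair ne] at this
    omega
  refine ⟨P, hP, a, a3, _, b1, ne, rfl, (key _ (H32.pts_stb hP.fx b1)
    (P.ine (P.ine a2))).resolve_right fun e => ne (P.σ.injective e).symm, fun c hc c1 c2 => ?_⟩
  obtain ⟨b, p2, p3⟩ := val hl h hP hc
  exact fix h hP hc p2 p3 fun e => (key c hc (e ▸ p3)).elim c1 c2

omit [IsAlgClosed C] [DecidableEq ι] in
lemma dsc (hS : Sf C Ω (ι ⊕ ι)) (hl : Gen C l) (m : Mir k C ι) : Dsc Ω m (Δ Ω m) := by
  classical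
  refine Classical.epsilon_spec (p := Dsc Ω m) ?_
  obtain ⟨δ, δ0, hδ⟩ := H96A.Sec.vdm (C := C) (Pts m l)
  obtain ⟨D, u, p1, p2, p3, p4⟩ := sqf hS hl (pow_ne_zero 2 δ0) fun g hg => by
    rw [map_pow, hδ g fun _ => H32.pts_stb hg]
    rcases Int.units_eq_one_or (sg g (Pts m l)) with e | e <;> simp [e]
  have sgn : ∀ g ∈ FL C l, ∀ r, r ^ 2 = ev l D → g r = ((sg g (Pts m l) : ℤ) : Ω) * r :=
    fun g hg r hr => mul_right_cancel₀ p2 (by
      have h4 := hδ g fun _ => H32.pts_stb hg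
      rw [← hr, ← mul_pow] at p4
      rw [mul_assoc]
      conv_lhs => rw [← p3 g hg, ← map_mul]
      rcases sq_eq_sq_iff_eq_or_eq_neg.1 p4 with e | e
      · rwa [← e]
      · rw [show r * u = -δ by rw [e, neg_neg], map_neg, h4, mul_neg])
  refine ⟨D, p1, fun l' hl' g hg r hr => ?_⟩
  obtain ⟨τ, hτ⟩ := H96A.Bt.conj_fam (C := C) l l' fun G =>
    ⟨fun h => by rw [hl G h, map_zero], fun h => by rw [hl' G h, map_zero]⟩
  have e1 : mp τ l = l' := funext hτ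
  have e2 : mp τ.symm l' = l := funext fun i => τ.symm_apply_eq.2 (hτ i).symm
  have h1 : τ.symm * g * τ ∈ FL C l := by
    rintro _ ⟨i, rfl⟩
    rw [AlgEquiv.mul_apply, AlgEquiv.mul_apply, hτ, hg _ ⟨i, rfl⟩, ← hτ, τ.symm_apply_apply]
  have h2 := sgn _ h1 (τ.symm r) (by rw [← map_pow, hr, ← H32.ev_mp, e2])
  let E : Pts m l ≃ Pts m l' := τ.toEquiv.subtypeEquiv fun a =>
    ⟨fun h => e1 ▸ H32.pts_map τ h, fun h => by simpa [e2] using H32.pts_map τ.symm h⟩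
  have h3 := H96A.sg_act (FL C l) (Pts m l) (fun _ h _ => H32.pts_stb h) ⟨_, h1⟩
  rw [h3, ← H96A.sg_eq (σ := g) E _ fun a => (τ.apply_symm_apply _).symm, AlgEquiv.mul_apply,
    AlgEquiv.mul_apply, τ.apply_symm_apply] at h2
  simpa using congrArg τ h2

omit [IsAlgClosed C] [CharZero Ω] [IsAlgClosed Ω] [DecidableEq ι] in
lemma tl_iff : Tl m e ↔ ∃ t, Tg m.f e t :=
  ⟨fun ⟨h1, t, h2, h3⟩ => ⟨t, h1, h2, h3⟩, fun ⟨t, h⟩ => ⟨h.cur, t, h.gp, h.nu⟩⟩

omit [IsAlgClosed C] [Fintype ι] [DecidableEq ι] in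
lemma root {D : MvPolynomial (ι ⊕ ι) C} (hl : Gen C l) (hD : Squarefree D) :
    ∃ r : Ω, r ^ 2 = ev l D ∧ r ≠ -r := by
  obtain ⟨r, hr⟩ := IsAlgClosed.exists_pow_nat_eq (ev l D) two_pos
  exact ⟨r, hr, fun e => hD.ne_zero (hl D (by
    rw [← add_eq_zero_iff_eq_neg, add_self_eq_zero] at e
    simp [← hr, e]))⟩

/-- The sections of the real mirrors. -/
theorem sec (hS : Sf C Ω (ι ⊕ ι)) (hl : Gen C l) : (H32.sys k C Ω ι).Sec where
  full m l hl := by
    have hF : AP Ω m.f := ap_of m.prime.irreducible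
    obtain ⟨e, t, h⟩ := exists_tg hl hF m.deg
    obtain ⟨P, hP, h⟩ := sw hS hl h
    exact H96A.grp.full _ _ (fun _ h _ => H32.pts_stb h) (fun a ha b hb a' ha' b' hb' n n' =>
      two hl hF n n' ((mem_gen hl).1 ha) ((mem_gen hl).1 hb) ((mem_gen hl).1 ha')
        ((mem_gen hl).1 hb')) ⟨P.σ, hP.fx, h⟩
  sqf m := (dsc hS hl m).1
  sgn m := (dsc hS hl m).2
  ex m := by
    obtain ⟨e, h⟩ := exists_tg hl (ap_of m.prime.irreducible) m.deg
    exact ⟨e, tl_iff.2 h⟩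
  cur m e h := h.1
  own m e h := by_contra fun hn => by
    obtain ⟨t, h⟩ := tl_iff.1 h
    obtain ⟨r, hr, r0⟩ := root hl (dsc hS hl m).1
    obtain ⟨P, hP, a, a1, b, b1, q1, q2, q3, q4⟩ := sw hS hl h
    have := (dsc hS hl m).2 l hl _ hP.fx r hr
    rw [H96A.grp.swap _ _ a b a1 b1 q1 q2 q3 q4, H96A.Lift.unit (sp_aeval hP.sp _) hn
      (fix_aeval (fun i => hP.fx _ ⟨i, rfl⟩) _) hr] at this
    exact r0 (by simpa using this)
  oth m' m e h hm hn := by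
    obtain ⟨t, h⟩ := tl_iff.1 h
    obtain ⟨r, hr, r0⟩ := root hl (dsc hS hl m).1
    obtain ⟨P, hP, q⟩ := place hS hl h.cur (dsc hS hl m).1 hn
    have := (dsc hS hl m).2 l hl _ hP.fx r hr
    rw [H96A.grp.one _ _ fun y hy => by
      obtain ⟨b, b1, b2⟩ := val hl h hP hy
      refine fix h hP hy b1 b2 fun e => hm (H32.Mir.ext_of_associated ?_)
      exact (m'.prime.irreducible.associated_of_dvd m.prime.irreducible
        ((h.gp _).1 (e ▸ b1))).symm, q r hr] at this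
    exact r0 (by simpa using this.symm)
  tid m e e' h h' G hG := by
    obtain ⟨t, h⟩ := tl_iff.1 h
    obtain ⟨t', h'⟩ := tl_iff.1 h'
    exact h.tid' m.prime.ne_zero h' hG
  tq m e hq he hn := by
    have hF : AP Ω m.f := ap_of m.prime.irreducible
    have hq : m.f.totalDegree = 2 := hq
    obtain ⟨y, hy⟩ := exists_root hl m.prime.ne_zero m.deg
    have h1 := (gen_pt hl hF.irr hy).1.ne m.prime.ne_zero
    obtain ⟨j, hj⟩ := Function.ne_iff.1 h1
    refine tl_iff.2 (quad_tg hq hF.irr hy h1 (dot_prj hj (us l)) (prj_ne hl hF m.deg hy hj) he ?_)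
    by_contra hd
    obtain ⟨r, hr, r0⟩ := root hl (dsc hS hl m).1
    obtain ⟨P, hP, q⟩ := place hS hl he (dsc hS hl m).1 hn
    have := (dsc hS hl m).2 l hl _ hP.fx r hr
    rw [H96A.grp.one _ _ fun y hy => ?_, q r hr] at this
    · exact r0 (by simpa using this.symm)
    have s := sp_sec hP m.f
    have f : ∀ i, P.σ ((line m.f (xs l) (us l)).coeff i) = (line m.f (xs l) (us l)).coeff i :=
      fun i => by
        have := congrArg (·.coeff i) (H32.sec_mp P.σ m.f l)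
        rw [H32.mp_eq hP.fx] at this
        exact ((Polynomial.coeff_map _ _).symm.trans this.symm)
    have s1 := H96A.Lift.sub (H96A.Lift.pow (s 1) 2) (P.mul (P.mul (P.cst 4) (s 2)) (s 0))
    have a0 : (line m.f (xs l) (us l)).coeff 2 ≠ 0 := by
      rw [coeff_line hq.le, ← hq]; exact gen_top hl m.prime.ne_zero
    obtain ⟨A, B, E, q1, -, -, q4, q5, q6⟩ := quad_line hq.le (xs l) (us l)
    have f2 := f 2
    have f1 := f 1
    have f0 := f 0
    have z := (q1 y).symm.trans ((mem_gen hl).1 hy)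
    rw [map_ofNat, q4, q5, q6] at s1
    rw [q4] at f2 a0
    rw [q5] at f1
    rw [q6] at f0
    have := H96A.Lift.unit (r := 2 * A * y + B) s1 (sub_ne_zero.2 hd)
      (by simp [f0, f1, f2, map_ofNat]) (by linear_combination 4 * A * z)
    simpa [f1, f2, map_ofNat, a0] using this

end Pool.Agent.MP_249f74_an.H2.Sc
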