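import Pool.Agent.MP_249f74_an.H96.Chh
import Pool.Agent.MP_249f74_an.H96.Aut

/-!
Families of derivations, stable subspaces and fields of definition of involutive modules.
-/

open Set IntermediateField

namespace Pool.Agent.MP_249f74_an.H2

open H17 (Der Kr mem_Kr cl_le cl_mono rk_mono mem_cl_of_rk rk_finite rk_map)
open H88 (rk cl subset_cl coe_cl rk_le rk_insert rk_union)
open H96

variable {C Ω : Type} [Field C] [Field Ω] [Algebra C Ω]

/-- The common constants of a family of derivations. -/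
def KrS (Δ : Set (Der C Ω)) : IntermediateField C Ω := sInf (Kr '' Δ)

@[simp] lemma mem_KrS {Δ : Set (Der C Ω)} {x : Ω} : x ∈ KrS Δ ↔ ∀ δ ∈ Δ, δ x = 0 := by
  simp [KrS, IntermediateField.mem_sInf]

lemma cl_KrS [CharZero Ω] (Δ : Set (Der C Ω)) : cl C (KrS Δ : Set Ω) = KrS Δ :=
  le_antisymm (fun x hx => mem_KrS.2 fun δ hδ =>
    Kil.cl (S := (KrS Δ : Set Ω)) (fun _ h => mem_KrS.1 h δ hδ) x hx) (subset_cl _)

lemma kil_KrS {Δ : Set (Der C Ω)} {δ : Der C Ω} (h : δ ∈ Δ) : Kil (KrS Δ : Set Ω) δ :=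
  fun _ hf => mem_KrS.1 hf δ h

section Span

variable {ι : Type} {Δ : Set (Der C Ω)}

/-- A set of vectors that is stable under `F` and under the derivations contains, below each non-zero
vector, a non-zero constant vector with smaller support. -/
lemma minsup {F : Set Ω} {W : Set (ι → Ω)} (hF : ∀ w ∈ W, ∀ i, (w i)⁻¹ • w ∈ W)
    (hΔ : ∀ δ ∈ Δ, ∀ w ∈ W, (fun i => δ (w i)) ∈ W) (hW : ∀ w ∈ W, ∀ i, w i ∈ F) (s : Finset ι) :
    ∀ w ∈ W, w ≠ 0 → (∀ i ∉ s, w i = 0) →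
      ∃ v ∈ W, (∃ j ∈ s, v j = 1) ∧ (∀ i ∉ s, v i = 0) ∧ ∀ i, v i ∈ F ∧ v i ∈ KrS Δ := by
  classical
  induction s using Finset.strongInduction with
  | H s ih =>
  intro w hw h0 hs
  obtain ⟨j, hj⟩ := Function.ne_iff.1 h0
  have hj' : w j ≠ 0 := hj
  have js : j ∈ s := by_contra fun h => hj' (hs j h)
  have h1 := hF w hw j
  by_cases h : ∀ δ ∈ Δ, (fun i => δ (((w j)⁻¹ • w) i)) = 0
  · exact ⟨_, h1, ⟨j, js, by simp [hj']⟩, fun i hi => by simp [hs i hi],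
      fun i => ⟨hW _ h1 i, mem_KrS.2 fun δ hδ => congrFun (h δ hδ) i⟩⟩
  · push Not at h
    obtain ⟨δ, hδ, h2⟩ := h
    obtain ⟨v, v1, ⟨k, hk, v2⟩, v3, v4⟩ := ih _ (Finset.erase_ssubset js) _ (hΔ δ hδ _ h1) h2
      fun i hi => by
        by_cases e : i = j
        · simp [e, hj']
        · simp [hs i fun h => hi (Finset.mem_erase.2 ⟨e, h⟩)]
    exact ⟨v, v1, ⟨k, Finset.mem_of_mem_erase hk, v2⟩,
      fun i hi => v3 i fun h => hi (Finset.mem_of_mem_erase h), v4⟩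

/-- A stable subspace is spanned by its constant vectors. -/
lemma span_const [Fintype ι] {W : Submodule Ω (ι → Ω)}
    (hΔ : ∀ δ ∈ Δ, ∀ w ∈ W, (fun i => δ (w i)) ∈ W) :
    W ≤ Submodule.span Ω {v | v ∈ W ∧ ∀ i, v i ∈ KrS Δ} := by
  classical
  suffices h : ∀ s : Finset ι, ∀ w ∈ W, (∀ i ∉ s, w i = 0) →
      w ∈ Submodule.span Ω {v | v ∈ W ∧ ∀ i, v i ∈ KrS Δ} from
    fun w hw => h Finset.univ w hw (by simp)
  intro s
  induction s using Finset.strongInduction with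
  | H s ih =>
  intro w hw hs
  by_cases h0 : w = 0
  · exact h0 ▸ zero_mem _
  obtain ⟨v, v1, ⟨j, hj, v2⟩, v3, v4⟩ := minsup (Δ := Δ) (F := univ) (W := (W : Set (ι → Ω)))
    (fun w hw _ => W.smul_mem _ hw) hΔ (fun _ _ _ => mem_univ _) s w hw h0 hs
  have h1 := ih _ (Finset.erase_ssubset hj) (w - w j • v) (W.sub_mem hw (W.smul_mem _ v1))
    fun i hi => by
      by_cases e : i = j
      · simp [e, v2]
      · have : i ∉ s := fun h => hi (Finset.mem_erase.2 ⟨e, h⟩)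
        simp [hs i this, v3 i this]
  rw [← sub_add_cancel w (w j • v)]
  exact add_mem h1 (Submodule.smul_mem _ _ (Submodule.subset_span ⟨v1, fun i => (v4 i).2⟩))

/-- A non-zero stable subspace contains a non-zero constant vector. -/
lemma exists_const [Fintype ι] {W : Submodule Ω (ι → Ω)}
    (hΔ : ∀ δ ∈ Δ, ∀ w ∈ W, (fun i => δ (w i)) ∈ W) {w : ι → Ω} (hw : w ∈ W) (h0 : w ≠ 0) :
    ∃ v ∈ W, (∃ j, v j = 1) ∧ ∀ i, v i ∈ KrS Δ := by
  obtain ⟨v, v1, ⟨j, -, v2⟩, -, v4⟩ := minsup (Δ := Δ) (F := univ) (W := (W : Set (ι → Ω)))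
    (fun w hw _ => W.smul_mem _ hw) hΔ (fun _ _ _ => mem_univ _) Finset.univ w hw h0 (by simp)
  exact ⟨v, v1, ⟨j, v2⟩, fun i => (v4 i).2⟩

end Span

section Fam

variable {Δ : Set (Der C Ω)} {F : IntermediateField C Ω}

/-- Constants that are independent over the constants of a stable field are independent over it. -/
lemma lin_fam (hF : ∀ δ ∈ Δ, Pres F δ) {ι : Type} {e : ι → Ω} (he : ∀ i, e i ∈ KrS Δ)
    (h : LinearIndependent ↥(F ⊓ KrS Δ) e) : LinearIndependent F e := by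
  classical
  rw [linearIndependent_iff'] at h ⊢
  intro s g hg i hi
  by_contra hn
  obtain ⟨v, ⟨v0, v1⟩, ⟨j, hj, v2⟩, -, v4⟩ := minsup (Δ := Δ) (F := (F : Set Ω))
    (W := {w | (∀ i, w i ∈ F) ∧ ∑ i ∈ s, w i * e i = 0})
    (fun w hw i => ⟨fun k => mul_mem (inv_mem (hw.1 i)) (hw.1 k), by
      simp only [Pi.smul_apply, smul_eq_mul, mul_assoc, ← Finset.mul_sum, hw.2, mul_zero]⟩)
    (fun δ hδ w hw => ⟨fun k => hF δ hδ _ (hw.1 k), by
      have := congrArg δ hw.2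
      simpa [map_sum, mem_KrS.1 (he _) δ hδ, mul_comm] using this⟩)
    (fun w hw => hw.1) s (fun k => if k ∈ s then (g k : Ω) else 0)
    ⟨fun k => by dsimp only; split_ifs; exacts [(g k).2, zero_mem _], by
      rw [← hg]; exact Finset.sum_congr rfl fun k hk => by simp [hk, IntermediateField.smul_def]⟩
    (fun h0 => hn (Subtype.ext (by simpa [hi] using congrFun h0 i))) (fun k hk => if_neg hk)
  have := h s (fun k => ⟨v k, (v4 k).1, (v4 k).2⟩) v1 j hj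
  exact one_ne_zero (v2.symm.trans (congrArg Subtype.val this))

lemma indep_fam (hF : ∀ δ ∈ Δ, Pres F δ) {ι : Type} {e : ι → Ω} (he : ∀ i, e i ∈ KrS Δ)
    (h : AlgebraicIndependent ↥(F ⊓ KrS Δ) e) : AlgebraicIndependent F e := by
  rw [Chh.alg_iff] at h ⊢
  exact lin_fam hF (fun m => prod_mem fun i _ => pow_mem (he i) _) h

variable [CharZero Ω]

/-- A stable field is independent of the common constants over its own constants. -/
lemma ind_of_ders (hF : ∀ δ ∈ Δ, Pres F δ) {K0 : Set Ω}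
    (hc : ∀ f ∈ F, (∀ δ ∈ Δ, δ f = 0) → f ∈ cl C K0) : Ind C (KrS Δ : Set Ω) F K0 := by
  obtain ⟨J, -, j2, j3, j4⟩ := exists_basis (F ⊓ KrS Δ) (v := fun e : Empty => e.elim)
    algebraicIndependent_empty_type (T := KrS Δ) fun e => e.elim
  exact (Chh.ind_of_indep (inf_le_left : F ⊓ KrS Δ ≤ F)
    (indep_fam hF (fun a : J => j2 a.2) j3) j4).base fun f hf => hc f hf.1 (mem_KrS.1 hf.2)

end Fam

section Mod

variable {𝓕 : Submodule Ω (Der C Ω)} {S T : Set Ω}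

/-- Closed under brackets. -/
def Invl (𝓕 : Submodule Ω (Der C Ω)) : Prop := ∀ θ ∈ 𝓕, ∀ φ ∈ 𝓕, ⁅θ, φ⁆ ∈ 𝓕

/-- The module contains all derivations that vanish on `S`. -/
def Dfn (𝓕 : Submodule Ω (Der C Ω)) (S : Set Ω) : Prop := ∀ θ, Kil S θ → θ ∈ 𝓕

lemma Dfn.mono (h : Dfn 𝓕 S) (hS : S ⊆ T) : Dfn 𝓕 T := fun θ hθ => h θ (hθ.mono hS)

lemma Dfn.agr (h : Dfn 𝓕 S) {θ φ : Der C Ω} (h' : Agr S θ φ) (hφ : φ ∈ 𝓕) : θ ∈ 𝓕 := by
  simpa using 𝓕.add_mem (h _ (agr_iff.1 h')) hφ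

/-- The span of a set that is closed under brackets up to the span is involutive. -/
lemma invl_span {G : Set (Der C Ω)} (h : ∀ θ ∈ G, ∀ φ ∈ G, ⁅θ, φ⁆ ∈ Submodule.span Ω G) :
    Invl (Submodule.span Ω G) := by
  have h1 : ∀ φ ∈ Submodule.span Ω G, (∀ θ ∈ G, ⁅θ, φ⁆ ∈ Submodule.span Ω G) →
      ∀ θ ∈ Submodule.span Ω G, ⁅θ, φ⁆ ∈ Submodule.span Ω G := fun φ hφ h θ hθ => by
    induction hθ using Submodule.span_induction with
    | mem θ hθ => exact h θ hθ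
    | zero => simp
    | add a b _ _ ha hb => rw [add_lie]; exact add_mem ha hb
    | smul a θ hθ ha =>
      rw [br_smul_left]
      exact sub_mem (Submodule.smul_mem _ _ ha) (Submodule.smul_mem _ _ hθ)
  intro θ hθ φ hφ
  refine h1 φ hφ (fun θ hθ => ?_) θ hθ
  rw [← lie_skew]
  exact neg_mem (h1 θ (Submodule.subset_span hθ) (fun ψ hψ => h ψ hψ θ hθ) φ hφ)

variable [CharZero Ω]

lemma Dfn.of_cl (h : Dfn 𝓕 (cl C S : Set Ω)) : Dfn 𝓕 S := fun θ hθ => h θ hθ.cl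

/-- An involutive module is invariant under the automorphisms over a field of definition. -/
lemma Dfn.cj_mem (h : Dfn 𝓕 S) (hS : S.Finite) (hi : Invl 𝓕) {σ : Ω ≃ₐ[C] Ω}
    (hσ : ∀ f ∈ cl C S, σ f = f) {θ : Der C Ω} (hθ : θ ∈ 𝓕) : cj σ θ ∈ 𝓕 := by
  classical
  have := hS.fintype
  let ev : Der C Ω →ₗ[Ω] (S → Ω) := LinearMap.pi fun b => dif (b : Ω)
  have hW := span_const (Δ := {φ : Der C Ω | Kil S φ}) (W := 𝓕.map ev) (by
    rintro δ hδ _ ⟨φ, hφ, rfl⟩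
    exact ⟨⁅δ, φ⁆, hi _ (h δ hδ) _ hφ, funext fun b => by simp [ev, br_apply, hδ b b.2]⟩)
  have h1 : ∀ w ∈ Submodule.span Ω {v | v ∈ 𝓕.map ev ∧ ∀ i, v i ∈ KrS {φ : Der C Ω | Kil S φ}},
      (fun b => σ (w b)) ∈ 𝓕.map ev := fun w hw => by
    induction hw using Submodule.span_induction with
    | mem v hv =>
      have e : (fun b => σ (v b)) = v := funext fun b =>
        hσ _ (mem_cl_of_kil fun φ hφ => mem_KrS.1 (hv.2 b) φ hφ)
      rw [e]; exact hv.1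
    | zero => convert zero_mem (𝓕.map ev) using 1; ext; simp
    | add a b _ _ ha hb => convert add_mem ha hb using 1; ext; simp
    | smul a w _ hw => convert Submodule.smul_mem _ (σ a) hw using 1; ext; simp
  obtain ⟨φ, hφ, e⟩ := h1 _ (hW ⟨θ, hθ, rfl⟩)
  refine h.agr (fun b hb => ?_) hφ
  have e1 : σ.symm b = b := by rw [AlgEquiv.symm_apply_eq, hσ b (subset_cl _ hb)]
  rw [cj_apply, e1]
  exact (congrFun e ⟨b, hb⟩).symm

lemma Dfn.push (h : Dfn 𝓕 S) (hT : Dfn 𝓕 T) (hf : T.Finite) (hi : Invl 𝓕) {σ : Ω ≃ₐ[C] Ω}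
    (hσ : ∀ f ∈ cl C T, σ f = f) : Dfn 𝓕 (σ '' S) := fun θ hθ =>
  cj_cj σ θ ▸ hT.cj_mem hf hi hσ (h _ (kil_cj'.2 hθ))

variable (𝓕) in
/-- Finite sets of definition of minimal rank. -/
structure Mn (S : Set Ω) : Prop where
  fin : S.Finite
  dfn : Dfn 𝓕 S
  min : ∀ T : Set Ω, T.Finite → Dfn 𝓕 T → rk C S ≤ rk C T

omit [CharZero Ω] in
lemma Mn.eq (h : Mn 𝓕 S) (h' : Mn 𝓕 T) : rk C S = rk C T :=
  le_antisymm (h.min T h'.fin h'.dfn) (h'.min S h.fin h.dfn)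

lemma Mn.push (h : Mn 𝓕 S) (hc : Invl 𝓕) (hT : T.Finite) (hv : Dfn 𝓕 T)
    {σ : Ω ≃ₐ[C] Ω} (hσ : ∀ a ∈ cl C T, σ a = a) : Mn 𝓕 (σ '' S) :=
  ⟨h.fin.image _, h.dfn.push hv hT hc hσ, fun U h1 h2 =>
    (rk_map (σ : Ω →ₐ[C] Ω) S).le.trans (h.min U h1 h2)⟩

variable [IsAlgClosed Ω]

lemma max_pair (hB : Big C Ω) (hc : Invl 𝓕) (hS : Mn 𝓕 S)
    (hT : Mn 𝓕 T) (hm : ∀ U V, Mn 𝓕 U → Mn 𝓕 V → rk C (U ∪ V) ≤ rk C (S ∪ T)) : S ⊆ cl C T := by
  obtain ⟨σ, s1, s2⟩ := copy C Ω S T hB hS.fin hT.fin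
  have hS' := hS.push hc hT.fin hT.dfn s1
  have l1 : cl C S ≤ cl C (S ∪ T) := cl_mono subset_union_left
  have l2 : cl C T ≤ cl C (S ∪ T) := cl_mono subset_union_right
  have i2 : Ind C (σ '' S) (cl C (S ∪ T) : Set Ω) (cl C T : Set Ω) :=
    (s2.cl.mono (subset_cl _) subset_rfl).base ((subset_cl _).trans (subset_cl _))
  obtain ⟨J, -, j2, j3, j4⟩ := exists_basis (cl C T) (v := fun e : Empty => e.elim)
    algebraicIndependent_empty_type (T := σ '' S) fun e => e.elim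
  have hJ := hS'.fin.subset j2
  have j5 := Chh.core (cl_cl _) (cl_cl _) (cl_cl _) l2 l2 i2 i2 (fun a : J => j2 a.2)
    (by rwa [inf_idem])
  have r1 : rk C (S ∪ σ '' S) ≤ rk C (S ∪ J) := by
    rw [Chh.rk_add ((subset_cl _).trans l1) j5 hJ subset_rfl, hS.eq hT,
      ← Chh.rk_add ((subset_cl _).trans l2) j5 hJ subset_rfl]
    refine (hm _ _ hS hS').trans ((rk_map (σ : Ω →ₐ[C] Ω) _).ge.trans (rk_le ?_))
    rintro _ ⟨x, hx | hx, rfl⟩
    · exact cl_le (union_subset (cl_mono subset_union_left)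
        (subset_union_right.trans (subset_cl _))) (j4 ⟨x, hx, rfl⟩)
    · exact (s1 x (subset_cl _ hx)).symm ▸ subset_cl _ (Or.inl hx)
  have i1 : Ind C (σ '' S) (cl C (S ∪ T) : Set Ω) (cl C S : Set Ω) :=
    Chh.ind_of_indep l1 j5 ((subset_union_right.trans (mem_cl_of_rk (rk_finite (hS.fin.union hJ))
      ((union_subset_union_right _ j2).trans (subset_cl _)) r1)).trans
      (cl_mono (union_subset_union_left _ (subset_cl _))))
  have i0 := Chh.cb (cl_cl _) (cl_cl _) (cl_cl _) l1 l2 i1 i2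
  obtain ⟨I, hI⟩ := (AlgebraicIndependent.matroid C Ω).exists_isBasis
    (cl C S ⊓ cl C T : IntermediateField C Ω) (by simp)
  have hIS : I ⊆ cl C S := fun x hx => (hI.subset hx).1
  have hf : I.Finite := Set.finite_of_encard_le_coe (k := (rk C S).toNat) (by
    rw [ENat.natCast_toNat (rk_finite hS.fin), ← hI.indep.eRk_eq_encard]
    exact rk_le hIS)
  have hv : Dfn 𝓕 I := fun θ hθ => by
    obtain ⟨φ, p1, p2⟩ := i0 θ (hθ.cl.mono (by rw [coe_cl]; exact hI.subset_closure))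
    exact hS.dfn.agr (p2.mono ((subset_cl _).trans l1)).symm (hS'.dfn φ p1)
  exact (mem_cl_of_rk (rk_finite hf) hIS (hS.min I hf hv)).trans
    (cl_le fun x hx => (hI.subset hx).2)

lemma min_pair (hB : Big C Ω) (hc : Invl 𝓕) (hS : Mn 𝓕 S) (hT : Mn 𝓕 T) : S ⊆ cl C T := by
  have : Nonempty {p : Set Ω × Set Ω // Mn 𝓕 p.1 ∧ Mn 𝓕 p.2} := ⟨⟨(S, T), hS, hT⟩⟩
  obtain ⟨⟨⟨U, V⟩, hU, hV⟩, h⟩ := ENat.exists_eq_iSup_of_lt_top
    (f := fun p : {p : Set Ω × Set Ω // Mn 𝓕 p.1 ∧ Mn 𝓕 p.2} => rk C (p.1.1 ∪ p.1.2))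
    (lt_of_le_of_lt (iSup_le fun p => (rk_union _ _).trans
      (add_le_add (p.2.1.eq hS).le (p.2.2.eq hS).le))
      (WithTop.add_lt_top.2
        ⟨(rk_finite (C := C) hS.fin).lt_top, (rk_finite (C := C) hS.fin).lt_top⟩))
  have hm : ∀ A B, Mn 𝓕 A → Mn 𝓕 B → rk C (A ∪ B) ≤ rk C (U ∪ V) := fun A B hA hB =>
    (le_iSup (fun p : {p : Set Ω × Set Ω // Mn 𝓕 p.1 ∧ Mn 𝓕 p.2} => rk C (p.1.1 ∪ p.1.2))
      ⟨(A, B), hA, hB⟩).trans h.ge
  refine subset_union_left.trans (mem_cl_of_rk (rk_finite hT.fin)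
    (subset_union_right.trans (subset_cl _)) ((hm S T hS hT).trans ?_))
  rw [hT.eq hV]
  exact rk_le (union_subset (max_pair hB hc hU hV hm) (subset_cl _))

lemma min_sub (hB : Big C Ω) (hc : Invl 𝓕) (hS : Mn 𝓕 S) (hT : T.Finite) (hv : Dfn 𝓕 T) :
    S ⊆ cl C T := fun x hx => by
  obtain ⟨σ, s1, s2⟩ := copy C Ω S T hB hS.fin hT
  refine mem_cl_of_kil fun θ hθ => ?_
  obtain ⟨φ, p1, p2⟩ := s2 θ hθ
  rw [← p2 x (Or.inl hx)]
  exact p1.cl x (min_pair hB hc hS (hS.push hc hT hv s1) hx)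

/-- The least field of definition of an involutive module. -/
theorem minm (hB : Big C Ω) (hc : Invl 𝓕) (hS : S.Finite) (hv : Dfn 𝓕 S) :
    ∃ S0 : Set Ω, S0.Finite ∧ Dfn 𝓕 S0 ∧ ∀ T : Set Ω, T.Finite → Dfn 𝓕 T → S0 ⊆ cl C T := by
  obtain ⟨S0, ⟨h1, h2⟩, h3⟩ := (InvImage.wf (rk C) wellFounded_lt).has_min
    {U : Set Ω | U.Finite ∧ Dfn 𝓕 U} ⟨S, hS, hv⟩
  have h0 : Mn 𝓕 S0 := ⟨h1, h2, fun U p q => not_lt.1 (h3 U ⟨p, q⟩)⟩
  exact ⟨S0, h1, h2, fun T hT vT => min_sub hB hc h0 hT vT⟩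

/-- Fields of definition of an involutive module are stable under intersection. -/
theorem chm (hB : Big C Ω) (hc : Invl 𝓕) (hS : S.Finite) (hT : T.Finite) (vS : Dfn 𝓕 S)
    (vT : Dfn 𝓕 T) : Dfn 𝓕 ((cl C S ⊓ cl C T : IntermediateField C Ω) : Set Ω) := by
  obtain ⟨S0, -, h2, h3⟩ := minm hB hc hS vS
  exact h2.mono fun x hx => ⟨h3 S hS vS hx, h3 T hT vT hx⟩

end Mod

end Pool.Agent.MP_249f74_an.H2
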