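import Pool.Agent.MP_249f74_an.H2.Calc2
import Pool.Agent.MP_249f74_an.H96.Pv
import Pool.Agent.MP_249f74_an.H96.Alg
import Pool.Agent.MP_249f74_an.H17.Amal
import Pool.Agent.MP_249f74_an.H17.Frame

/-!
Dual bases, separation of variables, amalgams and fundamental solutions for families of derivations.
-/

open Set IntermediateField TensorProduct

namespace Pool.Agent.MP_249f74_an.H2

open H17 (Der Kr mem_Kr cl_le cl_mono toDer toDer_apply)
open H88 (rk cl subset_cl coe_cl)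
open H96

variable {C Ω : Type} [Field C] [Field Ω] [Algebra C Ω]

/-- A finite dimensional module of derivations has a basis dual to elements of a separating set. -/
lemma basis0 (E : Submodule Ω (Der C Ω)) [FiniteDimensional Ω E] {S : Set Ω}
    (hS : ∀ Z ∈ E, Kil S Z → Z = 0) :
    ∃ (N : ℕ) (f : Fin N → Ω) (e : Fin N → Der C Ω), (∀ i, f i ∈ S) ∧ (∀ i, e i ∈ E) ∧
      (∀ i j, e i (f j) = if i = j then 1 else 0) ∧ ∀ Z ∈ E, Z = ∑ i, Z (f i) • e i := by
  classical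
  let d : S → Module.Dual Ω E := fun s => (dif (s : Ω)).comp E.subtype
  have h1 : Submodule.span Ω (range d) = ⊤ :=
    Submodule.span_eq_top_of_ne_zero fun Z h0 => by
      by_contra h
      push Not at h
      exact h0 (Subtype.ext (hS Z Z.2 fun s hs => h _ ⟨⟨s, hs⟩, rfl⟩))
  obtain ⟨κ, a, -, h2, h3⟩ := exists_linearIndependent' Ω d
  have : Finite κ := h3.finite
  have := Fintype.ofFinite κ
  let b : Module.Basis κ Ω (Module.Dual Ω E) := Module.Basis.mk h3 (by rw [h2, h1])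
  let b' := b.dualBasis.map (Module.evalEquiv Ω E).symm
  have hb : ∀ i j, ((b' i : E) : Der C Ω) (a j) = if i = j then 1 else 0 := fun i j => by
    have : d (a j) (b' i) = b.dualBasis i (b j) := by
      simp only [b', b, Module.Basis.map_apply, Module.apply_evalEquiv_symm_apply,
        Module.Basis.mk_apply, Function.comp_apply]
    rw [Module.Basis.dualBasis_apply_self] at this
    exact this.trans (if_congr eq_comm rfl rfl)
  let q := (Fintype.equivFin κ).symm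
  refine ⟨_, fun i => a (q i), fun i => b' (q i), fun i => (a (q i)).2, fun i => (b' (q i)).2,
    fun i j => by simp [hb], fun Z hZ => ?_⟩
  have h4 := congrArg Subtype.val (b'.sum_repr ⟨Z, hZ⟩)
  simp only [AddSubmonoidClass.coe_finsetSum, Submodule.coe_smul] at h4
  have h5 : ∀ j, Z (a j) = b'.repr ⟨Z, hZ⟩ j := fun j => by
    refine (congrArg (fun W : Der C Ω => W (a j)) h4).symm.trans ?_
    rw [H96.sum_apply]; simp [hb]
  rw [q.sum_comp fun i => Z (a i) • ((b' i : E) : Der C Ω)]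
  simp only [h5, h4]

/-- A dual basis of an involutive module commutes. -/
lemma dual_comm {E : Submodule Ω (Der C Ω)} (hE : Invl E) {κ : Type} [Fintype κ] [DecidableEq κ]
    {f : κ → Ω} {e : κ → Der C Ω} (h1 : ∀ i, e i ∈ E) (h2 : ∀ i j, e i (f j) = if i = j then 1 else 0)
    (h3 : ∀ Z ∈ E, Z = ∑ i, Z (f i) • e i) (i j : κ) : ⁅e i, e j⁆ = 0 := by
  rw [h3 _ (hE _ (h1 i) _ (h1 j))]
  refine Finset.sum_eq_zero fun k _ => ?_
  rw [br_apply, h2, h2]
  split_ifs <;> simp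

/-- The span of a commuting family is involutive. -/
lemma invl_of_comm {κ : Type} {e : κ → Der C Ω} (h : ∀ i j, ⁅e i, e j⁆ = 0) :
    Invl (Submodule.span Ω (range e)) :=
  invl_span (by rintro _ ⟨i, rfl⟩ _ ⟨j, rfl⟩; rw [h]; exact zero_mem _)

variable [CharZero Ω]

/-- Separation of variables. -/
lemma sep_var {F : IntermediateField C Ω} {κ : Type} [DecidableEq κ] {Y : κ → Der C Ω} {z : κ → Ω}
    (hY : ∀ a, Pres F (Y a)) (hc : ∀ a b, Kil F ⁅Y a, Y b⁆) (hz : ∀ a, z a ∈ F)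
    (hd : ∀ a b, a ≠ b → Y a (z b) = 0) {r : Ω} (hr : r ∈ F)
    (h : ∀ a, r ∈ cl C ((Kr (Y a) : Set Ω) ∪ {z a})) (A : Finset κ) :
    r ∈ cl C (((F ⊓ KrS (Y '' A) : IntermediateField C Ω) : Set Ω) ∪ z '' A) := by
  induction A using Finset.induction_on with
  | empty => exact subset_cl _ (Or.inl ⟨hr, by simp⟩)
  | insert e A he ih =>
    refine mem_cl_of_kil fun θ hθ => ?_
    have hB : Pres (F ⊓ KrS (Y '' A)) (Y e) := fun f hf => ⟨hY e f hf.1, mem_KrS.2 (by
      rintro _ ⟨a, ha, rfl⟩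
      have := hc a e f hf.1
      rwa [br_apply, mem_KrS.1 hf.2 _ ⟨a, ha, rfl⟩, map_zero, sub_zero] at this)⟩
    obtain ⟨φ, p1, p2⟩ := (ind_of_der hB (K0 := (F ⊓ KrS (Y '' (insert e A : Finset κ)) :
      IntermediateField C Ω)) fun f hf h0 => subset_cl _ ⟨hf.1, mem_KrS.2 (by
        rintro _ ⟨a, ha, rfl⟩
        rcases Finset.mem_insert.1 ha with rfl | ha
        · exact h0
        · exact mem_KrS.1 hf.2 _ ⟨a, ha, rfl⟩)⟩).symm θ (hθ.mono subset_union_left)
    have hze : θ (z e) = 0 := hθ _ (Or.inr ⟨e, by simp, rfl⟩)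
    have h1 : φ r = 0 := Kil.cl (p1.union (by
      rintro _ ⟨a, ha, rfl⟩
      rw [p2 _ (hd e a fun h => he (h ▸ ha))]
      exact hθ _ (Or.inr ⟨a, by simp [show a ∈ A from ha], rfl⟩))) r ih
    rw [← h1]
    refine (Agr.cl (p2.union ?_) r (h e)).symm
    rintro _ rfl
    rw [hze]
    exact p1 _ ⟨hz e, mem_KrS.2 (by
      rintro _ ⟨a, ha, rfl⟩
      exact hd a e fun h => he (h ▸ ha))⟩

/-- The common constants of a family of derivations form an algebraically closed field. -/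
lemma closed_KrS [IsAlgClosed Ω] (Δ : Set (Der C Ω)) : IsAlgClosed ↥(KrS Δ) :=
  IsAlgClosed.of_exists_root _ fun p hm hi => by
    obtain ⟨z, hz⟩ := IsAlgClosed.exists_root (p.map (algebraMap ↥(KrS Δ) Ω)) (by
      rw [Polynomial.degree_map]; exact (Polynomial.degree_pos_of_irreducible hi).ne')
    have h : z ∈ cl C (KrS Δ : Set Ω) :=
      H88.mem_cl_of_root (hm.map _).ne_zero
        (fun i => by rw [Polynomial.coeff_map]; exact subset_cl _ (p.coeff i).2) hz
    refine ⟨⟨z, cl_KrS Δ ▸ h⟩, ?_⟩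
    apply (algebraMap ↥(KrS Δ) Ω).injective
    rw [map_zero, ← Polynomial.eval₂_at_apply, ← Polynomial.eval_map]
    exact hz

omit [CharZero Ω] in
/-- Passing to the field of common constants. -/
lemma over_const {κ : Type} (e : κ → Der C Ω) :
    ∃ e' : κ → Der ↥(KrS (range e)) Ω, (∀ a f, e' a f = e a f) ∧
      ∀ f, (∀ a, e' a f = 0) → f ∈ (⊥ : IntermediateField ↥(KrS (range e)) Ω) :=
  ⟨fun a => toDer ((e a).restrictScalars ℤ) fun c => mem_KrS.1 c.2 _ ⟨a, rfl⟩, fun _ _ => rfl,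
    fun f h => ⟨⟨f, mem_KrS.2 (by rintro _ ⟨a, rfl⟩; exact h a)⟩, rfl⟩⟩

/-- Amalgamation of a differential field with a conjugate. -/
theorem amal [IsAlgClosed Ω] {κ : Type} (e : κ → Der C Ω) (he : ∀ a b, ⁅e a, e b⁆ = 0)
    (K : IntermediateField C Ω) (hK : ∀ a, Pres K (e a)) {y : Ω} (hy : y ^ 2 ∈ K) (hn : y ∉ K) :
    ∃ (C' Ω' : Type) (_ : Field C') (_ : IsAlgClosed C') (_ : Field Ω') (_ : CharZero Ω')
      (_ : IsAlgClosed Ω') (_ : Algebra C' Ω') (_ : Algebra C C') (_ : Algebra C Ω')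
      (_ : IsScalarTower C C' Ω') (e' : κ → Der C' Ω') (i j : Ω →ₐ[C] Ω'),
      (∀ a b, ⁅e' a, e' b⁆ = 0) ∧ (∀ f, (∀ a, e' a f = 0) → f ∈ (⊥ : IntermediateField C' Ω')) ∧
      (∀ a f, e' a (i f) = i (e a f)) ∧ (∀ a f, e' a (j f) = j (e a f)) ∧
      (∀ f ∈ K, j f = i f) ∧ j y = -i y := by
  obtain ⟨τ, t1, t2⟩ := H17.aut_move hn
  let τ' : Ω →ₐ[K] Ω := { τ.toRingEquiv.toRingHom with commutes' := fun k => t1 _ k.2 }
  let φ := Algebra.TensorProduct.productMap (AlgHom.id K Ω) τ'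
  have := RingHom.ker_isPrime φ
  obtain ⟨p, hp, hφ⟩ := Ideal.exists_minimalPrimes_le (I := ⊥) (J := RingHom.ker φ) bot_le
  have := hp.1.1
  let Ω' := AlgebraicClosure (FractionRing ((Ω ⊗[K] Ω) ⧸ p))
  let ψ : Ω ⊗[K] Ω →+* Ω' :=
    ((algebraMap _ Ω').comp (algebraMap _ (FractionRing ((Ω ⊗[K] Ω) ⧸ p)))).comp
      (Ideal.Quotient.mk p)
  have hψ : ∀ a, ψ a = 0 ↔ a ∈ p := fun a => by
    simp only [ψ, RingHom.comp_apply, map_eq_zero, FaithfulSMul.algebraMap_eq_zero_iff,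
      Ideal.Quotient.eq_zero_iff_mem]
  let i : Ω →+* Ω' := ψ.comp Algebra.TensorProduct.includeLeftRingHom
  let j : Ω →+* Ω' :=
    ψ.comp (Algebra.TensorProduct.includeRight (R := K) (A := Ω) (B := Ω)).toRingHom
  have hi : ∀ x, i x = ψ (x ⊗ₜ 1) := fun _ => rfl
  have hj : ∀ x, j x = ψ (1 ⊗ₜ x) := fun _ => rfl
  have hK' : ∀ f ∈ K, j f = i f := fun f hf => by
    have := smul_tmul (R := K) (⟨f, hf⟩ : K) (1 : Ω) (1 : Ω)
    simp only [IntermediateField.smul_def, smul_eq_mul, mul_one] at this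
    rw [hi, hj, this]
  have : CharZero Ω' := charZero_of_injective_ringHom i.injective
  let _ : Algebra C Ω' := (i.comp (algebraMap C Ω)).toAlgebra
  let _ : Algebra ℚ (Ω ⊗[K] Ω) :=
    (Algebra.TensorProduct.includeLeftRingHom.comp (algebraMap ℚ Ω)).toAlgebra
  have key : ∀ δ : Der C Ω, (∀ f ∈ K, δ f ∈ K) →
      ∃ δ' : Der C Ω', (∀ f, δ' (i f) = i (δ f)) ∧ ∀ f, δ' (j f) = j (δ f) := fun δ h => by
    obtain ⟨D, e, hD⟩ := H17.Amal.tens K δ h
    obtain ⟨δ', h'⟩ := H17.ext_int ψ (ψ.toAddMonoidHom.comp D)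
      (fun a b => by simp [hD]) fun a ha => (hψ _).2
        (H17.minp D hD (I := ⊥) (fun a ha => by simp [Ideal.mem_bot.1 ha]) hp a ((hψ _).1 ha))
    have a : ∀ f, δ' (i f) = i (δ f) := fun f => by simp [hi, h', e]
    exact ⟨toDer δ' fun c => (a _).trans (by simp), a, fun f => by simp [hj, h', e]⟩
  choose d a1 b1 using fun a => key _ (hK a)
  have hall : ∀ x : Ω', x ∈ cl C (range i ∪ range j) := fun x => by
    have h1 : ∀ a, ψ a ∈ cl C (range i ∪ range j) := fun a => by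
      induction a using TensorProduct.induction_on with
      | zero => simp
      | add a b ha hb => rw [map_add]; exact add_mem ha hb
      | tmul a b =>
        rw [show a ⊗ₜ[K] b = (a ⊗ₜ[K] (1 : Ω)) * ((1 : Ω) ⊗ₜ[K] b) by simp, map_mul]
        exact mul_mem (subset_cl _ (Or.inl ⟨a, rfl⟩)) (subset_cl _ (Or.inr ⟨b, rfl⟩))
    have h2 : ∀ a : FractionRing ((Ω ⊗[K] Ω) ⧸ p),
        algebraMap _ Ω' a ∈ cl C (range i ∪ range j) := fun a => by
      obtain ⟨r, s, -, rfl⟩ := IsFractionRing.div_surjective (A := (Ω ⊗[K] Ω) ⧸ p) a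
      obtain ⟨r, rfl⟩ := Ideal.Quotient.mk_surjective r
      obtain ⟨s, rfl⟩ := Ideal.Quotient.mk_surjective s
      rw [map_div₀]
      exact div_mem (h1 r) (h1 s)
    obtain ⟨P, P0, hP⟩ := Algebra.IsAlgebraic.isAlgebraic (R := FractionRing ((Ω ⊗[K] Ω) ⧸ p)) x
    exact H88.mem_cl_of_root (p := P.map (algebraMap _ Ω'))
      ((Polynomial.map_ne_zero_iff (FaithfulSMul.algebraMap_injective _ _)).2 P0)
      (fun n => by rw [Polynomial.coeff_map]; exact h2 _)
      (by rw [Polynomial.eval_map]; exact hP)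
  obtain ⟨e', h1, h2⟩ := over_const d
  refine ⟨↥(KrS (range d)), Ω', inferInstance, closed_KrS _, inferInstance, inferInstance,
    inferInstance, inferInstance, inferInstance, inferInstance, inferInstance, e',
    { i with commutes' := fun _ => rfl },
    { j with commutes' := fun c => hK' _ (K.algebraMap_mem c) }, fun a b => ?_, h2,
    fun a f => (h1 a _).trans (a1 a f), fun a f => (h1 a _).trans (b1 a f), hK', ?_⟩
  · ext x
    rw [br_apply, h1, h1, h1, h1, ← br_apply]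
    refine Kil.cl (S := range i ∪ range j) ?_ x (hall x)
    rintro _ (⟨f, rfl⟩ | ⟨f, rfl⟩)
    · rw [br_apply, a1, a1, a1, a1, ← map_sub, ← br_apply, he]; simp
    · rw [br_apply, b1, b1, b1, b1, ← map_sub, ← br_apply, he]; simp
  · refine (sq_eq_sq_iff_eq_or_eq_neg.1 ?_).resolve_left fun c => t2 ?_
    · exact (map_pow j y 2).symm.trans ((hK' _ hy).trans (map_pow i y 2))
    · have := hφ ((hψ (1 ⊗ₜ y - y ⊗ₜ 1)).1 (by rw [map_sub]; exact sub_eq_zero.2 c))
      simpa [φ, τ', sub_eq_zero] using this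

/-- A fundamental solution of a flat linear system in a large extension. -/
theorem pvn {κ ι : Type} [Fintype ι] [DecidableEq ι] (e : κ → Der C Ω) (he : ∀ a b, ⁅e a, e b⁆ = 0)
    (a0 : κ) (A : κ → ι → ι → Ω)
    (hA : ∀ a b j k, e a (A b j k) - e b (A a j k) = ∑ r, (A a j r * A b r k - A b j r * A a r k)) :
    ∃ (C' Ω' : Type) (_ : Field C') (_ : IsAlgClosed C') (_ : Field Ω') (_ : CharZero Ω')
      (_ : IsAlgClosed Ω') (_ : Algebra C' Ω') (_ : Algebra C C') (_ : Algebra C Ω')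
      (_ : IsScalarTower C C' Ω') (e' : κ → Der C' Ω') (i : Ω →ₐ[C] Ω') (u : Matrix ι ι Ω'),
      (∀ a b, ⁅e' a, e' b⁆ = 0) ∧ (∀ f, (∀ a, e' a f = 0) → f ∈ (⊥ : IntermediateField C' Ω')) ∧
      Big C' Ω' ∧ (∀ a f, e' a (i f) = i (e a f)) ∧ u.det ≠ 0 ∧
      ∀ a k j, e' a (u k j) = -∑ r, u k r * i (A a r j) := by
  classical
  obtain ⟨Ω', _, _, _, v, hv⟩ := Pv.exists_ext Ω ((ι × ι) ⊕ ℕ)
  have : CharZero Ω' := charZero_of_injective_algebraMap (algebraMap Ω Ω').injective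
  let _ : Algebra C Ω' := ((algebraMap Ω Ω').comp (algebraMap C Ω)).toAlgebra
  have : IsScalarTower C Ω Ω' := .of_algebraMap_eq fun _ => rfl
  let i := algebraMap Ω Ω'
  choose d d1 d2 using fun a => Pv.extend hv (e a) (Sum.elim
    (fun q => -∑ r, v (.inl (q.1, r)) * i (A a r q.2)) fun n => if a = a0 then v (.inr (n + 1)) else 0)
  have ht : AlgebraicIndependent C fun n => v (.inr n) :=
    (hv.1.comp Sum.inr Sum.inr_injective).restrictScalars (algebraMap C Ω).injective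
  obtain ⟨e', h1, h2⟩ := over_const d
  refine ⟨↥(KrS (range d)), Ω', inferInstance, closed_KrS _, inferInstance, inferInstance,
    inferInstance, inferInstance, inferInstance, inferInstance, inferInstance, e',
    IsScalarTower.toAlgHom C Ω Ω', Matrix.of fun k j => v (.inl (k, j)), fun a b => ?_, h2,
    Pv.big (t := fun n => v (.inr n)) fun n => ?_, fun a f => (h1 a _).trans (d1 a f),
    Pv.det_ne (v := fun q => v (.inl q)) (hv.1.comp Sum.inl Sum.inl_injective),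
    fun a k j => (h1 a _).trans (d2 a _)⟩
  · ext x
    rw [br_apply, h1, h1, h1, h1, ← br_apply]
    refine Pv.eq_zero hv (fun g => ?_) (fun j => ?_) x
    · rw [br_apply, d1, d1, d1, d1, ← map_sub, ← br_apply, he]; simp
    · rw [br_apply, d2, d2]
      rcases j with ⟨k, j⟩ | n
      · simp only [Sum.elim_inl, map_neg, map_sum, Derivation.leibniz, smul_eq_mul, d2, i, d1]
        have h3 : ∀ r, algebraMap Ω Ω' (e a (A b r j)) = algebraMap Ω Ω' (e b (A a r j)) +
            ∑ s, (algebraMap Ω Ω' (A a r s) * algebraMap Ω Ω' (A b s j) -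
              algebraMap Ω Ω' (A b r s) * algebraMap Ω Ω' (A a s j)) := fun r => by
          rw [← sub_eq_iff_eq_add', ← map_sub, hA]; simp
        have h4 : ∀ a b : κ, ∑ r, algebraMap Ω Ω' (A b r j) *
            -∑ s, v (.inl (k, s)) * algebraMap Ω Ω' (A a s r) =
            -∑ r, v (.inl (k, r)) * ∑ s, algebraMap Ω Ω' (A a r s) * algebraMap Ω Ω' (A b s j) :=
          fun a b => by
            simp only [mul_neg, Finset.sum_neg_distrib, Finset.mul_sum, neg_inj]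
            rw [Finset.sum_comm]
            exact Finset.sum_congr rfl fun _ _ => Finset.sum_congr rfl fun _ _ => by ring
        simp only [Finset.sum_add_distrib, h4, h3, mul_add, Finset.sum_sub_distrib, mul_sub]
        ring
      · simp only [Sum.elim_inr]
        split_ifs <;> simp [*]
  · obtain ⟨φ, p1, p2, p3⟩ := Pv.shift ht (Z := d a0) (fun n => by simp [d2]) n
    exact ⟨toDer (φ.restrictScalars ℤ) fun c => p1 _ (mem_KrS.1 c.2 _ ⟨a0, rfl⟩), p2, p3⟩

section Lift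

variable {C' Ω' : Type} [Field C'] [Field Ω'] [Algebra C' Ω'] [Algebra C Ω']
  {E : Submodule Ω (Der C Ω)} {κ : Type} [Fintype κ] [DecidableEq κ] {f : κ → Ω}
  {e : κ → Der C Ω} {e' : κ → Der C' Ω'} {i : Ω →ₐ[C] Ω'}

omit [CharZero Ω] [DecidableEq κ] in
lemma lift_basis (h3 : ∀ Z ∈ E, Z = ∑ a, Z (f a) • e a) (h : ∀ a g, e' a (i g) = i (e a g))
    {θ : Der C Ω} (hθ : θ ∈ E) (g : Ω) : (∑ a, i (θ (f a)) • e' a) (i g) = i (θ g) := by
  conv_rhs => rw [h3 θ hθ]
  simp [H96.sum_apply, h]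

omit [CharZero Ω] in
lemma eq_basis (h2 : ∀ a b, e a (f b) = if a = b then 1 else 0) (h : ∀ a g, e' a (i g) = i (e a g))
    {θ : Der C' Ω'} (hθ : θ ∈ Submodule.span Ω' (range e')) : θ = ∑ a, θ (i (f a)) • e' a := by
  obtain ⟨c, rfl⟩ := (Submodule.mem_span_range_iff_exists_fun Ω').1 hθ
  simp [H96.sum_apply, h, h2, apply_ite i]

omit [CharZero Ω] in
/-- The span of the lifts of a basis is an extension of the module. -/
lemma ext_of_basis (h1 : ∀ a, e a ∈ E) (h2 : ∀ a b, e a (f b) = if a = b then 1 else 0)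
    (h3 : ∀ Z ∈ E, Z = ∑ a, Z (f a) • e a) (h : ∀ a g, e' a (i g) = i (e a g)) :
    (∀ θ ∈ E, ∃ θ' ∈ Submodule.span Ω' (range e'), ∀ g, θ' (i g) = i (θ g)) ∧
    Submodule.span Ω' (range e') ≤ Submodule.span Ω'
      {θ' | θ' ∈ Submodule.span Ω' (range e') ∧ ∃ θ ∈ E, ∀ g, θ' (i g) = i (θ g)} ∧
    ∀ θ' ∈ Submodule.span Ω' (range e'), (∀ g, θ' (i g) = 0) → θ' = 0 :=
  ⟨fun θ hθ => ⟨_, sum_mem fun a _ => Submodule.smul_mem _ _ (Submodule.subset_span ⟨a, rfl⟩),
      lift_basis h3 h hθ⟩,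
    Submodule.span_mono (by
      rintro _ ⟨a, rfl⟩
      exact ⟨Submodule.subset_span ⟨a, rfl⟩, e a, h1 a, h a⟩),
    fun θ hθ h0 => by rw [eq_basis h2 h hθ]; simp [h0]⟩

end Lift

/-- A fundamental solution of a flat linear system over an involutive module. -/
theorem pv_mod (E : Submodule Ω (Der C Ω)) (κ : Type) [Fintype κ] [DecidableEq κ]
    (A : Der C Ω →ₗ[Ω] Matrix κ κ Ω) (hE : Invl E) [FiniteDimensional Ω E] (h0 : E ≠ ⊥)
    (hA : ∀ θ ∈ E, ∀ φ ∈ E, (A φ).map θ - (A θ).map φ - A ⁅θ, φ⁆ = A θ * A φ - A φ * A θ) :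
    ∃ (C' Ω' : Type) (_ : Field C') (_ : IsAlgClosed C') (_ : Field Ω') (_ : CharZero Ω')
      (_ : IsAlgClosed Ω') (_ : Algebra C' Ω') (_ : Algebra C C') (_ : Algebra C Ω')
      (_ : IsScalarTower C C' Ω') (E' : Submodule Ω' (Der C' Ω')) (i : Ω →ₐ[C] Ω')
      (X : Matrix κ κ Ω'), Invl E' ∧
      (∀ f, (∀ θ ∈ E', θ f = 0) → f ∈ (⊥ : IntermediateField C' Ω')) ∧ Big C' Ω' ∧
      ((∀ θ ∈ E, ∃ θ' ∈ E', ∀ g, θ' (i g) = i (θ g)) ∧
        E' ≤ Submodule.span Ω' {θ' | θ' ∈ E' ∧ ∃ θ ∈ E, ∀ g, θ' (i g) = i (θ g)} ∧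
        ∀ θ' ∈ E', (∀ g, θ' (i g) = 0) → θ' = 0) ∧ X.det ≠ 0 ∧
      ∀ θ ∈ E, ∀ θ' ∈ E', (∀ f, θ' (i f) = i (θ f)) → X.map θ' = -(X * (A θ).map i) := by
  obtain ⟨N, f, e, -, h1, h2, h3⟩ := basis0 E (S := univ) fun Z _ h => by ext x; exact h x trivial
  have hc := dual_comm hE h1 h2 h3
  obtain ⟨a0⟩ : Nonempty (Fin N) := by
    by_contra h
    rw [not_nonempty_iff] at h
    exact h0 ((Submodule.eq_bot_iff _).2 fun Z hZ => by rw [h3 Z hZ]; simp)
  obtain ⟨C', Ω', _, _, _, _, _, _, _, _, _, e', i, X, p1, p2, p3, p4, p5, p6⟩ :=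
    pvn e hc a0 (fun a => A (e a)) fun a b j k => by
      have := congrFun (congrFun (hA _ (h1 a) _ (h1 b)) j) k
      simpa [hc, Matrix.mul_apply, Finset.sum_sub_distrib] using this
  refine ⟨C', Ω', inferInstance, inferInstance, inferInstance, inferInstance, inferInstance,
    inferInstance, inferInstance, inferInstance, inferInstance, Submodule.span Ω' (range e'), i, X,
    invl_of_comm p1, fun g hg => p2 g fun a => hg _ (Submodule.subset_span ⟨a, rfl⟩), p3,
    ext_of_basis h1 h2 h3 p4, p5, fun θ hθ θ' hθ' h => ?_⟩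
  ext k j
  rw [eq_basis h2 p4 hθ']
  conv_rhs => rw [h3 θ hθ]
  simp only [Matrix.map_apply, H96.sum_apply, Derivation.smul_apply, p6, h, smul_eq_mul, map_sum,
    map_smul, Matrix.neg_apply, Matrix.mul_apply, Matrix.sum_apply, Matrix.smul_apply, map_mul,
    mul_neg, Finset.sum_neg_distrib, Finset.mul_sum, neg_inj]
  rw [Finset.sum_comm]
  exact Finset.sum_congr rfl fun _ _ => Finset.sum_congr rfl fun _ _ => by ring

section Val

variable {V : ValuationSubring Ω} {F : IntermediateField C Ω} {π : Ω} {ζ : Der C Ω}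

omit [CharZero Ω] in
lemma val_one (h : ∀ a ∈ F, a ∈ V) {a : Ω} (ha : a ∈ F) (a0 : a ≠ 0) : V.valuation a = 1 := by
  refine le_antisymm ((V.valuation_le_one_iff _).2 (h a ha)) ?_
  have := (V.valuation_le_one_iff _).2 (h _ (inv_mem ha))
  rwa [map_inv₀, inv_le_one₀ (zero_lt_iff.2 ((map_ne_zero V.valuation).2 a0))] at this

omit [CharZero Ω] in
/-- A field inside a valuation ring has its algebraic closure there. -/
lemma cl_val (h : ∀ a ∈ F, a ∈ V) {a : Ω} (ha : a ∈ cl C (F : Set Ω)) : a ∈ V :=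
  H17.Fra.val_int V (fun r : F => h r r.2) (H17.mem_cl_iff.1 ha).isIntegral

omit [CharZero Ω] in
lemma poly_split (hF : ∀ a ∈ F, a ∈ V) (hπ : V.valuation π < 1) (h1 : ∀ a ∈ F, ζ a ∈ V)
    (h2 : ζ π ∈ V) {p : Polynomial F} (hp : p ≠ 0) :
    ∃ (n : ℕ) (a : Ω), Polynomial.aeval π p = π ^ n * a ∧ V.valuation a = 1 ∧ ζ a ∈ V := by
  have hV : π ∈ V := (V.valuation_le_one_iff _).1 hπ.le
  obtain ⟨q, e, h3⟩ := Polynomial.exists_eq_pow_rootMultiplicity_mul_and_not_dvd p hp 0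
  rw [Polynomial.C_0, sub_zero] at e h3
  refine ⟨p.rootMultiplicity 0, Polynomial.aeval π q, by
    conv_lhs => rw [e, map_mul, map_pow, Polynomial.aeval_X], ?_, ?_⟩
  · have c1 := val_one hF (q.coeff 0).2 fun h => h3 (Polynomial.X_dvd_iff.2 (Subtype.ext h))
    have c2 := H17.Fra.aeval_val V (fun r : F => hF r r.2) hV q.divX
    rw [← q.divX_mul_X_add, map_add, map_mul, Polynomial.aeval_X, Polynomial.aeval_C, ← c1]
    refine V.valuation.map_add_eq_of_lt_right ?_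
    rw [map_mul]
    exact (mul_lt_one_of_nonneg_of_lt_one_right ((V.valuation_le_one_iff _).2 c2) zero_le
      hπ).trans_eq c1.symm
  · rw [Polynomial.aeval_eq_sum_range, map_sum]
    refine sum_mem fun i _ => ?_
    rw [IntermediateField.smul_def, smul_eq_mul, ζ.leibniz, ζ.leibniz_pow]
    exact add_mem (mul_mem (hF _ (q.coeff i).2) (nsmul_mem (mul_mem (pow_mem hV _) h2) _))
      (mul_mem (pow_mem hV _) (h1 _ (q.coeff i).2))

/-- The constants of a transversal derivation are integral. -/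
theorem trv (hF : ∀ a ∈ F, a ∈ V) (hπ : V.valuation π < 1) (h1 : ∀ a ∈ F, ζ a ∈ V)
    (h2 : V.valuation (ζ π) = 1) (h3 : Pres (F ⊔ C⟮π⟯) ζ) {g : Ω}
    (hg : g ∈ cl C ((F : Set Ω) ∪ {π})) (h0 : ζ g = 0) : g ∈ V := by
  have le := fun y => V.valuation_le_one_iff y
  have π0 : π ≠ 0 := fun h => by simp [h] at h2
  have hk : ∀ f ∈ (F ⊔ C⟮π⟯) ⊓ Kr ζ, f ∈ V := by
    rintro f ⟨hf, f0⟩
    rw [← restrictScalars_adjoin_eq_sup] at hf
    obtain ⟨p, q, rfl⟩ := (mem_adjoin_simple_iff F f).1 hf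
    rcases eq_or_ne p 0 with rfl | hp
    · simp
    rcases eq_or_ne q 0 with rfl | hq
    · simp
    obtain ⟨n, a, e1, a1, a2⟩ := poly_split hF hπ h1 ((le _).1 h2.le) hp
    obtain ⟨m, b, e2, b1, b2⟩ := poly_split hF hπ h1 ((le _).1 h2.le) hq
    have a0 : a ≠ 0 := fun h => by simp [h] at a1
    have b0 : b ≠ 0 := fun h => by simp [h] at b1
    have hp : ∀ k : ℕ, ζ (π ^ k) = k * π ^ k * ζ π / π := fun k => by
      rw [ζ.leibniz_pow]
      cases k with
      | zero => simp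
      | succ k => simp [pow_succ]; field_simp
    have e : ((n : Ω) - m) * (ζ π * a * b) = π * (a * ζ b - b * ζ a) := by
      have f1 : ζ (π ^ n * a / (π ^ m * b)) = 0 := e1 ▸ e2 ▸ f0
      simp only [div_eq_mul_inv, Derivation.leibniz, Derivation.leibniz_inv, smul_eq_mul, hp] at f1
      field_simp at f1
      have := mul_eq_zero.1 (show π ^ n * (((n : Ω) - m) * (ζ π * a * b) -
        π * (a * ζ b - b * ζ a)) = 0 by linear_combination f1)
      exact sub_eq_zero.1 (this.resolve_left (pow_ne_zero _ π0))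
    have hnm : (n : Ω) - m = 0 := by
      by_contra hn
      have := congrArg V.valuation e
      rw [map_mul, map_mul, map_mul, map_mul, h2, a1, b1,
        val_one hF (sub_mem (F.natCast_mem _) (F.natCast_mem _)) hn] at this
      have h4 := (le _).2 (sub_mem (mul_mem ((le _).1 a1.le) b2) (mul_mem ((le _).1 b1.le) a2))
      simp only [mul_one] at this
      exact (mul_lt_one_of_nonneg_of_lt_one_left zero_le hπ h4).ne this.symm
    obtain rfl : n = m := Nat.cast_injective (sub_eq_zero.1 hnm)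
    rw [e1, e2, mul_div_mul_left _ _ (pow_ne_zero _ π0), ← le, map_div₀, a1, b1, div_one]
  have := (ind_of_der h3 (K0 := ((F ⊔ C⟮π⟯) ⊓ Kr ζ : IntermediateField C Ω))
    fun f hf f0 => subset_cl _ ⟨hf, f0⟩).mem_cl (empty_subset _) h0 (cl_mono (by
      rw [union_empty]
      exact union_subset (fun x hx => (le_sup_left : F ≤ F ⊔ C⟮π⟯) hx) (by
        rintro _ rfl
        exact (le_sup_right : C⟮_⟯ ≤ F ⊔ C⟮_⟯) (mem_adjoin_simple_self _ _))) hg)
  rw [union_empty] at this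
  exact cl_val hk this

/-- A place that is trivial on `S` and on the constants of all transversal derivations. -/
theorem trv_place (S : Set Ω) (π : Ω) (h : π ∉ cl C S) :
    ∃ V : ValuationSubring Ω, (∀ f ∈ cl C S, f ∈ V) ∧ V.valuation π < 1 ∧ ∀ ζ : Der C Ω,
      (∀ s ∈ S, ζ s ∈ Algebra.adjoin (cl C S) {π}) →
      (∃ a ∈ cl C S, a ≠ 0 ∧ ∃ b ∈ Algebra.adjoin (cl C S) {π}, ζ π = a + π * b) →
      ∀ f ∈ cl C (insert π S), ζ f = 0 → f ∈ V := by
  obtain ⟨V, h1, h2⟩ := Alg.exists_val h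
  have le := fun y => V.valuation_le_one_iff y
  have hF : ∀ f ∈ cl C S, f ∈ V := fun f hf => (le _).1 (h1 f hf)
  refine ⟨V, hF, h2, fun ζ z1 ⟨a, ha, a0, b, hb, e⟩ f hf f0 => ?_⟩
  have hA : ∀ x ∈ Algebra.adjoin (cl C S) {π}, x ∈ V ∧ x ∈ cl C S ⊔ C⟮π⟯ := fun x hx => by
    rw [Algebra.adjoin_singleton_eq_range_aeval] at hx
    obtain ⟨p, rfl⟩ := hx
    refine ⟨H17.Fra.aeval_val V (fun r : cl C S => hF r r.2) ((le _).1 h2.le) p, ?_⟩
    rw [← restrictScalars_adjoin_eq_sup]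
    exact IntermediateField.algebra_adjoin_le_adjoin (cl C S) {π}
      (Polynomial.aeval_mem_adjoin_singleton _ _)
  have z2 : ∀ g ∈ cl C S, ζ g ∈ Algebra.adjoin (cl C S) {π} := fun g hg => by
    obtain ⟨T, t1, t2, t3⟩ := H17.exists_finite_cl hg
    obtain ⟨n, v, d, v1, -, v3, -, v5⟩ := exists_dual (cl_cl (C := C) S) ⊥ bot_le t2 (t1.trans (subset_cl _))
    rw [v5 ζ (by rintro _ ⟨c, rfl⟩; exact ζ.map_algebraMap c) g (cl_mono subset_union_right t3),
      H96.sum_apply]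
    exact sum_mem fun i _ => mul_mem (z1 _ (t1 (v1 i)))
      (Subalgebra.algebraMap_mem _ (⟨_, (v3 i).1 g hg⟩ : cl C S))
  have hπ : π ∈ cl C S ⊔ C⟮π⟯ := (le_sup_right : C⟮π⟯ ≤ _) (mem_adjoin_simple_self _ _)
  refine trv hF h2 (fun g hg => (hA _ (z2 g hg)).1) ?_ (fun g hg => ?_)
    (cl_mono (by rw [union_singleton]; exact insert_subset_insert (subset_cl _)) hf) f0
  · rw [e, ← val_one hF ha a0]
    refine V.valuation.map_add_eq_of_lt_left ?_
    rw [val_one hF ha a0, map_mul]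
    exact mul_lt_one_of_nonneg_of_lt_one_left zero_le h2 ((le _).2 (hA b hb).1)
  · refine ((sup_le (fun x hx => ⟨(le_sup_left : cl C S ≤ _) hx, (hA _ (z2 x hx)).2⟩)
      (adjoin_simple_le_iff.2 ⟨hπ, ?_⟩) : cl C S ⊔ C⟮π⟯ ≤ H17.St ζ (cl C S ⊔ C⟮π⟯)) hg).2
    rw [e]
    exact add_mem ((le_sup_left : cl C S ≤ _) ha) (mul_mem hπ (hA b hb).2)

end Val

end Pool.Agent.MP_249f74_an.H2
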