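import Pool.Agent.MP_249f74_an.H2.Db4
import Pool.Agent.MP_249f74_an.H74.Core

/-!
The row `DB4`.
-/

namespace Pool.Agent.MP_249f74_an.H2.Db

/-- The row `DB4`. -/
theorem row (C : Type) [Field C] [IsAlgClosed C] : H74.DB4 C :=
  fun _ _ _ _ _ _ _ e T H ν y h4 he => db4 h4 e he T H ν y

end Pool.Agent.MP_249f74_an.H2.Db
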