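import Pool.Agent.MP_249f74_an.H2.Calc3
import Pool.Agent.MP_249f74_an.H90.Spec

/-!
Fundamental solutions and transversal derivations.
-/

namespace Pool.Agent.MP_249f74_an.H2

open H90

theorem pv : StmtPV := by
  intro C Ω κ _ _ _ _ _ _ E A hE _ h0 hA
  obtain ⟨C', Ω', _, _, _, _, _, _, _, _, _, E', i, X, p1, p2, p3, p4, p5, p6⟩ :=
    pv_mod E κ A hE.br h0 hA
  exact ⟨C', Ω', inferInstance, inferInstance, inferInstance, inferInstance, inferInstance,
    inferInstance, inferInstance, inferInstance, inferInstance, E', i, X, ⟨p1, p2⟩, p3,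
    ⟨p4.1, p4.2.1, p4.2.2⟩, p5, p6⟩

theorem trvS : StmtTRV := fun _ _ _ _ _ _ S π h => trv_place S π h

end Pool.Agent.MP_249f74_an.H2
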