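import Pool.Agent.MP_249f74_an.H2.RedCore
import Pool.Agent.MP_249f74_an.H90.Spec

/-!
Focusing pairs cancel.
-/

open Set IntermediateField

namespace Pool.Agent.MP_249f74_an.H2

open H17 (Der Kr mem_Kr)
open H96 (Pres)
open H90

namespace Red

variable {C Ω ι : Type} [Field C] [Field Ω] [Algebra C Ω] [Fintype ι] {E : Submodule Ω (Der C Ω)}

lemma ln_ext {m m' : Pt E ι} {l l' : Ln E ι} (h : On m l) (h' : On m' l') (hq : m.q = m'.q)
    (hu : l.u = l'.u) : l = l' := by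
  have hx : l.x = l'.x := by rw [h.x_eq, h'.x_eq, hq, hu]
  cases l; cases l'
  congr

lemma q_dot [CharZero Ω] {m : Pt E ι} {l : Ln E ι} (h : On m l) (θ : Der C Ω) :
    m.q ⬝ᵥ dv l.u θ = l.x ⬝ᵥ dv l.u θ := by
  rw [h.x_eq, sub_dotProduct, smul_dotProduct, dotProduct_comm l.u, unit_dot l.uu]; simp

/-- Concatenation of chains. -/
lemma cat {m1 m2 : ℕ → Pt E ι} {l1 l2 : ℕ → Ln E ι} {p s t : ℕ} (h1 : Ch m1 l1 0 p)
    (h2 : Ch m2 l2 s t) (hs : s ≤ t) (e : l1 p = l2 s) {P : Pt E ι → Prop} (p1 : ∀ r < p, P (m1 r))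
    (p2 : ∀ r < t, P (m2 r)) :
    ∃ (m : ℕ → Pt E ι) (l : ℕ → Ln E ι), Ch m l 0 (p + (t - s)) ∧ l 0 = l1 0 ∧
      l (p + (t - s)) = l2 t ∧ del m l 0 (p + (t - s)) = del m1 l1 0 p + del m2 l2 s t ∧
      ∀ r < p + (t - s), P (m r) := by
  let m : ℕ → Pt E ι := fun r => if r < p then m1 r else m2 (r - p + s)
  let l : ℕ → Ln E ι := fun r => if r < p then l1 r else l2 (r - p + s)
  have a1 : ∀ r ≤ p, l r = l1 r := fun r hr => by
    rcases hr.lt_or_eq with h | rfl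
    · exact if_pos h
    · simp [l, e]
  have a2 : ∀ r, l (p + r) = l2 (s + r) := fun r => by simp [l, add_comm]
  have a3 : ∀ r, m (p + r) = m2 (s + r) := fun r => by simp [m, add_comm]
  refine ⟨m, l, fun r _ hr => ?_, a1 0 p.zero_le, by rw [a2, Nat.add_sub_cancel' hs], ?_,
    fun r hr => ?_⟩
  · rcases lt_or_ge r p with h | h
    · rw [a1 r h.le, a1 _ h, show m r = m1 r from if_pos h]
      exact h1 r r.zero_le h
    · obtain ⟨r, rfl⟩ := Nat.exists_eq_add_of_le h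
      rw [add_assoc, a2, a2, a3]
      exact h2 _ (by omega) (by omega)
  · rw [del_split p.zero_le (Nat.le_add_right p _)]
    congr 1
    · exact Finset.sum_congr rfl fun r hr => by
        have h := (Finset.mem_Ico.1 hr).2
        rw [a1 r h.le, a1 _ h, show m r = m1 r from if_pos h]
    · simp only [del, Finset.sum_Ico_eq_sum_range, Nat.add_sub_cancel_left, add_assoc, a2, a3]
  · rcases lt_or_ge r p with h | h
    · exact (show m r = m1 r from if_pos h) ▸ p1 r h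
    · obtain ⟨r, rfl⟩ := Nat.exists_eq_add_of_le h
      exact a3 r ▸ p2 _ (by omega)

end Red

open Red

theorem red : StmtRED := by
  intro C Ω ι _ _ _ _ _ _ E m l n a b hE hc hy hab hb hg
  have ra := hc a a.zero_le (hab.trans hb)
  have rb := hc b b.zero_le hb
  have hW : Ch m l (a + 1) b := hc.mono (Nat.zero_le _) hb.le
  obtain ⟨κ, _, _, f, e, K, ξ, j0, δ, g1, g2, g3, g4, da, db, k0, k1, k2, x1, x2, x3, z0, k3, δv⟩ :=
    red_field hE ra.on' rb.on (fun θ h φ h' => (hW.sym_eq hE h h' hab le_rfl).symm) hg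
  obtain ⟨C', Ω', _, _, _, _, _, _, _, _, _, e', i, j, c1, c2, c3, c4, c5, c6⟩ :=
    amal e (dual_comm hE.br g1 g2 g3) K g4 k1 k2
  have hi : Ext i E (Submodule.span Ω' (range e')) :=
    let h := ext_of_basis g1 g2 g3 c3; ⟨h.1, h.2.1, h.2.2⟩
  have hj : Ext j E (Submodule.span Ω' (range e')) :=
    let h := ext_of_basis g1 g2 g3 c4; ⟨h.1, h.2.1, h.2.2⟩
  have fx : ∀ v : ι → Ω, dv v δ = 0 → j ∘ v = i ∘ v := fun v h =>
    funext fun s => c5 _ (k0 (congrFun h s))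
  have qa := fx _ da.2
  have qb := fx _ db.2
  have νa := fx _ ((m a).nu_D hE da)
  have νb := fx _ ((m b).nu_D hE db)
  have hξ := fx _ x2
  obtain ⟨y, hy'⟩ : ∃ y, y = (m b).ν ⬝ᵥ (l b).u := ⟨_, rfl⟩
  rw [← hy'] at k1 k2 δv c6
  obtain ⟨w, hw⟩ : ∃ w, w = (l b).u - y • (m b).ν := ⟨_, rfl⟩
  rw [← hw] at δv
  have w1 : j ∘ w = i ∘ w + (j (w j0) - i (w j0)) • i ∘ ξ := funext fun s => by
    have := c5 (w s - w j0 * ξ s) (k0 (by
      rw [mem_Kr, map_sub, Derivation.leibniz, show δ (w s) = _ from congrFun δv s,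
        show δ (w j0) = _ from congrFun δv j0, show δ (ξ s) = _ from congrFun x2 s]
      simp [x1, mul_comm]))
    rw [map_sub, map_sub, map_mul, map_mul, show j (ξ s) = i (ξ s) from congrFun hξ s] at this
    simp only [Function.comp_apply, Pi.add_apply, Pi.smul_apply, smul_eq_mul]
    linear_combination this
  have w2 : ξ ⬝ᵥ w = ξ ⬝ᵥ (l b).u := by simp [hw, dotProduct_comm ξ (m b).ν, x3]
  have w3 : w ⬝ᵥ w = 1 - y ^ 2 := by
    simp only [hw, sub_dotProduct, dotProduct_sub, smul_dotProduct, dotProduct_smul, (l b).uu,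
      (m b).νν, dotProduct_comm (l b).u (m b).ν, ← hy', smul_eq_mul]
    ring
  have w4 : j ∘ w = i ∘ w := by
    generalize j (w j0) - i (w j0) = β at w1
    have s1 := c5 _ (w2 ▸ k3)
    have s2 := c5 _ (w3 ▸ sub_mem (one_mem _) k1)
    rw [← map_dot, ← map_dot, hξ, w1] at s1
    rw [← map_dot, ← map_dot, w1] at s2
    simp only [dotProduct_add, add_dotProduct, dotProduct_smul, smul_dotProduct, smul_eq_mul,
      dotProduct_comm (i ∘ w) (i ∘ ξ)] at s1 s2
    have s3 : β * ((i ∘ ξ) ⬝ᵥ (i ∘ w)) = 0 := by linear_combination (s2 - β * s1) / 2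
    rw [map_dot, w2, mul_eq_zero, or_iff_left ((map_ne_zero i).2 z0)] at s3
    rw [w1, s3, zero_smul, add_zero]
  have ub : j ∘ (l b).u = i ∘ (l (b + 1)).u := funext fun s => by
    have t1 := congrFun w4 s
    have t2 := congrFun νb s
    simp only [hw, Function.comp_apply, Pi.sub_apply, Pi.smul_apply, smul_eq_mul, map_sub, map_mul,
      c6] at t1 t2
    simp only [rb.eq, ← hy', Function.comp_apply, Pi.sub_apply, Pi.smul_apply, smul_eq_mul, map_sub,
      map_mul, map_ofNat]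
    linear_combination t1 - i y * t2
  obtain ⟨Λ, hΛ⟩ : ∃ Λ, Λ = del m l (a + 1) b + (m b).q ⬝ᵥ (l b).u - (m a).q ⬝ᵥ (l (a + 1)).u :=
    ⟨_, rfl⟩
  have dΛ : ∀ Z ∈ E, Z Λ = (l b).u ⬝ᵥ dv (m b).q Z - (l (a + 1)).u ⬝ᵥ dv (m a).q Z := fun Z hZ => by
    rw [hΛ, map_sub, map_add, hW.ddel hab, dv_dot, dv_dot, q_dot ra.on', q_dot rb.on,
      dotProduct_comm (l b).u, dotProduct_comm (l (a + 1)).u]
    simp only [fun r => (m r).tan Z hZ, mul_zero, Finset.sum_const_zero]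
    ring
  have Λ0 : Λ ∈ K := k0 (by
    rw [mem_Kr, dΛ δ da.1, show dv (m a).q δ = 0 from da.2, show dv (m b).q δ = 0 from db.2]; simp)
  have ua : j ∘ (l (a + 1)).u = i ∘ (l (a + 1)).u ∨ j ∘ (l (a + 1)).u = i ∘ (l a).u := by
    have t1 := par ((m a).map hi).νν (g := j ∘ (l (a + 1)).u - i ∘ (l (a + 1)).u) fun v hv => by
      obtain ⟨θ, h1, rfl⟩ := ((m a).map hi).surj v hv
      refine (Submodule.span_le (p := LinearMap.ker ((dotProductBilin Ω' Ω'
        (j ∘ (l (a + 1)).u - i ∘ (l (a + 1)).u)).comp (dv ((m a).map hi).q)))).2 ?_ h1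
      rintro _ ⟨α, rfl⟩
      have s1 := c5 _ (g4 α Λ Λ0)
      have s2 : j ∘ dv (m a).q (e α) = i ∘ dv (m a).q (e α) :=
        funext fun s => c5 _ (g4 α _ (k0 (congrFun da.2 s)))
      have s3 : j ∘ dv (m b).q (e α) = i ∘ dv (m b).q (e α) :=
        funext fun s => c5 _ (g4 α _ (k0 (congrFun db.2 s)))
      rw [dΛ _ (g1 α), map_sub, map_sub, ← map_dot, ← map_dot j, s2, s3, ub, map_dot, rb.eq,
        sub_dotProduct, smul_dotProduct, (m b).tan _ (g1 α), smul_zero, sub_zero,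
        sub_right_inj] at s1
      change (j ∘ (l (a + 1)).u - i ∘ (l (a + 1)).u) ⬝ᵥ dv (i ∘ (m a).q) (e' α) = 0
      rw [dv_lift (c3 α), sub_dotProduct, s1, map_dot, sub_self]
    generalize (j ∘ (l (a + 1)).u - i ∘ (l (a + 1)).u) ⬝ᵥ ((m a).map hi).ν = β at t1
    rw [sub_eq_iff_eq_add, Pt.map_ν] at t1
    have t2 := ((l (a + 1)).map hj).uu
    rw [Ln.map_u, t1] at t2
    simp only [dotProduct_add, add_dotProduct, dotProduct_smul, smul_dotProduct, smul_eq_mul,
      map_dot, (l (a + 1)).uu, (m a).νν, map_one, dotProduct_comm (l (a + 1)).u (m a).ν] at t2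
    rcases mul_eq_zero.1 (show β * (β + 2 * i ((m a).ν ⬝ᵥ (l (a + 1)).u)) = 0 by
      linear_combination t2) with h | h
    · exact Or.inl (by rw [t1, h, zero_smul, zero_add])
    · refine Or.inr (t1.trans (funext fun s => ?_))
      simp only [ra.symm.eq, Function.comp_apply, Pi.sub_apply, Pi.add_apply, Pi.smul_apply,
        smul_eq_mul, map_sub, map_mul, map_ofNat]
      linear_combination i ((m a).ν s) * h
  have lb : (l b).map hj = (l (b + 1)).map hi := ln_ext (rb.on.map hj) (rb.on'.map hi) qb ub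
  have hd : j (del m l (a + 1) b) = i (del m l (a + 1) b) + i ((m b).q ⬝ᵥ ((l b).u - (l (b + 1)).u))
      + (i ∘ (m a).q) ⬝ᵥ (j ∘ (l (a + 1)).u - i ∘ (l (a + 1)).u) := by
    have := c5 Λ Λ0
    rw [hΛ, map_sub, map_add, map_sub, map_add, ← map_dot j, ← map_dot j, qa, qb, ub,
      map_dot] at this
    rw [dotProduct_sub, dotProduct_sub, map_dot, map_sub]
    linear_combination this
  have key : ∀ p ≤ a + 1, (l p).map hi = (l (a + 1)).map hj →
      i (del m l 0 p) + (i ∘ (m a).q) ⬝ᵥ (j ∘ (l (a + 1)).u - i ∘ (l (a + 1)).u) =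
        i (del m l 0 (a + 1)) →
      ∃ (m' : ℕ → Pt (Submodule.span Ω' (range e')) ι)
        (l' : ℕ → Ln (Submodule.span Ω' (range e')) ι) (n' : ℕ) (i0 : Ω →ₐ[C] Ω'),
        n' < n ∧ Amb (Submodule.span Ω' (range e')) ∧ Ch m' l' 0 n' ∧ Cyc l' n' ∧
        del m' l' 0 n' = i0 (del m l 0 n) ∧ ∀ r < n', ∃ s < n, ∃ i : Ω →ₐ[C] Ω',
          Ext i E (Submodule.span Ω' (range e')) ∧ (m' r).q = i ∘ (m s).q := fun p hp e1 e2 => by
    obtain ⟨m1, l1, r1, r2, r3, r4, r5⟩ := cat ((hc.mono le_rfl (show p ≤ n by omega)).map hi)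
      (hW.map hj) hab e1 (P := fun x => ∃ s < n, ∃ i : Ω →ₐ[C] Ω',
        Ext i E (Submodule.span Ω' (range e')) ∧ x.q = i ∘ (m s).q)
      (fun r hr => ⟨r, by omega, i, hi, rfl⟩) fun r hr => ⟨r, by omega, j, hj, rfl⟩
    obtain ⟨m2, l2, s1, s2, s3, s4, s5⟩ := cat r1 ((hc.mono (b + 1).zero_le le_rfl).map hi) hb
      (r3.trans lb) (P := fun x => ∃ s < n, ∃ i : Ω →ₐ[C] Ω',
        Ext i E (Submodule.span Ω' (range e')) ∧ x.q = i ∘ (m s).q) r5
      fun r hr => ⟨r, hr, i, hi, rfl⟩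
    refine ⟨m2, l2, _, i, by omega, ⟨invl_of_comm c1, fun g hg => c2 g fun α =>
      hg _ (Submodule.subset_span ⟨α, rfl⟩)⟩, s1, ?_, ?_, s5⟩
    · rw [Cyc, s3, s2, r2]
      exact ⟨congrArg (i ∘ ·) hy.1, congrArg (i ∘ ·) hy.2⟩
    · rw [s4, r4, del_map, del_map, del_map, hd, del_split (Nat.zero_le (a + 1)) (hab.trans hb),
        del_split hab hb.le, del_split b.le_succ hb, del_one, map_add, map_add, map_add, ← e2]
      ring
  refine ⟨C', Ω', inferInstance, inferInstance, inferInstance, inferInstance, inferInstance,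
    inferInstance, inferInstance, inferInstance, inferInstance, Submodule.span Ω' (range e'),
    ua.elim (fun h => ?_) fun h => ?_⟩
  · exact key _ le_rfl (ln_ext (ra.on'.map hi) (ra.on'.map hj) qa.symm h.symm) (by simp [h])
  · refine key a a.le_succ (ln_ext (ra.on.map hi) (ra.on'.map hj) qa.symm h.symm) ?_
    rw [del_split a.zero_le a.le_succ, del_one, map_add, h, dotProduct_sub, dotProduct_sub,
      map_dot, map_dot, map_sub]

end Pool.Agent.MP_249f74_an.H2
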