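import Pool.Agent.MP_249f74_an.H2.Calc3
import Pool.Agent.MP_249f74_an.H90.Geo

/-!
Two mirrors with a common characteristic direction: construction of a conjugate configuration.
-/

open Set IntermediateField

namespace Pool.Agent.MP_249f74_an.H2

open H17 (Der Kr mem_Kr cl_le cl_mono)
open H88 (cl subset_cl)
open H96 (Kil Agr Pres br_apply not_mem_cl cl_Kr)
open H90

variable {C Ω ι : Type} [Field C] [Field Ω] [Algebra C Ω]

namespace Red

/-- A separable quadratic expression in a transcendental element is not a square. -/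
lemma nsq2 {M : Type} [Field M] [CharZero M] [Algebra M Ω] {t y : Ω} {r e : M}
    (ht : Transcendental M t) (hr : r ≠ 0) (he : e ≠ 0)
    (h : algebraMap M Ω e * y ^ 2 = algebraMap M Ω r ^ 2 - t ^ 2) : y ∉ adjoin M {t} := fun hy => by
  open Polynomial in
  obtain ⟨p, q, hpq⟩ := (mem_adjoin_simple_iff M y).1 hy
  have y0 : y ≠ 0 := fun h0 => ht ⟨Polynomial.C r ^ 2 - X ^ 2, fun h1 => by
    simpa [hr] using congrArg (eval 0) h1, by simpa [h0] using h.symm⟩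
  have q0 : aeval t q ≠ 0 := fun h => y0 (by simp [hpq, h])
  have p0 : p ≠ 0 := fun h => y0 (by simp [hpq, h])
  have q1 : q ≠ 0 := fun h => q0 (by simp [h])
  have h1 : Polynomial.C e * (p * p) = -(X + Polynomial.C r) * ((X - Polynomial.C r) * (q * q)) :=
    transcendental_iff_injective.1 ht (by
      simp only [map_mul, map_neg, map_add, map_sub, aeval_C, aeval_X]
      rw [hpq, div_pow, ← mul_div_assoc, div_eq_iff (pow_ne_zero _ q0)] at h
      linear_combination h)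
  have h2 := congrArg (rootMultiplicity r) h1
  have x0 : (X - Polynomial.C r) * (q * q) ≠ 0 := mul_ne_zero (X_sub_C_ne_zero r) (mul_ne_zero q1 q1)
  rw [rootMultiplicity_mul (mul_ne_zero (C_ne_zero.2 he) (mul_ne_zero p0 p0)),
    rootMultiplicity_mul (mul_ne_zero (neg_ne_zero.2 (X_add_C_ne_zero r)) x0),
    rootMultiplicity_mul x0, rootMultiplicity_mul (mul_ne_zero p0 p0),
    rootMultiplicity_mul (mul_ne_zero q1 q1), rootMultiplicity_C, rootMultiplicity_X_sub_C_self,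
    rootMultiplicity_eq_zero (p := -(X + Polynomial.C r)) (by simp [← two_mul, hr])] at h2
  omega

variable [Fintype ι] {E : Submodule Ω (Der C Ω)}

/-- A characteristic direction. -/
lemma exists_xi [CharZero Ω] {ma mb : Pt E ι} (hg : ¬Gen mb ma) :
    ∃ (ξ : ι → Ω) (j : ι), ξ j = 1 ∧ (∀ ζ ∈ mb.D, dv ξ ζ = 0) ∧ mb.ν ⬝ᵥ ξ = 0 ∧
      ∀ θ ∈ ma.D, ξ ⬝ᵥ dv mb.q θ = 0 := by
  classical
  simp only [Gen, not_forall] at hg
  obtain ⟨W, w1, w2, w3, w4⟩ := hg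
  obtain ⟨f, f0, f1⟩ := W.exists_le_ker_of_lt_top (lt_top_iff_ne_top.2 w4)
  let W' : Submodule Ω (ι → Ω) :=
    { carrier := {g | ∀ w ∈ W, g ⬝ᵥ w = 0}
      zero_mem' := fun _ _ => zero_dotProduct _
      add_mem' := fun ha hb w hw => by rw [add_dotProduct, ha w hw, hb w hw, add_zero]
      smul_mem' := fun a _ ha w hw => by rw [smul_dotProduct, ha w hw, smul_zero] }
  have e : ∀ w, f w = (fun j => f (Pi.single j 1)) ⬝ᵥ w := fun w => by
    rw [LinearMap.pi_apply_eq_sum_univ]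
    exact Finset.sum_congr rfl fun j _ => by
      rw [smul_eq_mul, mul_comm]; congr 2; ext; simp [Pi.single_apply, eq_comm]
  obtain ⟨ξ, x1, ⟨j, x2⟩, x3⟩ := exists_const (Δ := (mb.D : Set (Der C Ω))) (W := W')
    (fun ζ hζ g hg w hw => by
      have := dv_dot g w ζ
      rw [hg w hw, map_zero, hg _ (w1 ζ hζ w hw), add_zero] at this
      exact this.symm)
    (w := fun j => f (Pi.single j 1)) (fun w hw => (e w).symm.trans (f1 hw))
    fun h => f0 (LinearMap.ext fun w => by rw [e, h, zero_dotProduct]; rfl)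
  exact ⟨ξ, j, x2, fun ζ hζ => funext fun i => mem_KrS.1 (x3 i) ζ hζ,
    (dotProduct_comm _ _).trans (x1 _ w2), fun θ hθ => x1 _ (w3 θ hθ)⟩

end Red

open Red

variable [Fintype ι] {E : Submodule Ω (Der C Ω)}

/-- The field over which the two configurations are glued. -/
lemma red_field [CharZero Ω] [IsAlgClosed Ω] (hE : Amb E) {ma mb : Pt E ι} {la lb : Ln E ι}
    (ha : On ma la) (hb : On mb lb) (hs : ∀ θ ∈ E, ∀ φ ∈ E, la.sym θ φ = lb.sym θ φ)
    (hg : ¬Gen mb ma) :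
    ∃ (κ : Type) (_ : Fintype κ) (_ : DecidableEq κ) (f : κ → Ω) (e : κ → Der C Ω)
      (K : IntermediateField C Ω) (ξ : ι → Ω) (j : ι) (δ : Der C Ω),
      (∀ a, e a ∈ E) ∧ (∀ a b, e a (f b) = if a = b then 1 else 0) ∧
      (∀ Z ∈ E, Z = ∑ a, Z (f a) • e a) ∧ (∀ a, Pres K (e a)) ∧ δ ∈ ma.D ∧ δ ∈ mb.D ∧ Kr δ ≤ K ∧
      (mb.ν ⬝ᵥ lb.u) ^ 2 ∈ K ∧ mb.ν ⬝ᵥ lb.u ∉ K ∧ ξ j = 1 ∧ dv ξ δ = 0 ∧ mb.ν ⬝ᵥ ξ = 0 ∧
      ξ ⬝ᵥ lb.u ≠ 0 ∧ ξ ⬝ᵥ lb.u ∈ K ∧
      dv (lb.u - (mb.ν ⬝ᵥ lb.u) • mb.ν) δ = (mb.ν ⬝ᵥ lb.u) • ξ := by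
  classical
  obtain ⟨ξ, j, x1, x2, x3, x4⟩ := exists_xi hg
  obtain ⟨y, hy⟩ : ∃ y, y = mb.ν ⬝ᵥ lb.u := ⟨_, rfl⟩
  obtain ⟨z, hz⟩ : ∃ z, z = ξ ⬝ᵥ lb.u := ⟨_, rfl⟩
  obtain ⟨ε, hε⟩ : ∃ ε, ε = ξ ⬝ᵥ ξ := ⟨_, rfl⟩
  have y0 : y ≠ 0 := hy ▸ hb.c0
  have x3' : ξ ⬝ᵥ mb.ν = 0 := (dotProduct_comm _ _).trans x3
  have dy : ∀ ζ ∈ mb.D, ζ y = mb.ν ⬝ᵥ dv lb.u ζ := fun ζ h => by
    rw [hy, dv_dot, mb.nu_D hE h, zero_dotProduct, zero_add]
  have dz : ∀ ζ ∈ mb.D, ζ z = ξ ⬝ᵥ dv lb.u ζ := fun ζ h => by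
    rw [hz, dv_dot, x2 ζ h, zero_dotProduct, zero_add]
  have dε : ∀ ζ ∈ mb.D, ζ ε = 0 := fun ζ h => by rw [hε, dv_dot, x2 ζ h]; simp
  have z0 : z ≠ 0 := fun h => by
    have := eq_zero_of_par lb.uu hb.c0 (g := ξ) (fun w hw => by
      obtain ⟨ζ, h1, rfl⟩ := hb.pen (a := w) ((dotProduct_comm _ _).trans hw)
      rw [← dz ζ h1, h, map_zero]) x3
    exact one_ne_zero (x1.symm.trans (congrFun this j))
  have ρ0 : z ^ 2 + ε * y ^ 2 ≠ 0 := fun h => by
    have h1 := par lb.uu (g := z • ξ + (ε * y) • mb.ν) fun w hw => by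
      obtain ⟨ζ, h1, rfl⟩ := hb.pen (a := w) ((dotProduct_comm _ _).trans hw)
      have := congrArg ζ h
      simp only [map_add, Derivation.leibniz, Derivation.leibniz_pow, dε ζ h1, dy ζ h1, dz ζ h1,
        map_zero, smul_eq_mul, nsmul_eq_mul, Nat.cast_ofNat, Nat.add_one_sub_one, pow_one] at this
      simp only [add_dotProduct, smul_dotProduct, smul_eq_mul]
      linear_combination this / 2
    simp only [add_dotProduct, smul_dotProduct, smul_eq_mul, ← hz, ← hy] at h1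
    rw [show z * z + ε * y * y = 0 by linear_combination h, zero_smul] at h1
    have h2 := congrArg (mb.ν ⬝ᵥ ·) h1
    simp only [dotProduct_add, dotProduct_smul, x3, mb.νν, smul_eq_mul, dotProduct_zero, mul_zero,
      zero_add, mul_one, mul_eq_zero, y0, or_false] at h2
    exact z0 (by simpa [h2] using h)
  obtain ⟨δ, d1, d2⟩ := hb.pen (a := y • ξ - z • mb.ν) (by
    simp only [sub_dotProduct, smul_dotProduct, ← hz, ← hy, smul_eq_mul]; ring)
  have d3 : δ ∈ ma.D := ⟨d1.1, eq_zero_of_par la.uu ha.c0 (fun w hw => by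
    obtain ⟨ζ, h1, rfl⟩ := ha.pen (a := w) ((dotProduct_comm _ _).trans hw)
    have := hs δ d1.1 ζ h1.1
    rw [ha.sym_eq, hb.sym_eq, show dv ma.q ζ = 0 from h1.2, show dv mb.q δ = 0 from d1.2, d2,
      sub_dotProduct, smul_dotProduct, smul_dotProduct, x4 ζ h1, mb.tan ζ h1.1] at this
    simpa [dotProduct_comm] using this) (ma.tan δ d1.1)⟩
  have δy : δ y = -z := by simp [dy δ d1, d2, x3, mb.νν]
  have δz : δ z = y * ε := by simp [dz δ d1, d2, x3', hε]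
  have δρ : δ (z ^ 2 + ε * y ^ 2) = 0 := by
    simp [Derivation.leibniz_pow, δy, δz, dε δ d1]; ring
  have dv' : ∀ ζ ∈ mb.D, dv (lb.u - y • mb.ν) ζ = dv lb.u ζ - ζ y • mb.ν := fun ζ h => by
    rw [dv_sub, dv_smul, mb.nu_D hE h, smul_zero, add_zero]
  have δv : dv (lb.u - y • mb.ν) δ = y • ξ := by rw [dv' δ d1, d2, δy]; simp
  have hsep : ∀ Z ∈ E, Kil (Kr δ : Set Ω) Z → Z (y ^ 2) = 0 → Z = 0 := fun Z h1 h2 h3 => by
    have h4 : Z ∈ mb.D := ⟨h1, funext fun i => h2 _ (congrFun d1.2 i)⟩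
    have h5 : Z y = 0 := by simpa [Derivation.leibniz_pow, y0] using h3
    have h6 : dv lb.u Z = Z (lb.u j) • ξ := funext fun i => by
      have := h2 ((lb.u - y • mb.ν) i - (lb.u - y • mb.ν) j * ξ i) (by
        have a := congrFun δv i
        have b := congrFun δv j
        have c := congrFun (x2 δ d1) i
        simp only [dv_apply] at a b c
        rw [SetLike.mem_coe, mem_Kr, map_sub, Derivation.leibniz, a, b, c]
        simp [x1, mul_comm])
      have a := congrFun (dv' Z h4) i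
      have b := congrFun (dv' Z h4) j
      have c := congrFun (x2 Z h4) i
      simp only [dv_apply] at a b c
      rw [map_sub, Derivation.leibniz, a, b, c] at this
      simpa [h5, sub_eq_zero, mul_comm] using this
    have h7 := unit_dot lb.uu Z
    rw [h6, smul_dotProduct, ← hz, smul_eq_mul, mul_eq_zero, or_iff_left z0] at h7
    exact hb.inj h1 h4.2 (by rw [h6, h7, zero_smul])
  have η0 : δ (y ^ 2) ≠ 0 := by simp [Derivation.leibniz_pow, δy, y0, z0]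
  obtain ⟨η, hη⟩ : ∃ η, η = y ^ 2 := ⟨_, rfl⟩
  rw [← hη] at hsep η0
  have := lb.finite
  have : FiniteDimensional Ω ↥(E ⊓ LinearMap.ker (H96.dif η)) :=
    Submodule.finiteDimensional_of_le inf_le_left
  obtain ⟨N, f, e, f1, e1, e2, e3⟩ := basis0 (E ⊓ LinearMap.ker (H96.dif η))
    (S := (Kr δ : Set Ω)) fun Z h1 h2 => hsep Z h1.1 h2 h1.2
  have e4 : ∀ a, e a η = 0 := fun a => (e1 a).2
  have f2 : ∀ a, δ (f a) = 0 := f1
  let e' : Option (Fin N) → Der C Ω := fun o => o.elim ((δ η)⁻¹ • δ) e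
  let f' : Option (Fin N) → Ω := fun o => o.elim η f
  have g1 : ∀ a, e' a ∈ E := by
    rintro (_ | a)
    exacts [E.smul_mem _ d1.1, (e1 a).1]
  have g2 : ∀ a b, e' a (f' b) = if a = b then 1 else 0 := by
    rintro (_ | a) (_ | b) <;> simp [e', f', η0, f2, e4, e2]
  have g3 : ∀ Z ∈ E, Z = ∑ a, Z (f' a) • e' a := fun Z hZ => by
    have := e3 (Z - Z η • (δ η)⁻¹ • δ)
      ⟨sub_mem hZ (E.smul_mem _ (E.smul_mem _ d1.1)), by simp [η0]⟩
    rw [Fintype.sum_option, ← sub_eq_iff_eq_add']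
    simpa [f2, e', f'] using this
  have g4 : ∀ a, ∀ g ∈ Kr δ, e' a g ∈ Kr δ := fun a g hg => by
    have := congrArg (fun W : Der C Ω => W g) (dual_comm hE.br g1 g2 g3 none a)
    simp only [br_apply, show e' none = (δ η)⁻¹ • δ from rfl, Derivation.smul_apply, mem_Kr.1 hg,
      smul_zero, map_zero, sub_zero, Derivation.zero_apply, smul_eq_zero, inv_eq_zero, η0,
      false_or] at this
    exact this
  subst hη
  let K := Kr δ ⊔ adjoin C {z, y ^ 2}
  have k0 : Kr δ ≤ K := le_sup_left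
  have k1 : z ∈ K := (le_sup_right : _ ≤ K) (subset_adjoin _ _ (Or.inl rfl))
  have k2 : y ^ 2 ∈ K := (le_sup_right : _ ≤ K) (subset_adjoin _ _ (Or.inr rfl))
  refine ⟨Option (Fin N), inferInstance, inferInstance, f', e', K, ξ, j, δ, g1, g2, g3,
    fun a g hg => ?_, d3, d1, k0, hy ▸ k2, fun h => ?_, x1, x2 δ d1, x3, hz ▸ z0, hz ▸ k1, hy ▸ δv⟩
  · have k3 : e' a (y ^ 2) ∈ K := by
      rw [show e' a (y ^ 2) = _ from g2 a none]; split_ifs
      exacts [one_mem _, zero_mem _]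
    refine ((sup_le (fun x hx => ⟨k0 hx, k0 (g4 a x hx)⟩) (adjoin_le_iff.2 ?_) :
      K ≤ H17.St (e' a) K) hg).2
    rintro _ (h | h) <;> rw [h]
    · refine ⟨k1, ?_⟩
      have : e' a z = (e' a (z ^ 2 + ε * y ^ 2) - (ε * e' a (y ^ 2) + y ^ 2 * e' a ε)) / (2 * z) := by
        rw [map_add, Derivation.leibniz _ ε, Derivation.leibniz_pow _ z]
        simp only [smul_eq_mul, nsmul_eq_mul, Nat.cast_ofNat, Nat.add_one_sub_one, pow_one]
        field_simp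
        ring
      rw [this]
      exact div_mem (sub_mem (k0 (g4 a _ δρ)) (add_mem (mul_mem (k0 (dε δ d1)) k3)
        (mul_mem k2 (k0 (g4 a _ (dε δ d1)))))) (mul_mem (ofNat_mem _ 2) k1)
    · exact ⟨k2, k3⟩
  · rw [← hy] at h
    have hT : ∀ t, δ t ≠ 0 → Transcendental (Kr δ) t := fun t ht h =>
      not_mem_cl (S := (Kr δ : Set Ω)) (fun _ h => h) ht (H17.mem_cl_iff.2 h)
    have hK : ∀ t, z ∈ Kr δ ⊔ C⟮t⟯ → y ^ 2 ∈ Kr δ ⊔ C⟮t⟯ → y ∈ adjoin (Kr δ) {t} := fun t h1 h2 => by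
      have : y ∈ Kr δ ⊔ C⟮t⟯ := (sup_le le_sup_left (adjoin_le_iff.2 (by
        rintro _ (h | h) <;> rw [h]
        exacts [h1, h2])) : K ≤ _) h
      rwa [← restrictScalars_adjoin_eq_sup] at this
    have hm : ∀ t, t ∈ Kr δ ⊔ C⟮t⟯ := fun t => (le_sup_right : C⟮t⟯ ≤ _) (mem_adjoin_simple_self _ _)
    have hl : ∀ t, Kr δ ≤ Kr δ ⊔ C⟮t⟯ := fun t => le_sup_left
    by_cases h0 : ε = 0
    · exact H17.nsq (e := 1) (hT _ η0) one_ne_zero (by simp)
        (hK _ (hl _ (show δ z = 0 by simp [δz, h0])) (hm _))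
    · obtain ⟨r, hr⟩ := IsAlgClosed.exists_pow_nat_eq (z ^ 2 + ε * y ^ 2) two_pos
      have r0 : r ≠ 0 := fun h => ρ0 (by simp [← hr, h])
      have r1 : δ r = 0 := by
        rw [← hr] at δρ
        simpa [Derivation.leibniz_pow, r0] using δρ
      have : CharZero (Kr δ) := algebraRat.charZero _
      refine nsq2 (r := (⟨r, r1⟩ : Kr δ)) (e := ⟨ε, dε δ d1⟩) (hT z (by simp [δz, y0, h0]))
        (fun h => r0 (congrArg Subtype.val h)) (fun h => h0 (congrArg Subtype.val h))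
        (show ε * y ^ 2 = r ^ 2 - z ^ 2 by rw [hr]; ring) (hK _ (hm _) ?_)
      rw [show y ^ 2 = (z ^ 2 + ε * y ^ 2 - z ^ 2) / ε by field_simp; ring]
      exact div_mem (sub_mem (hl _ δρ) (pow_mem (hm _) 2)) (hl _ (dε δ d1))

end Pool.Agent.MP_249f74_an.H2
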