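import Pool.Agent.MP_249f74_an.H42.Sys
import Pool.Agent.MP_249f74_an.H17.CmGen
import Pool.Agent.MP_249f74_an.H17.CmWarp
import Pool.Agent.MP_249f74_an.H96A.B3

/-!
Generic edges, generic points and tangent edges of a hypersurface: derivations.
-/

open MvPolynomial Matrix

namespace Pool.Agent.MP_249f74_an.H2.Sc

open H17.Cm hiding Gen dir
open H42 (ev Gen Cur FL mp)
open H88 (cl)

variable {C Ω ι σ : Type} [Field C] [Field Ω] [Algebra C Ω] [Fintype ι] [DecidableEq ι]
  [Fintype σ] [DecidableEq σ]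

/-- The base point of an edge. -/
abbrev xs (l : ι ⊕ ι → Ω) : ι → Ω := fun i => l (Sum.inl i)

/-- The direction of an edge. -/
abbrev us (l : ι ⊕ ι → Ω) : ι → Ω := fun i => l (Sum.inr i)

/-- The point with the parameter `t`. -/
abbrev pt (l : ι ⊕ ι → Ω) (t : Ω) : ι → Ω := xs l + t • us l

/-- Generic points of a hypersurface. -/
def Gp (F : MvPolynomial σ C) (q : σ → Ω) : Prop := ∀ G, aeval q G = 0 ↔ F ∣ G

variable (Ω) in
/-- Absolutely irreducible equations. -/
def AP (F : MvPolynomial σ C) : Prop :=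
  ∀ L : IntermediateField C Ω, Irreducible (map (algebraMap C L) F)

/-- The edge is a generic tangent edge with the point of contact `t`. -/
structure Tg (F : MvPolynomial ι C) (k : ι ⊕ ι → Ω) (t : Ω) : Prop where
  cur : Cur C k
  gp : Gp F (pt k t)
  nu : grad F (pt k t) ⬝ᵥ us k = 0

section Lin

omit [DecidableEq σ] in
lemma hyp_eq {g N : σ → Ω} (hN : N ≠ 0) (hg : g ≠ 0) (h : ∀ w, g ⬝ᵥ w = 0 → N ⬝ᵥ w = 0) (w : σ → Ω)
    (hw : N ⬝ᵥ w = 0) : g ⬝ᵥ w = 0 := by
  classical
  obtain ⟨j, hj⟩ := Function.ne_iff.1 hg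
  have hj' : g j ≠ 0 := hj
  have k : ∀ w, N ⬝ᵥ w = g ⬝ᵥ w / g j * N j := fun w => by
    have := h (w - (g ⬝ᵥ w / g j) • Pi.single j 1) (by simp [hj'])
    simpa [sub_eq_zero] using this
  by_contra hn
  have h1 : N j = 0 := by simpa [hw, hn, hj'] using k w
  exact hN (funext fun i => by simpa [h1] using k (Pi.single i 1))

omit [DecidableEq σ] in
lemma eq_zero_of_dot {N : σ → Ω} (h : ∀ w, N ⬝ᵥ w = 0) : N = 0 := by
  classical
  exact funext fun i => by simpa using h (Pi.single i 1)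

omit [DecidableEq ι] in
lemma dot_sum (n w : ι ⊕ ι → Ω) : n ⬝ᵥ w = xs n ⬝ᵥ xs w + us n ⬝ᵥ us w := by
  simp [dotProduct]

end Lin

variable [CharZero Ω]

section Der

variable {z w N : σ → Ω} {π : MvPolynomial σ C}

omit [DecidableEq σ] in
lemma der_of_ker (z w : σ → Ω)
    (h : ∀ G : MvPolynomial σ C, aeval z G = 0 → grad G z ⬝ᵥ w = 0) :
    ∃ D : Derivation C Ω Ω, dv D z = w := by
  classical
  obtain ⟨D, hD⟩ := H17.ext_der (C := C) (aeval z : MvPolynomial σ C →ₐ[C] Ω)
    { toFun := fun G => grad G z ⬝ᵥ w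
      map_zero' := by simp [grad, dotProduct]
      map_add' := fun a b => by simp [grad, dotProduct, add_mul, Finset.sum_add_distrib] }
    (fun a b => by
      simp only [grad, dotProduct, Derivation.leibniz, smul_eq_mul, map_add, map_mul,
        AddMonoidHom.coe_mk, ZeroHom.coe_mk, Finset.mul_sum, ← Finset.sum_add_distrib]
      exact Finset.sum_congr rfl fun _ _ => by ring) h
    (fun c => by simp [grad, dotProduct])
  refine ⟨D, funext fun i => ?_⟩
  have := hD (X i)
  simpa [grad, dotProduct, pderiv_X, Pi.single_apply, dv, apply_ite] using this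

omit [DecidableEq σ] in
lemma gen_der (hl : Gen C z) (w : σ → Ω) : ∃ D : Derivation C Ω Ω, dv D z = w :=
  der_of_ker z w fun G hG => by simp [hl G hG, grad, dotProduct]

omit [DecidableEq σ] [CharZero Ω] [Fintype σ] in
lemma Gp.zero (h : Gp π z) : aeval z π = 0 := (h π).2 dvd_rfl

omit [DecidableEq σ] in
lemma Gp.der (h : Gp π z) (hw : grad π z ⬝ᵥ w = 0) : ∃ D : Derivation C Ω Ω, dv D z = w :=
  der_of_ker z w fun G hG => by
    obtain ⟨A, rfl⟩ := (h G).1 hG
    have : grad (π * A) z = aeval z A • grad π z := by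
      ext i; simp [grad, h.zero]
    simp [this, hw]

omit [DecidableEq σ] in
lemma Gp.ne (h : Gp π z) (h0 : π ≠ 0) : grad π z ≠ 0 := fun e => by
  have : CharZero C := (algebraMap C Ω).charZero
  have h1 : π.totalDegree = 0 := td_zero_of_pderiv fun j => by
    by_contra hn
    have h4 := totalDegree_le_of_dvd_of_isDomain ((h _).1 (congrFun e j)) hn
    have h5 := H88.totalDegree_pderiv_lt hn
    omega
  have h2 := h.zero
  rw [totalDegree_eq_zero_iff_eq_C] at h1
  rw [h1, aeval_C, map_eq_zero] at h2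
  exact h0 (by rw [h1, h2, map_zero])

lemma gen_of_hyp (hN : N ≠ 0) (h : ∀ w, N ⬝ᵥ w = 0 → ∃ D : Derivation C Ω Ω, dv D z = w) :
    H88.Gen C z := by
  obtain ⟨j, hj⟩ := Function.ne_iff.1 hN
  have h2 : N j ≠ 0 := hj
  refine ⟨j, indep_of_dual fun i => ?_⟩
  obtain ⟨θ, h3⟩ := h (Pi.single i.1 1 - (N i / N j) • Pi.single j 1) (by simp [h2])
  refine ⟨θ, funext fun k => (congrFun h3 k).trans ?_⟩
  simp [Pi.single_apply, k.2, Subtype.ext_iff]

omit [CharZero Ω] [Fintype σ] in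
lemma gp_of_gen (h : H88.Gen C z) (hπ : Irreducible π) (h0 : aeval z π = 0) : Gp π z :=
  fun _ => ⟨H88.dvd_of_gen h hπ h0, fun ⟨A, e⟩ => by rw [e, map_mul, h0, zero_mul]⟩

omit [DecidableEq σ] in
lemma cur_der (hk : Cur C z) (hN : N ≠ 0) (h : ∀ D : Derivation C Ω Ω, N ⬝ᵥ dv D z = 0)
    (hw : N ⬝ᵥ w = 0) : ∃ D : Derivation C Ω Ω, dv D z = w := by
  obtain ⟨π, hπ, hz⟩ := hk
  have hz' : Gp π z := hz
  refine hz'.der (hyp_eq hN (hz'.ne hπ.ne_zero) (fun v hv => ?_) w hw)
  obtain ⟨D, rfl⟩ := hz'.der hv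
  exact h D

lemma cur_of_hyp (hN : N ≠ 0) (h : ∀ D : Derivation C Ω Ω, N ⬝ᵥ dv D z = 0)
    (h' : ∀ w, N ⬝ᵥ w = 0 → ∃ D : Derivation C Ω Ω, dv D z = w) : Cur C z := by
  have h1 : ¬Gen C z := fun hg => hN (eq_zero_of_dot fun w => by
    obtain ⟨D, rfl⟩ := gen_der hg w
    exact h D)
  simp only [Gen, not_forall] at h1
  obtain ⟨G, g1, g2⟩ := h1
  have key : ∀ G : MvPolynomial σ C, G ≠ 0 → aeval z G = 0 →
      ∃ π : MvPolynomial σ C, Irreducible π ∧ aeval z π = 0 := fun G => by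
    induction G using WfDvdMonoid.induction_on_irreducible with
    | zero => simp
    | unit u hu => exact fun _ h => absurd h (hu.map (aeval z)).ne_zero
    | mul a i ha hi ih =>
      intro _ h
      rw [map_mul] at h
      exact (mul_eq_zero.1 h).elim (fun h => ⟨i, hi, h⟩) (ih ha)
  obtain ⟨π, p1, p2⟩ := key G g2 g1
  exact ⟨π, p1.prime, gp_of_gen (gen_of_hyp hN h') p1 p2⟩

/-- The points that move in all directions up to one are generic on their hypersurfaces. -/
lemma gen_of_mod {u : σ → Ω} {F : MvPolynomial σ C} (hF : F ≠ 0) (h0 : aeval z F = 0)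
    (h : ∀ w, ∃ (D : Derivation C Ω Ω) (s : Ω), dv D z = w + s • u) : H88.Gen C z := by
  obtain ⟨P, h1, j, h2⟩ : ∃ P : MvPolynomial σ C, aeval z P = 0 ∧ ∃ j, grad P z j ≠ 0 := by
    by_contra hn
    push Not at hn
    exact hF (eq_zero_of_stable (y := z) _ (fun P hP => ⟨hP, hn P hP⟩) F h0)
  have h3 : grad P z ≠ 0 := fun e => h2 (congrFun e j)
  have h4 : ∀ w, ∃ (D : Derivation C Ω Ω) (s : Ω), dv D z = w + s • u ∧
      grad P z ⬝ᵥ w + s * (grad P z ⬝ᵥ u) = 0 := fun w => by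
    obtain ⟨D, s, e⟩ := h w
    exact ⟨D, s, e, by simpa [e] using grad_dv (θ := D) h1⟩
  have h5 : grad P z ⬝ᵥ u ≠ 0 := fun e => h3 (eq_zero_of_dot fun w => by
    obtain ⟨D, s, -, e2⟩ := h4 w
    simpa [e] using e2)
  refine gen_of_hyp h3 fun w hw => ?_
  obtain ⟨D, s, e1, e2⟩ := h4 w
  have : s = 0 := by simpa [hw, h5] using e2
  exact ⟨D, by simpa [this] using e1⟩

omit [CharZero Ω] in
/-- A derivation that vanishes on a subfield is linear over it. -/
def toL (L : IntermediateField C Ω) (D : Derivation C Ω Ω) (h : ∀ a ∈ L, D a = 0) :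
    Derivation L Ω Ω :=
  H17.toDer (D.restrictScalars ℤ) fun c => h c c.2

end Der

section Edge

variable {l k : ι ⊕ ι → Ω} {F G : MvPolynomial ι C} {t y : Ω}

omit [CharZero Ω] [Fintype ι] [DecidableEq ι] in
lemma dv_pt (D : Derivation C Ω Ω) (l : ι ⊕ ι → Ω) (t : Ω) :
    dv D (pt l t) = xs (dv D l) + t • us (dv D l) + D t • us l := by
  ext i; simp [dv]; ring

/-- The Hessian form. -/
noncomputable def hs (F : MvPolynomial ι C) (q u v : ι → Ω) : Ω :=
  ∑ i, u i * (grad (pderiv i F) q ⬝ᵥ v)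

omit [CharZero Ω] [DecidableEq ι] in
lemma dv_grad_dot (D : Derivation C Ω Ω) (F : MvPolynomial ι C) (q u : ι → Ω) :
    dv D (grad F q) ⬝ᵥ u = hs F q u (dv D q) := by
  classical
  simp only [hs, dotProduct.eq_1 (dv D (grad F q))]
  exact Finset.sum_congr rfl fun i _ => by rw [← der_eval, mul_comm]; rfl

omit [CharZero Ω] [DecidableEq ι] in
lemma hs_add (F : MvPolynomial ι C) (q u v w : ι → Ω) :
    hs F q u (v + w) = hs F q u v + hs F q u w := by
  simp [hs, mul_add, Finset.sum_add_distrib]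

omit [CharZero Ω] [DecidableEq ι] in
lemma hs_smul (F : MvPolynomial ι C) (q u v : ι → Ω) (a : Ω) :
    hs F q u (a • v) = a * hs F q u v := by
  simp only [hs, dotProduct_smul, smul_eq_mul, Finset.mul_sum]
  exact Finset.sum_congr rfl fun _ _ => by ring

omit [CharZero Ω] [DecidableEq ι] in
lemma hs_symm (F : MvPolynomial ι C) (q u v : ι → Ω) : hs F q u v = hs F q v u := by
  classical
  simp only [hs, grad, dotProduct, Finset.mul_sum]
  rw [Finset.sum_comm]
  exact Finset.sum_congr rfl fun i _ => Finset.sum_congr rfl fun j _ => by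
    rw [pderiv_comm]; ring

omit [CharZero Ω] in
lemma line_two (F : MvPolynomial ι C) (x u : ι → Ω) (s : Ω) :
    (line F x u).derivative.derivative.eval s = hs F (x + s • u) u u := by
  rw [derivative_line]
  simp [hs, Polynomial.eval_finsetSum, eval_derivative_line, mul_comm]

omit [DecidableEq ι] in
/-- The motions of an edge that touches a hypersurface. -/
lemma tan_der (hk : Cur C k) (h0 : aeval (pt k t) F = 0) (hn : grad F (pt k t) ≠ 0)
    (hu : grad F (pt k t) ⬝ᵥ us k = 0) (a b : ι → Ω) (h : grad F (pt k t) ⬝ᵥ (a + t • b) = 0) :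
    ∃ D : Derivation C Ω Ω, xs (dv D k) = a ∧ us (dv D k) = b := by
  classical
  obtain ⟨D, hD⟩ := cur_der (w := Sum.elim a b) hk
    (N := Sum.elim (grad F (pt k t)) (t • grad F (pt k t)))
    (fun e => hn (funext fun i => congrFun e (Sum.inl i))) (fun D => by
      have := grad_dv (θ := D) h0
      rw [dv_pt] at this
      rw [dot_sum]
      change grad F _ ⬝ᵥ _ + (t • grad F _) ⬝ᵥ _ = 0
      simpa [hu] using this) (by
      rw [dot_sum]
      change grad F _ ⬝ᵥ a + (t • grad F _) ⬝ᵥ b = 0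
      simpa using h)
  exact ⟨D, by rw [hD]; rfl, by rw [hD]; rfl⟩

omit [DecidableEq ι] in
lemma Tg.der (h : Tg F k t) (hF : F ≠ 0) (a b : ι → Ω) (e : grad F (pt k t) ⬝ᵥ (a + t • b) = 0) :
    ∃ D : Derivation C Ω Ω, xs (dv D k) = a ∧ us (dv D k) = b :=
  tan_der h.cur h.gp.zero (h.gp.ne hF) h.nu a b e

omit [DecidableEq ι] [CharZero Ω] in
lemma der_nu (hu : grad F (pt k t) ⬝ᵥ us k = 0) (D : Derivation C Ω Ω) :
    hs F (pt k t) (us k) (dv D (pt k t)) + grad F (pt k t) ⬝ᵥ us (dv D k) = 0 := by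
  classical
  have := dv_dot D (grad F (pt k t)) (us k)
  rw [hu, map_zero, dv_grad_dot] at this
  exact this.symm

omit [DecidableEq ι] in
/-- Pencil motions. -/
lemma Tg.pen (h : Tg F k t) (hF : F ≠ 0) (b : ι → Ω) : ∃ D : Derivation C Ω Ω,
    xs (dv D k) = -(t • b) ∧ us (dv D k) = b ∧ dv D (pt k t) = D t • us k ∧
      D t * hs F (pt k t) (us k) (us k) + grad F (pt k t) ⬝ᵥ b = 0 := by
  obtain ⟨D, h1, h2⟩ := h.der hF (-(t • b)) b (by simp)
  have h3 : dv D (pt k t) = D t • us k := by rw [dv_pt, h1, h2]; simp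
  have h4 := der_nu h.nu D
  rw [h3, hs_smul, h2] at h4
  exact ⟨D, h1, h2, h3, h4⟩

omit [DecidableEq ι] in
lemma Tg.hs_ne (h : Tg F k t) (hF : F ≠ 0) : hs F (pt k t) (us k) (us k) ≠ 0 := fun e =>
  h.gp.ne hF (eq_zero_of_dot fun b => by
    obtain ⟨D, -, -, -, h4⟩ := h.pen hF b
    simpa [e] using h4)

lemma Tg.top (h : Tg F k t) (hF : F ≠ 0) (hG : G ≠ 0) :
    aeval (us k) (homogeneousComponent G.totalDegree G) ≠ 0 := fun e =>
  top_ne_zero hG (algebraicIndependent_iff.1 (indep_of_dual fun j => by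
    obtain ⟨D, -, h2, -⟩ := h.pen hF (Pi.single j 1)
    exact ⟨D, h2⟩) _ e)

omit [CharZero Ω] in
lemma deg_line {x u : ι → Ω} (h : aeval u (homogeneousComponent G.totalDegree G) ≠ 0) :
    (line G x u).natDegree = G.totalDegree :=
  Polynomial.natDegree_eq_of_le_of_coeff_ne_zero
    (Polynomial.natDegree_le_iff_coeff_eq_zero.2 fun d hd => by
      rw [coeff_line hd.le, homogeneousComponent_eq_zero _ _ hd, map_zero])
    (by rwa [coeff_line le_rfl])

omit [CharZero Ω] in
lemma line_ne {x u : ι → Ω} (h : aeval u (homogeneousComponent G.totalDegree G) ≠ 0) :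
    line G x u ≠ 0 := fun e => h (by rw [← coeff_line le_rfl x u, e, Polynomial.coeff_zero])

/-- The point of contact is a double point of the section. -/
lemma Tg.own (h : Tg F k t) (hF : F ≠ 0) : (line F (xs k) (us k)).rootMultiplicity t = 2 := by
  have p0 := line_ne (x := xs k) (h.top hF hF)
  refine le_antisymm (not_lt.1 fun e => h.hs_ne hF ?_)
    ((Polynomial.one_lt_rootMultiplicity_iff_isRoot p0).2 ⟨?_, ?_⟩)
  · rw [← line_two]
    exact (Polynomial.lt_rootMultiplicity_iff_isRoot_iterate_derivative p0).1 e 2 le_rfl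
  · exact (eval_line _ _ _ _).trans h.gp.zero
  · exact (eval_derivative_line _ _ _ _).trans h.nu

/-- The other points of a tangent edge are simple points of all sections. -/
lemma Tg.oth (h : Tg F k t) (hF : F ≠ 0) (hG : Irreducible G) (hy : aeval (pt k y) G = 0)
    (ne : y ≠ t) : Gp G (pt k y) ∧ grad G (pt k y) ⬝ᵥ us k ≠ 0 := by
  have key : ∀ w, ∃ (D : Derivation C Ω Ω) (s : Ω), dv D (pt k y) = w + s • us k := fun w => by
    obtain ⟨D, h1, h2, -⟩ := h.pen hF ((y - t)⁻¹ • w)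
    refine ⟨D, D y, ?_⟩
    have := sub_ne_zero.2 ne
    rw [dv_pt, h1, h2]
    ext i; simp; field_simp; ring
  have h1 := gp_of_gen (gen_of_mod hG.ne_zero hy key) hG hy
  refine ⟨h1, fun e => h1.ne hG.ne_zero (eq_zero_of_dot fun w => ?_)⟩
  obtain ⟨D, s, e1⟩ := key w
  simpa [e1, e] using grad_dv (θ := D) hy

lemma Tg.simple (h : Tg F k t) (hF : F ≠ 0) (hG : Irreducible G) (hy : aeval (pt k y) G = 0)
    (ne : y ≠ t) : (line G (xs k) (us k)).rootMultiplicity y ≤ 1 := not_lt.1 fun e =>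
  (h.oth hF hG hy ne).2 ((eval_derivative_line _ _ _ _).symm.trans
    ((Polynomial.one_lt_rootMultiplicity_iff_isRoot (line_ne (h.top hF hG.ne_zero))).1 e).2)

lemma gen_top (hl : Gen C l) (hG : G ≠ 0) :
    aeval (us l) (homogeneousComponent G.totalDegree G) ≠ 0 := fun e =>
  top_ne_zero hG (algebraicIndependent_iff.1 (indep_of_dual fun j => by
    obtain ⟨D, h⟩ := gen_der hl (Sum.elim 0 (Pi.single j 1))
    exact ⟨D, funext fun i => congrFun h (Sum.inr i)⟩) _ e)

/-- The points of a generic edge. -/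
lemma gen_pt (hl : Gen C l) (hF : Irreducible F) (hy : aeval (pt l y) F = 0) :
    Gp F (pt l y) ∧ grad F (pt l y) ⬝ᵥ us l ≠ 0 := by
  have key : ∀ w, ∃ (D : Derivation C Ω Ω) (s : Ω), dv D (pt l y) = w + s • us l := fun w => by
    obtain ⟨D, h⟩ := gen_der hl (Sum.elim w 0)
    refine ⟨D, D y, ?_⟩
    rw [dv_pt, h]
    ext i; simp
  have h1 := gp_of_gen (gen_of_mod hF.ne_zero hy key) hF hy
  refine ⟨h1, fun e => h1.ne hF.ne_zero (eq_zero_of_dot fun w => ?_)⟩
  obtain ⟨D, s, e1⟩ := key w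
  simpa [e1, e] using grad_dv (θ := D) hy

/-- The point, the direction and the parameter move independently. -/
lemma gen_free (hl : Gen C l) (hF : Irreducible F) (hy : aeval (pt l y) F = 0) (w b : ι → Ω)
    (s : Ω) (hw : grad F (pt l y) ⬝ᵥ w = 0) :
    ∃ D : Derivation C Ω Ω, dv D (pt l y) = w ∧ dv D (us l) = b ∧ D y = s := by
  obtain ⟨D, h⟩ := gen_der hl (Sum.elim (w - y • b - s • us l) b)
  have h1 : dv D (pt l y) = w + (D y - s) • us l := by
    rw [dv_pt, h]
    ext i; simp; ring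
  have h2 := grad_dv (θ := D) hy
  rw [h1, dotProduct_add, hw, zero_add, dotProduct_smul, smul_eq_mul, mul_eq_zero,
    or_iff_left (gen_pt hl hF hy).2] at h2
  exact ⟨D, by simpa [h2] using h1, funext fun i => congrFun h (Sum.inr i), sub_eq_zero.1 h2⟩

end Edge

end Pool.Agent.MP_249f74_an.H2.Sc
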