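import Pool.Agent.MP_249f74_an.H2.Sec2
import Pool.Agent.MP_249f74_an.H96A.Lift

/-!
The inertia element at a tangent complex; degenerate edges of a quadric.
-/

open MvPolynomial Matrix Set

namespace Pool.Agent.MP_249f74_an.H2.Sc

open H17.Cm hiding Gen dir
open H42 (ev Gen Cur FL mp Sp)
open H96A (Pl)
open H96A.Lift (SP)

variable {C Ω ι σ : Type} [Field C] [Field Ω] [Algebra C Ω] [Fintype ι] [DecidableEq ι]

/-- Prime equations over an algebraically closed field are absolutely irreducible. -/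
lemma irr_map [IsAlgClosed C] {L : Type} [Field L] [Algebra C L] {F : MvPolynomial σ C}
    (hF : Irreducible F) : Irreducible (MvPolynomial.map (algebraMap C L) F) := by
  classical
  have td : ∀ {R S : Type} [CommRing R] [CommRing S] (f : R →+* S) (G : MvPolynomial σ R),
      (MvPolynomial.map f G).totalDegree ≤ G.totalDegree := fun f G =>
    Finset.sup_mono (support_map_subset f G)
  have td' : ∀ {R S : Type} [CommRing R] [CommRing S] {f : R →+* S} (_ : Function.Injective f)
      (G : MvPolynomial σ R), (MvPolynomial.map f G).totalDegree = G.totalDegree := fun h G => by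
    simp [totalDegree, support_map_of_injective _ h]
  have un : ∀ {K : Type} [Field K] {G : MvPolynomial σ K}, G ≠ 0 →
      (IsUnit G ↔ G.totalDegree = 0) := fun {K} _ G h => by
    rw [isUnit_iff_totalDegree_of_isReduced, and_iff_right_iff_imp]
    intro e
    refine Ne.isUnit fun e2 => h ?_
    rw [totalDegree_eq_zero_iff_eq_C.1 e, e2, map_zero]
  have h0 : MvPolynomial.map (algebraMap C L) F ≠ 0 := fun e =>
    hF.ne_zero (map_injective _ (algebraMap C L).injective (e.trans (map_zero _).symm))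
  refine ⟨fun e => hF.not_isUnit ((un hF.ne_zero).2 ?_), fun A B e => ?_⟩
  · rw [← td' (algebraMap C L).injective, ← un h0]; exact e
  let R := Algebra.adjoin C ((A.coeffs ∪ B.coeffs : Finset L) : Set L)
  have hR : ∀ G : MvPolynomial σ L, G.coeffs ⊆ A.coeffs ∪ B.coeffs →
      ∃ G' : MvPolynomial σ R, MvPolynomial.map R.val.toRingHom G' = G := fun G h =>
    mem_range_map_iff_coeffs_subset.2 fun c hc => ⟨⟨c, Algebra.subset_adjoin (h hc)⟩, rfl⟩
  obtain ⟨A', hA⟩ := hR A Finset.subset_union_left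
  obtain ⟨B', hB⟩ := hR B Finset.subset_union_right
  have inj : Function.Injective R.val.toRingHom := Subtype.val_injective
  obtain ⟨m, hm⟩ := Ideal.exists_maximal R
  let _ := Ideal.Quotient.field m
  have : Algebra.FiniteType C R := (Subalgebra.fg_iff_finiteType _).1 (Subalgebra.fg_adjoin_finset _)
  have : Module.Finite C (R ⧸ m) := finite_of_finite_type_of_isJacobsonRing _ _
  let φ : R →ₐ[C] C := (IsAlgClosed.lift : R ⧸ m →ₐ[C] C).comp (Ideal.Quotient.mkₐ C m)
  have e1 : MvPolynomial.map (algebraMap C R) F = A' * B' := map_injective _ inj (by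
    rw [map_mul, hA, hB, ← e, MvPolynomial.map_map]; rfl)
  have e2 : F = MvPolynomial.map φ.toRingHom A' * MvPolynomial.map φ.toRingHom B' := by
    rw [← map_mul, ← e1, MvPolynomial.map_map, show φ.toRingHom.comp (algebraMap C R) = RingHom.id C
      from RingHom.ext φ.commutes, MvPolynomial.map_id]
  have a0 := left_ne_zero_of_mul (e2 ▸ hF.ne_zero)
  have b0 := right_ne_zero_of_mul (e2 ▸ hF.ne_zero)
  have a1 := left_ne_zero_of_mul (e ▸ h0)
  have b1 := right_ne_zero_of_mul (e ▸ h0)
  have d1 := totalDegree_mul_of_isDomain a0 b0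
  have d2 := totalDegree_mul_of_isDomain a1 b1
  have d3 := td φ.toRingHom A'
  have d4 := td φ.toRingHom B'
  rw [← td' inj, hA] at d3
  rw [← td' inj, hB] at d4
  rw [← e2] at d1
  rw [← e, td' (algebraMap C L).injective] at d2
  have := hF.isUnit_or_isUnit e2
  rw [un a0, un b0] at this
  rw [un a1, un b1]
  omega

lemma ap_of [IsAlgClosed C] {F : MvPolynomial σ C} (hF : Irreducible F) : AP Ω F :=
  fun _ => irr_map hF

section Place

variable {P : Pl C Ω}

lemma sp_aeval {z z' : σ → Ω} (h : ∀ i, P.sp (z i) (z' i)) (G : MvPolynomial σ C) :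
    P.sp (aeval z G) (aeval z' G) := by
  induction G using MvPolynomial.induction_on with
  | C a => simpa using P.cst a
  | add p q hp hq => rw [map_add, map_add]; exact P.add hp hq
  | mul_X p i hp => rw [map_mul, map_mul, aeval_X, aeval_X]; exact P.mul hp (h i)

lemma sp_line {x u x' u' : σ → Ω} (h : ∀ i, P.sp (x i) (x' i)) (h' : ∀ i, P.sp (u i) (u' i))
    (G : MvPolynomial σ C) : SP P (line G x u) (line G x' u') := by
  unfold line
  induction G using MvPolynomial.induction_on with
  | C a =>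
    rw [aeval_C, aeval_C, Polynomial.algebraMap_apply]
    exact H96A.Lift.sp_C (P.cst a)
  | add p q hp hq => rw [map_add, map_add]; exact hp.add hq
  | mul_X p i hp =>
    rw [map_mul, map_mul, aeval_X, aeval_X]
    exact hp.mul ((H96A.Lift.sp_C (h i)).add ((H96A.Lift.sp_C (h' i)).mul H96A.Lift.sp_X))

lemma fix_aeval {g : Ω ≃ₐ[C] Ω} {z : σ → Ω} (h : ∀ i, g (z i) = z i) (G : MvPolynomial σ C) :
    g (aeval z G) = aeval z G := by
  rw [← map_aev, show g ∘ z = z from funext h]

end Place

variable [CharZero Ω] {l k : ι ⊕ ι → Ω} {F : MvPolynomial ι C} {t y : Ω} {p u : ι → Ω}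

/-- The motion in the pencil of the point with the parameter `t`. -/
abbrev rot (j : ι) (t : Ω) : ι ⊕ ι → Ω := Sum.elim (-(t • Pi.single j 1)) (Pi.single j 1)

omit [CharZero Ω] in
lemma dot_rot (n : ι ⊕ ι → Ω) (j : ι) (t : Ω) :
    n ⬝ᵥ rot j t = n (Sum.inr j) - t * n (Sum.inl j) := by
  rw [dot_sum]
  change xs n ⬝ᵥ -(t • Pi.single j 1) + us n ⬝ᵥ Pi.single j 1 = _
  simp; ring

lemma Tg.two (h : Tg F k t) (hF : F ≠ 0) {π : MvPolynomial (ι ⊕ ι) C} (h0 : π ≠ 0) (hπ : Gp π k)
    {j : ι} (hj : grad F (pt k t) j ≠ 0) :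
    grad π k ⬝ᵥ rot j t = 0 ∧ hs π k (rot j t) (rot j t) ≠ 0 := by
  obtain ⟨D, d1, d2, -, d4⟩ := h.pen hF (Pi.single j 1)
  have d5 : dv D k = rot j t := funext fun i => by
    rcases i with i | i
    exacts [congrFun d1 i, congrFun d2 i]
  have h1 : grad π k ⬝ᵥ rot j t = 0 := d5 ▸ grad_dv hπ.zero
  refine ⟨h1, fun e => ?_⟩
  have h2 := dv_dot D (grad π k) (rot j t)
  have h3 : dv D (rot j t) = Sum.elim (-(D t • Pi.single j 1)) (0 : ι → Ω) := by
    ext (i | i) <;> by_cases e : i = j <;> simp [dv, e]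
  rw [h1, map_zero, dv_grad_dot, d5, e, h3, dot_sum] at h2
  change 0 = 0 + (xs (grad π k) ⬝ᵥ -(D t • Pi.single j 1) + us (grad π k) ⬝ᵥ 0) at h2
  have h4 : D t ≠ 0 := fun e => hj (by simpa [e] using d4)
  have h5 : grad π k (Sum.inl j) = 0 := by simpa [h4] using h2
  refine hπ.ne h0 (eq_zero_of_dot fun w => ?_)
  obtain ⟨D', e1, e2⟩ := h.der hF (xs w - (grad F (pt k t) ⬝ᵥ (xs w + t • us w) /
    grad F (pt k t) j) • Pi.single j 1) (us w) (by
      rw [sub_add_eq_add_sub, dotProduct_sub]; simp [hj])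
  have := grad_dv (θ := D') hπ.zero
  rw [dot_sum, e1, e2, dotProduct_sub] at this
  rw [dot_sum]
  simpa [h5] using this

/-- The inertia element moves the points that tend to the point of contact. -/
lemma move [IsAlgClosed Ω] {P : Pl C Ω} (hl : Gen C l) (hF : Irreducible F) (h : Tg F k t)
    (hP : Sp P l k) {π : MvPolynomial (ι ⊕ ι) C} (h0 : π ≠ 0) (hπ : Gp π k)
    (hr : ∀ r, r ^ 2 = ev l π → P.σ r = -r) (hy : aeval (pt l y) F = 0) (hs : P.sp y t) :
    P.σ y ≠ y := fun e => by
  obtain ⟨j, hj⟩ := Function.ne_iff.1 (h.gp.ne hF.ne_zero)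
  have hj : grad F (pt k t) j ≠ 0 := hj
  obtain ⟨g1, g2⟩ := gen_pt hl hF hy
  obtain ⟨t1, t2⟩ := h.two hF.ne_zero h0 hπ hj
  have s1 : ∀ i, P.sp (pt l y i) (pt k t i) := fun i => P.add (hP.sp _) (P.mul hs (hP.sp _))
  have s2 : ∀ i, P.sp (grad F (pt l y) i) (grad F (pt k t) i) := fun i => sp_aeval s1 _
  have hj' := H96A.Lift.ne (s2 j) hj
  set s := grad F (pt l y) ⬝ᵥ us l / grad F (pt l y) j with hs0
  have s0 : s ≠ 0 := div_ne_zero g2 hj'
  have s3 : P.sp s 0 := by
    have := P.mul (H96A.Lift.sum Finset.univ fun i _ => P.mul (s2 i) (hP.sp (Sum.inr i)))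
      (H96A.Lift.inv (s2 j) hj)
    rw [show ∑ i, grad F (pt k t) i * k (Sum.inr i) = 0 from h.nu, zero_mul] at this
    rw [hs0, div_eq_mul_inv]
    exact this
  have s4 : ∀ i, P.sp ((Pi.single j 1 : ι → Ω) i) ((Pi.single j 1 : ι → Ω) i) := fun i => by
    by_cases e : i = j <;> simp [e, H96A.Lift.sp0, H96A.Lift.sp1]
  have s5 : ∀ i, P.sp (prj F (pt l y) (us l) j i) (us k i) := fun i => by
    have := H96A.Lift.sub (hP.sp (Sum.inr i)) (P.mul s3 (s4 i))
    rwa [zero_mul, sub_zero] at this
  let k' := edg (pt l y) (prj F (pt l y) (us l) j) y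
  have s6 : SP P (line π k' (rot j y)) (line π k (rot j t)) := sp_line (fun i => by
    rw [← edg_pt k t]
    rcases i with i | i
    exacts [H96A.Lift.sub (s1 i) (P.mul hs (s5 i)), s5 i]) (fun i => by
    rcases i with i | i
    exacts [H96A.Lift.neg (P.mul hs (s4 i)), s4 i]) π
  have c0 : (line π k' (rot j y)).coeff 0 = 0 := by
    rw [Polynomial.coeff_zero_eq_eval_zero, eval_line, zero_smul, add_zero]
    refine (aeval_pull _ _ _ _).symm.trans (h.tid hF.ne_zero g1 (dot_prj hj' _) y ?_)
    rw [aeval_pull, edg_pt]; exact hπ.zero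
  have c1 : (line π k' (rot j y)).coeff 1 = 0 := by
    have e : ∀ (p u : ι → Ω) (t : Ω), aeval (tri p u t) (pull (pderiv (Sum.inr j) π) -
        X (Sum.inr none) * pull (pderiv (Sum.inl j) π)) = grad π (edg p u t) ⬝ᵥ rot j t :=
      fun p u t => by rw [map_sub, map_mul, aeval_pull, aeval_pull, dot_rot, aeval_X]; rfl
    have := eval_derivative_line π k' (rot j y) 0
    rw [← Polynomial.coeff_zero_eq_eval_zero, Polynomial.coeff_derivative, zero_smul, add_zero,
      ← e, h.tid hF.ne_zero g1 (dot_prj hj' _) y (by rw [e, edg_pt]; exact t1)] at this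
    simpa using this
  have c2 : (line π k (rot j t)).divX.divX.eval 0 ≠ 0 := fun e => t2 (by
    have := line_two π k (rot j t) 0
    rw [← Polynomial.coeff_zero_eq_eval_zero, Polynomial.coeff_divX, Polynomial.coeff_divX] at e
    rw [← Polynomial.coeff_zero_eq_eval_zero, Polynomial.coeff_derivative,
      Polynomial.coeff_derivative, e, zero_smul, add_zero] at this
    simpa using this.symm)
  have s7 : P.sp ((line π k' (rot j y)).divX.divX.eval s) _ :=
    SP.eval (q := (line π k (rot j t)).divX.divX) (fun i => by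
      simpa only [Polynomial.coeff_divX] using s6 _) s3
  set g := (line π k' (rot j y)).divX.divX.eval s with hg
  have g3 : ev l π = s ^ 2 * g := by
    have e1 := congrArg (Polynomial.eval s) (Polynomial.divX_mul_X_add (line π k' (rot j y)))
    have e2 := congrArg (Polynomial.eval s) (Polynomial.divX_mul_X_add (line π k' (rot j y)).divX)
    have e3 : k' + s • rot j y = l := by
      ext (i | i) <;> simp [k', prj, ← hs0]
      ring
    rw [eval_line, e3, c0] at e1
    rw [Polynomial.coeff_divX, c1] at e2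
    simp only [map_zero, add_zero, Polynomial.eval_mul, Polynomial.eval_X] at e1 e2
    rw [ev, ← e1, ← e2]; ring
  have f0 : ∀ i, P.σ (l i) = l i := fun i => hP.fx _ ⟨i, rfl⟩
  have f1 : ∀ i, P.σ (grad F (pt l y) i) = grad F (pt l y) i := fun i =>
    fix_aeval (fun i => by simp [f0, e]) _
  have f2 : P.σ s = s := by simp [hs0, dotProduct, f0, f1]
  have f3 : P.σ g = g := by
    have : P.σ (ev l π) = ev l π := fix_aeval f0 π
    rw [g3, map_mul, map_pow, f2] at this
    exact mul_left_cancel₀ (pow_ne_zero _ s0) this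
  obtain ⟨r, hr0⟩ := IsAlgClosed.exists_pow_nat_eq g two_pos
  have r1 := hr (s * r) (by rw [mul_pow, hr0, g3])
  rw [map_mul, f2, H96A.Lift.unit s7 c2 f3 hr0, ← add_eq_zero_iff_eq_neg, add_self_eq_zero] at r1
  exact h0 (hl π (by rw [g3, ← hr0, ← mul_pow, r1]; simp))

section Quad

omit [Fintype ι] [DecidableEq ι] [CharZero Ω] in
lemma td_pd {d : ℕ} (h : F.totalDegree ≤ d + 1) (i : ι) : (pderiv i F).totalDegree ≤ d := by
  by_cases e : pderiv i F = 0
  · simp [e]
  · have := H88.totalDegree_pderiv_lt e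
    omega

omit [CharZero Ω] in
lemma deg_line_le (F : MvPolynomial ι C) (x u : ι → Ω) : (line F x u).natDegree ≤ F.totalDegree :=
  Polynomial.natDegree_le_iff_coeff_eq_zero.2 fun d hd => by
    rw [coeff_line hd.le, homogeneousComponent_eq_zero _ _ hd, map_zero]

omit [CharZero Ω] [DecidableEq ι] in
lemma hs_const (h : F.totalDegree ≤ 2) (p q u v : ι → Ω) : hs F p u v = hs F q u v := by
  refine Finset.sum_congr rfl fun i _ => congrArg _ (congrArg (· ⬝ᵥ v) (funext fun j => ?_))
  unfold grad
  rw [totalDegree_eq_zero_iff_eq_C.1 (Nat.le_zero.1 (td_pd (td_pd h i) j))]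
  simp

omit [CharZero Ω] in
lemma grad_shift (h : F.totalDegree ≤ 2) (p q v : ι → Ω) :
    grad F p ⬝ᵥ v = grad F q ⬝ᵥ v + hs F q v (p - q) := by
  simp only [hs, dotProduct.eq_1 (grad F _), ← Finset.sum_add_distrib]
  refine Finset.sum_congr rfl fun i _ => ?_
  have e := Polynomial.eq_X_add_C_of_natDegree_le_one ((deg_line_le _ q (p - q)).trans (td_pd h i))
  have e0 := eval_line (pderiv i F) q (p - q) 0
  have e1 := eval_line (pderiv i F) q (p - q) 1
  have e2 := eval_derivative_line (pderiv i F) q (p - q) 0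
  rw [e] at e0 e1 e2
  simp at e0 e1 e2
  simp only [grad, dotProduct_sub]
  linear_combination v i * (e2 + e0 - e1)

omit [CharZero Ω] in
lemma quad_line (h : F.totalDegree ≤ 2) (x u : ι → Ω) : ∃ A B E : Ω,
    (∀ s, aeval (x + s • u) F = A * s ^ 2 + B * s + E) ∧
      (∀ s, grad F (x + s • u) ⬝ᵥ u = 2 * A * s + B) ∧ hs F x u u = 2 * A ∧
      (line F x u).coeff 2 = A ∧ (line F x u).coeff 1 = B ∧ (line F x u).coeff 0 = E := by
  have e := Polynomial.eq_quadratic_of_degree_le_two
    (Polynomial.degree_le_of_natDegree_le ((deg_line_le F x u).trans h))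
  refine ⟨_, _, _, fun s => ?_, fun s => ?_, ?_, rfl, rfl, rfl⟩
  · rw [← eval_line]; nth_rewrite 1 [e]; simp
  · rw [← eval_derivative_line]; nth_rewrite 1 [e]; simp; ring
  · have := line_two F x u 0
    rw [zero_smul, add_zero] at this
    rw [← this]; nth_rewrite 1 [e]; simp; ring

omit [CharZero Ω] [DecidableEq ι] in
lemma der_hs' (h : F.totalDegree ≤ 2) (D : Derivation C Ω Ω) (p u v : ι → Ω) :
    D (hs F p u v) = hs F p (dv D u) v + hs F p u (dv D v) := by
  simp only [hs_const h p 0]
  exact der_hs (by ext; simp [dv]) u v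

omit [CharZero Ω] in
lemma hs_dot (F : MvPolynomial ι C) (p u v : ι → Ω) :
    (fun i => hs F p u (Pi.single i 1)) ⬝ᵥ v = hs F p u v := by
  simp only [hs, dotProduct, Finset.sum_mul, Finset.mul_sum]
  rw [Finset.sum_comm]
  simp [Pi.single_apply, mul_assoc]

/-- An edge on which the section of a quadric is degenerate is a tangent edge. -/
lemma quad_tg (hd : F.totalDegree = 2) (hF : Irreducible F) {v : ι → Ω} (p0 : aeval p F = 0)
    (pn : grad F p ≠ 0) (pv : grad F p ⬝ᵥ v = 0) (hv : hs F p v v ≠ 0) (hk : Cur C k)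
    (h : (line F (xs k) (us k)).coeff 1 ^ 2 =
      4 * (line F (xs k) (us k)).coeff 2 * (line F (xs k) (us k)).coeff 0) : ∃ t, Tg F k t := by
  obtain ⟨A, B, E, q1, q2, q3, q4, q5, q6⟩ := quad_line hd.le (xs k) (us k)
  rw [q4, q5, q6] at h
  obtain ⟨π, hπ, hz⟩ := id hk
  have hz' : Gp π k := hz
  by_cases hA : A = 0
  · exfalso
    have hB : grad F (xs k) ⬝ᵥ us k = 0 := by
      have := q2 0
      rw [hA] at h
      simpa [show B = 0 by simpa using h] using this
    have h1 : ∀ D : Derivation C Ω Ω, hs F (xs k) (us k) (xs (dv D k)) +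
        grad F (xs k) ⬝ᵥ us (dv D k) = 0 := fun D => by
      have := dv_dot D (grad F (xs k)) (us k)
      rw [hB, map_zero, dv_grad_dot] at this
      exact this.symm
    have h2 : ∀ w, hs F (xs k) (us k) w = 0 := by
      by_contra hn
      have hn' : (fun i => hs F (xs k) (us k) (Pi.single i 1)) ≠ 0 := fun e =>
        hn fun w => by rw [← hs_dot, e, zero_dotProduct]
      refine hn fun w => ?_
      obtain ⟨D, hD⟩ := cur_der (w := Sum.elim w 0) hk
        (N := Sum.elim 0 fun i => hs F (xs k) (us k) (Pi.single i 1))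
        (fun e => hn' (funext fun i => congrFun e (Sum.inr i))) (fun D => by
          have := der_hs' hd.le D (xs k) (us k) (us k)
          rw [q3, hA, mul_zero, map_zero, hs_symm, eq_comm, add_self_eq_zero, ← hs_dot] at this
          rw [dot_sum]
          exact (congrArg₂ _ (zero_dotProduct _) this).trans (add_zero _)) (by simp [dotProduct])
      have := h1 D
      rw [hD] at this
      exact (add_zero _).symm.trans ((congrArg _ (dotProduct_zero _).symm).trans this)
    have h3 : ∀ b, us (grad π k) ⬝ᵥ b = 0 → grad F p ⬝ᵥ b = 0 ∧ hs F p b v = 0 := fun b hb => by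
      obtain ⟨D, hD⟩ := hz'.der (w := Sum.elim 0 b) (by
        rw [dot_sum]; exact (congrArg₂ _ (dotProduct_zero _) hb).trans (add_zero _))
      have e1 : ∀ w, hs F (xs k) b w = 0 := fun w => by
        rw [← hs_dot]
        refine Finset.sum_eq_zero fun i _ => mul_eq_zero_of_left ?_ _
        have := der_hs' hd.le D (xs k) (us k) (Pi.single i 1)
        rw [h2, h2, map_zero, add_zero, show dv D (us k) = us (dv D k) from rfl, hD] at this
        exact this.symm
      have e2 := h1 D
      rw [h2, zero_add, hD] at e2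
      exact ⟨by rw [grad_shift hd.le p (xs k), e1, add_zero]; exact e2,
        by rw [hs_const hd.le p (xs k), e1]⟩
    by_cases hg : us (grad π k) = 0
    · exact pn (eq_zero_of_dot fun b => (h3 b (by simp [hg])).1)
    · exact hv (h3 v (hyp_eq pn hg (fun b hb => (h3 b hb).1) v pv)).2
  have z0 : aeval (pt k (-B / (2 * A))) F = 0 := by
    rw [q1]; field_simp; linear_combination -h
  have z1 : grad F (pt k (-B / (2 * A))) ⬝ᵥ us k = 0 := by
    rw [q2]; field_simp; ring
  generalize -B / (2 * A) = t at z0 z1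
  have z2 : hs F (pt k t) (us k) (us k) ≠ 0 := by
    rw [hs_const hd.le _ (xs k), q3]; simpa using hA
  by_cases hn : grad F (pt k t) = 0
  · exfalso
    obtain ⟨j, hj⟩ := Function.ne_iff.1 pn
    set q := pt k t with hq
    let b : Fin 3 → ι → Ω := ![p - q, v, Pi.single j 1]
    obtain ⟨c, c0, c1⟩ := (Matrix.exists_mulVec_eq_zero_iff (M := Matrix.of
      ![fun i => xs (grad π k) ⬝ᵥ b i, fun i => hs F q (us k) (b i), 0])).2
      (det_eq_zero_of_row_eq_zero 2 fun _ => rfl)
    have c2 := congrFun c1 0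
    have c3 := congrFun c1 1
    simp [mulVec, dotProduct.eq_1 _ c, Fin.sum_univ_three, b] at c2 c3
    let a := c 0 • (p - q) + c 1 • v + c 2 • (Pi.single j 1 : ι → Ω)
    obtain ⟨D, hD⟩ := hz'.der (w := Sum.elim a 0) (by
      rw [dot_sum]
      change xs (grad π k) ⬝ᵥ a + us (grad π k) ⬝ᵥ 0 = 0
      simp [a]
      linear_combination c2)
    have e0 : dv D q = a + D t • us k := by
      rw [hq, dv_pt, hD]
      ext i; simp
    have e1 : ∀ w, hs F q w a + D t * hs F q w (us k) = 0 := fun w => by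
      rw [← hs_smul, ← hs_add, ← e0, ← dv_grad_dot, hn]
      simp [dv, dotProduct]
    have e2 : ∀ w, hs F q w a =
        c 0 * hs F q w (p - q) + c 1 * hs F q w v + c 2 * hs F q w (Pi.single j 1) := fun w => by
      simp only [a, hs_add, hs_smul]
    have e3 : D t = 0 := by
      have := e1 (us k)
      rw [e2, show c 0 * _ + c 1 * _ + c 2 * _ = (0 : Ω) by linear_combination c3] at this
      simpa [z2] using this
    simp only [e3, zero_mul, add_zero, e2] at e1
    have e4 : ∀ w, hs F q w (p - q) = grad F p ⬝ᵥ w := fun w => by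
      rw [grad_shift hd.le p q, hn]; simp
    have e5 : hs F q (p - q) (p - q) = 0 := by
      obtain ⟨A, B, E, q1, q2, q3, -⟩ := quad_line hd.le q (p - q)
      have a0 := q1 0
      have a1 := q1 1
      have a2 := q2 0
      simp [z0, p0, hn] at a0 a1 a2
      linear_combination q3 - 2 * a1 + 2 * a0 + 2 * a2
    have f1 := e1 (p - q)
    have f2 := e1 v
    have f3 := e1 (Pi.single j 1)
    rw [e5, hs_symm _ _ _ v, hs_symm _ _ _ (Pi.single j 1), e4, e4, pv] at f1
    have g2 : c 2 = 0 := by simpa [show grad F p j ≠ 0 from hj] using f1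
    rw [e4, pv, g2, hs_const hd.le q p] at f2
    have g1 : c 1 = 0 := by simpa [hv] using f2
    rw [e4, g1, g2] at f3
    have g0 : c 0 = 0 := by simpa [show grad F p j ≠ 0 from hj] using f3
    exact c0 (funext fun i => by fin_cases i <;> assumption)
  refine ⟨t, hk, gp_of_gen (gen_of_hyp hn fun w hw => ?_) hF z0, z1⟩
  obtain ⟨j, hj⟩ := Function.ne_iff.1 hn
  have hj : grad F (pt k t) j ≠ 0 := hj
  obtain ⟨D, d1, d2⟩ := tan_der hk z0 hn z1
    (w - t • (-hs F (pt k t) (us k) w / grad F (pt k t) j) • Pi.single j 1)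
    ((-hs F (pt k t) (us k) w / grad F (pt k t) j) • Pi.single j 1) (by simpa using hw)
  have h1 : dv D (pt k t) = w + D t • us k := by rw [dv_pt, d1, d2]; simp
  have h2 := der_nu z1 D
  rw [h1, d2, hs_add, hs_smul] at h2
  have h3 : D t = 0 := by
    refine (mul_eq_zero.1 ?_).resolve_right z2
    simp only [dotProduct_smul, dotProduct_single, smul_eq_mul, mul_one,
      div_mul_cancel₀ _ hj] at h2
    linear_combination h2
  exact ⟨D, by simpa [h3] using h1⟩

end Quad

end Pool.Agent.MP_249f74_an.H2.Sc
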