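import Pool.Agent.MP_249f74_an.H2.Calc2

/-!
Symbols: a function whose deformations form a space without characteristic directions is of finite type.
-/

open Set MvPolynomial

namespace Pool.Agent.MP_249f74_an.H2

open H17 (Der)
open H88 (cl subset_cl)
open H96

variable {C Ω : Type} [Field C] [Field Ω] [Algebra C Ω]

namespace Smb

/-- Lie derivative of a form. -/
def Lz (Z : Der C Ω) (n : Fm C Ω) : Fm C Ω where
  toFun θ := Z (n θ) - n ⁅Z, θ⁆
  map_add' θ φ := by simp only [lie_add, map_add]; ring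
  map_smul' a θ := by
    rw [← lie_skew, br_smul_left, ← lie_skew θ]
    simp only [map_smul, map_neg, map_sub, smul_eq_mul, Derivation.leibniz, RingHom.id_apply]
    ring

lemma Lz_apply (Z : Der C Ω) (n : Fm C Ω) (θ : Der C Ω) : Lz Z n θ = Z (n θ) - n ⁅Z, θ⁆ := rfl

lemma Lz_add (Z : Der C Ω) (n n' : Fm C Ω) : Lz Z (n + n') = Lz Z n + Lz Z n' := by
  ext θ; simp only [Lz_apply, LinearMap.add_apply, map_add]; ring

lemma Lz_smul (Z : Der C Ω) (a : Ω) (n : Fm C Ω) : Lz Z (a • n) = Z a • n + a • Lz Z n := by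
  ext θ
  simp only [Lz_apply, LinearMap.add_apply, LinearMap.smul_apply, smul_eq_mul, Derivation.leibniz]
  ring

lemma Lz_zero (Z : Der C Ω) : Lz Z 0 = 0 := by ext θ; simp [Lz_apply]

lemma Lz_span {Z : Der C Ω} {S : Set (Fm C Ω)} {N : Submodule Ω (Fm C Ω)} (h : S ⊆ N)
    (h' : ∀ n ∈ S, Lz Z n ∈ N) {n : Fm C Ω} (hn : n ∈ Submodule.span Ω S) : Lz Z n ∈ N := by
  induction hn using Submodule.span_induction with
  | mem n hn => exact h' n hn
  | zero => rw [Lz_zero]; exact zero_mem _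
  | add a b _ _ ha hb => rw [Lz_add]; exact add_mem ha hb
  | smul a n hn ha =>
    rw [Lz_smul]
    exact add_mem (N.smul_mem _ (Submodule.span_le.2 h hn)) (N.smul_mem _ ha)

variable {J : Type}

/-- Coefficientwise action of a derivation. -/
noncomputable def cD (Z : Der C Ω) : MvPolynomial J Ω →+ MvPolynomial J Ω :=
  ((basisMonomials J Ω).repr.symm.toLinearMap.toAddMonoidHom.comp
    (Finsupp.mapRange.addMonoidHom Z.toLinearMap.toAddMonoidHom)).comp
    (basisMonomials J Ω).repr.toLinearMap.toAddMonoidHom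

lemma mon_eq (α : J →₀ ℕ) (c : Ω) : monomial α c = c • basisMonomials J Ω α := by
  simp [smul_monomial]

lemma cD_mon (Z : Der C Ω) (α : J →₀ ℕ) (c : Ω) : cD Z (monomial α c) = monomial α (Z c) := by
  simp only [mon_eq, cD, AddMonoidHom.comp_apply, LinearMap.toAddMonoidHom_coe, LinearEquiv.coe_coe,
    map_smul, Module.Basis.repr_self, Finsupp.smul_single, smul_eq_mul, mul_one,
    Finsupp.mapRange.addMonoidHom_apply, Finsupp.mapRange_single, Module.Basis.repr_symm_single]
  rfl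

lemma cD_mul (Z : Der C Ω) (a b : MvPolynomial J Ω) : cD Z (a * b) = a * cD Z b + b * cD Z a := by
  induction a using MvPolynomial.induction_on' with
  | add a a' ha ha' => rw [add_mul, map_add, map_add, ha, ha']; ring
  | monomial α c =>
    induction b using MvPolynomial.induction_on' with
    | add b b' hb hb' => rw [mul_add, map_add, map_add, hb, hb']; ring
    | monomial β e =>
      simp only [monomial_mul, cD_mon, Derivation.leibniz, smul_eq_mul, map_add, add_comm β α]

variable [Fintype J]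

/-- The linear form with given coefficients. -/
noncomputable def lin : (J → Ω) →ₗ[Ω] MvPolynomial J Ω :=
  Fintype.linearCombination Ω fun j => X j

lemma lin_apply (w : J → Ω) : lin w = ∑ j, monomial (Finsupp.single j 1) (w j) := by
  simp [lin, Fintype.linearCombination_apply, X, smul_monomial]

lemma cD_lin (Z : Der C Ω) (w : J → Ω) : cD Z (lin w) = lin fun j => Z (w j) := by
  simp [lin_apply, cD_mon]

lemma lin_hom (w : J → Ω) : (lin w).IsHomogeneous 1 := by
  rw [lin_apply]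
  exact IsHomogeneous.sum _ _ _ fun j _ => isHomogeneous_monomial _ (by simp)

variable (n : (J →₀ ℕ) → Fm C Ω)

/-- The part of degree `k` of the symbol map. -/
noncomputable def Ph (k : ℕ) : MvPolynomial J Ω →ₗ[Ω] Fm C Ω :=
  (basisMonomials J Ω).constr Ω fun α => if α.degree = k then n α else 0

/-- Forms of order less than `k`. -/
def N (k : ℕ) : Submodule Ω (Fm C Ω) := Submodule.span Ω (n '' {α | α.degree < k})

variable {n}

omit [Fintype J] in
lemma Ph_mon (k : ℕ) (α : J →₀ ℕ) (c : Ω) :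
    Ph n k (monomial α c) = if α.degree = k then c • n α else 0 := by
  rw [mon_eq, map_smul, Ph, Module.Basis.constr_basis]
  split_ifs <;> simp

omit [Fintype J] in
lemma N_mono {k l : ℕ} (h : k ≤ l) : N n k ≤ N n l :=
  Submodule.span_mono (image_mono fun _ hα => lt_of_lt_of_le hα h)

omit [Fintype J] in
lemma Ph_mem (k : ℕ) (P : MvPolynomial J Ω) : Ph n k P ∈ N n (k + 1) := by
  induction P using MvPolynomial.induction_on' with
  | add a b ha hb => rw [map_add]; exact add_mem ha hb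
  | monomial α c =>
    rw [Ph_mon]
    split_ifs with h
    · exact Submodule.smul_mem _ _ (Submodule.subset_span ⟨α, h.trans_lt k.lt_succ_self, rfl⟩)
    · exact zero_mem _

omit [Fintype J] in
lemma Ph_hom {k l : ℕ} {P : MvPolynomial J Ω} (h : P.IsHomogeneous l) (hk : l ≠ k) :
    Ph n k P = 0 := by
  rw [P.as_sum, map_sum]
  refine Finset.sum_eq_zero fun α hα => ?_
  rw [Ph_mon, if_neg]
  rintro rfl
  exact mem_support_iff.1 hα (h.coeff_eq_zero hk.symm)

variable {Z : Der C Ω} {w : J → Ω}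
  (hZ : ∀ α, Lz Z (n α) = ∑ j, w j • n (α + Finsupp.single j 1))
include hZ

lemma Lz_Ph (k : ℕ) (P : MvPolynomial J Ω) :
    Lz Z (Ph n k P) = Ph n k (cD Z P) + Ph n (k + 1) (lin w * P) := by
  induction P using MvPolynomial.induction_on' with
  | add a b ha hb => simp only [map_add, mul_add, Lz_add, ha, hb]; abel
  | monomial α c =>
    simp only [cD_mon, Ph_mon, lin_apply, Finset.sum_mul, monomial_mul, map_sum, map_add,
      Finsupp.degree_single, add_comm 1, Nat.add_right_cancel_iff]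
    split_ifs
    · simp only [Lz_smul, hZ, Finset.smul_sum, smul_smul, add_comm α, mul_comm c]
    · simp [Lz_zero]

lemma Lz_N {k : ℕ} {m : Fm C Ω} (hm : m ∈ N n k) : Lz Z m ∈ N n (k + 1) :=
  Lz_span (Submodule.subset_span.trans (N_mono k.le_succ)) (by
    rintro _ ⟨α, hα, rfl⟩
    rw [hZ]
    exact sum_mem fun j _ => Submodule.smul_mem _ _
      (Submodule.subset_span ⟨_, by simpa using hα, rfl⟩)) hm

lemma iter (k : ℕ) : (Lz Z)^[k] (n 0) - Ph n k (lin w ^ k) ∈ N n k := by
  induction k with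
  | zero =>
    rw [pow_zero, show (1 : MvPolynomial J Ω) = monomial 0 1 from rfl, Ph_mon]
    simp
  | succ k ih =>
    have h := Lz_add Z ((Lz Z)^[k] (n 0) - Ph n k (lin w ^ k)) (Ph n k (lin w ^ k))
    rw [sub_add_cancel, Lz_Ph hZ, ← pow_succ', ← add_assoc, ← sub_eq_iff_eq_add] at h
    rw [Function.iterate_succ_apply', h]
    exact add_mem (Lz_N hZ ih) (Ph_mem _ _)

lemma pow_mem_N {𝒩 : Submodule Ω (Fm C Ω)} [FiniteDimensional Ω 𝒩] (h0 : n 0 ∈ 𝒩)
    (h1 : ∀ m ∈ 𝒩, Lz Z m ∈ 𝒩) : ∃ k, ∀ l, Ph n l (lin w ^ k) ∈ N n l := by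
  have h2 : ∀ k, (Lz Z)^[k] (n 0) ∈ 𝒩 := fun k => by
    induction k with
    | zero => exact h0
    | succ k ih => rw [Function.iterate_succ_apply']; exact h1 _ ih
  obtain ⟨k, hk⟩ := monotone_stabilizes_iff_noetherian.2 (IsNoetherian.iff_fg.2 ‹FiniteDimensional Ω 𝒩›)
    ⟨fun k => Submodule.span Ω ((fun i => (⟨_, h2 i⟩ : 𝒩)) '' Iio k),
      fun a b h => Submodule.span_mono (image_mono (Iio_subset_Iio h))⟩
  have h3 : (⟨_, h2 k⟩ : 𝒩) ∈ Submodule.span Ω ((fun i => (⟨_, h2 i⟩ : 𝒩)) '' Iio k) :=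
    (hk (k + 1) k.le_succ).ge (Submodule.subset_span ⟨k, k.lt_succ_self, rfl⟩)
  have h4 : (Lz Z)^[k] (n 0) ∈ N n k := (Submodule.span_le (p := (N n k).comap 𝒩.subtype)).2 (by
    rintro _ ⟨i, hi, rfl⟩
    have := add_mem (N_mono i.le_succ (iter hZ i)) (Ph_mem (n := n) i (lin w ^ i))
    rw [sub_add_cancel] at this
    exact N_mono hi this) h3
  refine ⟨k, fun l => ?_⟩
  obtain rfl | h := eq_or_ne k l
  · simpa using sub_mem h4 (iter hZ k)
  · rw [Ph_hom (by simpa using (lin_hom w).pow k) h]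
    exact zero_mem _

omit hZ

/-- The ideal of symbols. -/
def sym [DecidableEq J] {Y : J → Der C Ω}
    (hY : ∀ j α, Lz (Y j) (n α) = n (α + Finsupp.single j 1)) : Ideal (MvPolynomial J Ω) where
  carrier := {P | ∀ k, Ph n k P ∈ N n k}
  zero_mem' k := by simp
  add_mem' ha hb k := by rw [map_add]; exact add_mem (ha k) (hb k)
  smul_mem' a P hP := by
    induction a using MvPolynomial.induction_on with
    | C c => intro k; rw [smul_eq_mul, C_mul', map_smul]; exact Submodule.smul_mem _ _ (hP k)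
    | add a b ha hb => intro k; rw [add_smul, map_add]; exact add_mem (ha k) (hb k)
    | mul_X a j ha =>
      rw [mul_comm, mul_smul]
      generalize a • P = Q at ha
      have h1 : ∀ α, Lz (Y j) (n α) = ∑ i, (Pi.single j 1 : J → Ω) i • n (α + Finsupp.single i 1) :=
        fun α => by simp [hY, Pi.single_apply]
      have h2 : lin (Pi.single j 1 : J → Ω) = X j := by simp [lin]
      rintro (_ | k)
      · rw [Q.as_sum, Finset.smul_sum, map_sum]
        refine sum_mem fun α _ => ?_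
        rw [smul_eq_mul, X, monomial_mul, Ph_mon, if_neg (by simp)]
        exact zero_mem _
      · have h3 := Lz_Ph h1 k Q
        rw [h2, ← sub_eq_iff_eq_add'] at h3
        rw [smul_eq_mul, ← h3]
        exact sub_mem (Lz_N h1 (ha k)) (Ph_mem _ _)

lemma exists_pow {M : Type} [Monoid M] (T : J → M) (h : ∀ j k, T j * T k = T k * T j) :
    ∃ P : (J →₀ ℕ) → M, P 0 = 1 ∧ ∀ α j, P (α + Finsupp.single j 1) = T j * P α := by
  classical
  let _ : CommMonoid (Submonoid.closure (range T)) :=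
    { mul_comm := (Submonoid.isMulCommutative_closure _ (by
        rintro _ ⟨j, rfl⟩ _ ⟨k, rfl⟩
        exact h j k)).is_comm.comm }
  let t : J → Submonoid.closure (range T) := fun j => ⟨T j, Submonoid.subset_closure ⟨j, rfl⟩⟩
  refine ⟨fun α => (∏ j, t j ^ α j : Submonoid.closure (range T)), by simp, fun α j => ?_⟩
  have : ∏ k, t k ^ (α + Finsupp.single j 1 : J →₀ ℕ) k = t j * ∏ k, t k ^ α k := by
    simp only [Finsupp.add_apply, pow_add, Finset.prod_mul_distrib, Finsupp.single_apply, pow_ite,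
      pow_one, pow_zero, Finset.prod_ite_eq, Finset.mem_univ, if_true, mul_comm]
  exact congrArg Subtype.val this

/-- Iterated derivatives for commuting derivations. -/
lemma jets {H : IntermediateField C Ω} {Y : J → Der C Ω} (h1 : ∀ j, Pres H (Y j))
    (h2 : ∀ j k, Kil H ⁅Y j, Y k⁆) {φ : Ω} (hφ : φ ∈ H) :
    ∃ f : (J →₀ ℕ) → Ω, f 0 = φ ∧ ∀ α j, f (α + Finsupp.single j 1) = Y j (f α) := by
  obtain ⟨P, p0, p1⟩ := exists_pow (M := Function.End H) (fun j x => ⟨Y j x, h1 j x x.2⟩)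
    fun j k => funext fun x =>
      Subtype.ext (sub_eq_zero.1 ((br_apply _ _ _).symm.trans (h2 j k x x.2)))
  exact ⟨fun α => P α ⟨φ, hφ⟩, congrArg Subtype.val (congrFun p0 _),
    fun α j => congrArg Subtype.val (congrFun (p1 α j) _)⟩

end Smb

open Smb

/-- Finite type. -/
theorem fin_type [CharZero Ω] {E : Submodule Ω (Der C Ω)} (hE : Invl E) {J : Type} [Fintype J]
    [DecidableEq J] {y : J → Ω} {Y : J → Der C Ω} (hY : ∀ j, Y j ∈ E)
    (hd : ∀ j k, Y j (y k) = if j = k then 1 else 0) {H : IntermediateField C Ω}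
    (hH : ∀ f, f ∈ H ↔ ∀ D ∈ E, (∀ j, D (y j) = 0) → D f = 0) {φ : Ω} (hφ : φ ∈ H) {I S : Set Ω}
    (hS : S.Finite) (hI : ∀ t, ∃ ψ, Kil I ψ ∧ ∃ Z ∈ E, Agr H (ψ - t) Z) (h0 : φ ∈ cl C (I ∪ S))
    (hy : ∀ j, y j ∈ cl C (I ∪ S))
    (hgen : ∀ W : Submodule Ω (J → Ω),
      (∀ D ∈ E, (∀ j, D (y j) = 0) → ∀ w ∈ W, (fun j => D (w j)) ∈ W) →
      (∀ δ ∈ E, Pres (cl C (I ∪ S)) δ → (fun j => δ (y j)) ∈ W) → W = ⊤) :
    ∃ B : Set Ω, B.Finite ∧ φ ∈ B ∧
      (∀ K : IntermediateField C Ω, φ ∈ K → (∀ j, Pres K (Y j)) → B ⊆ K) ∧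
      ∀ j, Pres (cl C (range y ∪ B)) (Y j) := by
  have hyH : ∀ j, y j ∈ H := fun j => (hH _).2 fun D _ h => h j
  have hD : ∀ D ∈ E, (∀ j, D (y j) = 0) → Kil H D := fun D h1 h2 f hf => (hH f).1 hf D h1 h2
  have hdd : ∀ (θ : Der C Ω) j k, θ (Y j (y k)) = 0 := fun θ j k => by rw [hd]; split_ifs <;> simp
  have p1 : ∀ j, Pres H (Y j) := fun j f hf => (hH _).2 fun D h1 h2 => by
    have := hD _ (hE _ h1 _ (hY j)) (fun k => by simp [br_apply, hdd, h2]) f hf
    rwa [br_apply, hD D h1 h2 f hf, map_zero, sub_zero] at this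
  obtain ⟨f, f0, f1⟩ := jets p1 (fun j k => hD _ (hE _ (hY j) _ (hY k)) fun l => by
    simp [br_apply, hdd]) hφ
  have fK : ∀ K : IntermediateField C Ω, φ ∈ K → (∀ j, Pres K (Y j)) → ∀ α, f α ∈ K :=
    fun K k1 k2 α => by
      induction α using Finsupp.induction₂ with
      | zero => exact f0 ▸ k1
      | add_single a b β _ _ ih =>
        clear * - ih f1 k2
        induction b with
        | zero => simpa using ih
        | succ b ih => rw [Finsupp.single_add, ← add_assoc, f1]; exact k2 _ _ ih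
  have fH := fK H hφ p1
  have hZ : ∀ Z ∈ E, ∀ g ∈ H, Z g = ∑ j, Z (y j) * Y j g := fun Z h1 g hg => by
    have := hD (Z - ∑ j, Z (y j) • Y j) (sub_mem h1 (sum_mem fun j _ => E.smul_mem _ (hY j)))
      (fun k => by simp [H96.sum_apply, hd]) g hg
    simpa [H96.sum_apply, sub_eq_zero] using this
  let n : (J →₀ ℕ) → Fm C Ω := fun α => dif (f α) - ∑ k, f (α + Finsupp.single k 1) • dif (y k)
  have n1 : ∀ α θ, n α θ = θ (f α) - ∑ k, f (α + Finsupp.single k 1) * θ (y k) := fun α θ => by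
    simp [n]
  have hL : ∀ Z ∈ E, ∀ α, Lz Z (n α) = ∑ j, Z (y j) • n (α + Finsupp.single j 1) := fun Z h1 α => by
    ext θ
    have e : ∀ β, Z (f β) = ∑ j, Z (y j) * f (β + Finsupp.single j 1) := fun β => by
      simp only [hZ Z h1 _ (fH β), f1]
    simp only [Lz_apply, n1, br_apply, map_sub, map_sum, Derivation.leibniz, smul_eq_mul, e,
      LinearMap.sum_apply, LinearMap.smul_apply, mul_sub, Finset.sum_sub_distrib,
      Finset.sum_add_distrib, Finset.mul_sum]
    rw [Finset.sum_comm (f := fun k j => θ (y k) * (Z (y j) *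
      f (α + Finsupp.single k 1 + Finsupp.single j 1)))]
    simp only [add_right_comm α, mul_comm (θ (y _)), mul_assoc]
    ring
  have hY' : ∀ j α, Lz (Y j) (n α) = n (α + Finsupp.single j 1) := fun j α => by
    simp [hL _ (hY j), hd]
  let _ : Algebra ℚ (MvPolynomial J Ω) := (MvPolynomial.C.comp (algebraMap ℚ Ω)).toAlgebra
  have hW := hgen (((sym hY').radical.restrictScalars Ω).comap lin) (fun D h1 h2 w hw => ?_)
    fun δ h1 h2 => ?_
  · obtain ⟨K, hK⟩ := Ideal.exists_pow_le_of_le_radical_of_fg (I := idealOfVars J Ω) (J := sym hY')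
      (Ideal.span_le.2 (by
        rintro _ ⟨j, rfl⟩
        have : (Pi.single j 1 : J → Ω) ∈ ((sym hY').radical.restrictScalars Ω).comap lin :=
          hW ▸ Submodule.mem_top
        simpa [lin] using this)) (idealOfVars_fg J Ω)
    refine ⟨f '' {α | α.degree ≤ K}, (Finsupp.finite_of_degree_le K).image _, ⟨0, by simp, f0⟩,
      fun L l1 l2 => by rintro _ ⟨α, -, rfl⟩; exact fK L l1 l2 α, fun j => pres_cl ?_⟩
    rintro _ (⟨k, rfl⟩ | ⟨α, hα, rfl⟩)
    · rw [hd]; split_ifs
      exacts [one_mem _, zero_mem _]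
    rw [← f1]
    rcases (show α.degree ≤ K from hα).lt_or_eq with h | h
    · exact subset_cl _ (Or.inr ⟨_, by simpa using h, rfl⟩)
    refine mem_cl_of_kil fun θ hθ => ?_
    have h1 := hK ((monomial_mem_pow_idealOfVars_iff K (α + Finsupp.single j 1) one_ne_zero).2
      (by simp [h])) (K + 1)
    rw [Ph_mon, if_pos (by simp [h]), one_smul] at h1
    have h2 : ∀ β, n β θ = θ (f β) := fun β => by simp [n1, hθ _ (Or.inl ⟨_, rfl⟩)]
    rw [← h2]
    refine (Submodule.span_le (p := LinearMap.ker (LinearMap.applyₗ θ))).2 ?_ h1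
    rintro _ ⟨β, hβ, rfl⟩
    exact (h2 β).trans (hθ _ (Or.inr ⟨β, Nat.le_of_lt_succ hβ, rfl⟩))
  · have h3 : ∀ P ∈ sym hY', cD D P ∈ sym hY' := fun P hP k => by
      have := Lz_Ph (hL D h1) k P
      rw [show (fun j => D (y j)) = 0 from funext h2, map_zero, zero_mul, map_zero, add_zero] at this
      rw [← this]
      exact Lz_span Submodule.subset_span (by
        rintro _ ⟨α, -, rfl⟩
        simp [hL D h1, h2]) (hP k)
    change lin _ ∈ (sym hY').radical
    rw [← cD_lin, ← Ideal.sInf_minimalPrimes, Ideal.mem_sInf]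
    exact fun p hp => H17.minp _ (cD_mul D) h3 hp _ (hp.1.1.radical_le_iff.2 hp.1.2 hw)
  · let V : Submodule Ω (Fm C Ω) :=
      { carrier := {m | Van m (cl C (I ∪ S) : Set Ω)}
        zero_mem' := fun _ _ => rfl
        add_mem' := fun ha hb θ hθ => by simp [ha θ hθ, hb θ hθ]
        smul_mem' := fun a _ ha θ hθ => by simp [ha θ hθ] }
    have := hS.to_subtype
    let ev : Der C Ω →ₗ[Ω] (S → Ω) := LinearMap.pi fun s => dif (s : Ω)
    let A := LinearMap.ker (LinearMap.pi fun s : I => (dif (s : Ω) : Fm C Ω))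
    have hA : ∀ ψ, ψ ∈ A ↔ Kil I ψ := fun ψ => by simp [A, Kil, funext_iff]
    obtain ⟨r, v, hv⟩ := Module.Finite.exists_fin (R := Ω) (M := A.map ev)
    choose ψ ψ1 ψ2 using fun i => (v i).2
    have : FiniteDimensional Ω ↥(Submodule.span Ω (range n) ⊓ V) :=
      FiniteDimensional.of_injective ((LinearMap.pi fun i => LinearMap.applyₗ (ψ i)).comp
        (Submodule.span Ω (range n) ⊓ V).subtype) (by
          rw [injective_iff_map_eq_zero]
          rintro ⟨m, m1, m2⟩ hm
          ext t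
          obtain ⟨θ, t1, Z, t2, t3⟩ := hI t
          have e1 : m (θ - t) = 0 := by
            refine (Submodule.span_le (p := LinearMap.ker (LinearMap.applyₗ (θ - t)))).2 ?_ m1
            rintro _ ⟨α, rfl⟩
            change n α (θ - t) = 0
            simp only [n1, t3 _ (fH α), t3 _ (hyH _), hZ Z t2 _ (fH α), f1, mul_comm, sub_self]
          obtain ⟨c, hc⟩ := (Submodule.mem_span_range_iff_exists_fun Ω).1
            (hv.ge (Submodule.mem_top (x := ⟨ev θ, θ, (hA θ).2 t1, rfl⟩)))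
          have e2 : m (θ - ∑ i, c i • ψ i) = 0 := m2 _ (Kil.cl (Kil.union
            ((hA _).1 (sub_mem ((hA θ).2 t1) (sum_mem fun i _ => A.smul_mem _ (ψ1 i)))) fun s hs => by
              have := congrFun (congrArg Subtype.val hc) ⟨s, hs⟩
              simpa [← ψ2, ev, H96.sum_apply, sub_eq_zero] using this.symm))
          have e3 : ∀ i, m (ψ i) = 0 := fun i => congrFun hm i
          simp only [map_sub, map_sum, map_smul, e3, smul_zero, Finset.sum_const_zero,
            sub_zero] at e1 e2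
          simpa [e2] using e1)
    obtain ⟨k, hk⟩ := pow_mem_N (hL δ h1) (𝒩 := Submodule.span Ω (range n) ⊓ V)
      ⟨Submodule.subset_span ⟨0, rfl⟩, fun θ hθ => by simp [n1, f0, hθ _ h0, hθ _ (hy _)]⟩
      fun m hm => ⟨Lz_span Submodule.subset_span (by
        rintro _ ⟨α, rfl⟩
        rw [hL δ h1]
        exact sum_mem fun j _ => Submodule.smul_mem _ _ (Submodule.subset_span ⟨_, rfl⟩)) hm.1,
        fun θ hθ => by
          rw [Lz_apply, hm.2 θ hθ, hm.2 _ fun g hg => by
            rw [br_apply, hθ g hg, hθ _ (h2 g hg), map_zero, sub_zero], map_zero, sub_zero]⟩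
    exact ⟨k, hk⟩

end Pool.Agent.MP_249f74_an.H2
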